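import Pool.Agent.H.MP_1b807b_an.G.Defs
import Pool.Agent.H.MP_1b807b_an.Polar

/-! MP_1b807b_an, module GaussBall: the divergence theorem on balls, the ball as a `Domain` -/

set_option autoImplicit false

namespace Pool.Agent.RG

open MeasureTheory Metric Set
open scoped RealInnerProductSpace

variable {n : ℕ}

/-- the surface measure of the sphere of radius `R` -/
noncomputable def sphereMeasure (n : ℕ) (R : ℝ) : Measure (E n) :=
  ENNReal.ofReal (R ^ (n - 1)) • ((volume : Measure (E n)).toSphere).map
    (fun ω : sphere (0 : E n) 1 => R • (ω : E n))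

private theorem gb_sum (x : E n) : ∑ i : Fin n, x i • (EuclideanSpace.single i (1 : ℝ) : E n) = x := by
  have h := (EuclideanSpace.basisFun (Fin n) ℝ).sum_repr x
  simpa [EuclideanSpace.basisFun_apply] using h

private theorem gb_divg {X : E n → E n} (hX : ContDiff ℝ 1 X) (x : E n) :
    divg X x = ∑ i : Fin n, fderiv ℝ (fun y => X y i) x (EuclideanSpace.single i 1) := by
  unfold divg tr
  refine Finset.sum_congr rfl fun i _ => ?_
  have h1 : HasFDerivAt (fun y => X y i)
      ((EuclideanSpace.proj i : E n →L[ℝ] ℝ).comp (fderiv ℝ X x)) x :=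
    (EuclideanSpace.proj i : E n →L[ℝ] ℝ).hasFDerivAt.comp x
      ((hX.differentiable one_ne_zero) x).hasFDerivAt
  rw [h1.fderiv]
  rfl

private theorem gb_divg_cont {X : E n → E n} (hX : ContDiff ℝ 1 X) : Continuous (divg X) := by
  unfold divg tr
  refine continuous_finsetSum _ fun i _ => ?_
  exact (EuclideanSpace.proj i : E n →L[ℝ] ℝ).continuous.comp
    ((hX.continuous_fderiv one_ne_zero).clm_apply continuous_const)

private theorem gb_ibp {φ : E n → ℝ} (hφ : ContDiff ℝ 1 φ) (hc : HasCompactSupport φ)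
    {X : E n → E n} (hX : ContDiff ℝ 1 X) :
    ∫ x, φ x * divg X x = - ∫ x, fderiv ℝ φ x (X x) := by
  have hXi : ∀ i : Fin n, ContDiff ℝ 1 (fun y => X y i) := fun i =>
    (EuclideanSpace.proj i : E n →L[ℝ] ℝ).contDiff.comp hX
  have c1 : ∀ i : Fin n, Continuous fun x => φ x * fderiv ℝ (fun y => X y i) x
      (EuclideanSpace.single i 1) := fun i =>
    hφ.continuous.mul (((hXi i).continuous_fderiv one_ne_zero).clm_apply continuous_const)
  have c2 : ∀ i : Fin n, Continuous fun x => fderiv ℝ φ x (EuclideanSpace.single i 1) * X x i :=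
    fun i => ((hφ.continuous_fderiv one_ne_zero).clm_apply continuous_const).mul
      (hXi i).continuous
  have s1 : ∀ i : Fin n, HasCompactSupport fun x => φ x * fderiv ℝ (fun y => X y i) x
      (EuclideanSpace.single i 1) := fun i => hc.mul_right
  have s2 : ∀ i : Fin n, HasCompactSupport fun x => fderiv ℝ φ x (EuclideanSpace.single i 1) *
      X x i := fun i => by
    have h3 : HasCompactSupport fun x => fderiv ℝ φ x (EuclideanSpace.single i 1) :=
      (hc.fderiv ℝ).comp_left (g := fun A : E n →L[ℝ] ℝ => A (EuclideanSpace.single i 1)) rfl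
    exact h3.mul_right
  have i1 : ∀ i : Fin n, Integrable fun x => φ x * fderiv ℝ (fun y => X y i) x
      (EuclideanSpace.single i 1) := fun i => (c1 i).integrable_of_hasCompactSupport (s1 i)
  have i2 : ∀ i : Fin n, Integrable fun x => fderiv ℝ φ x (EuclideanSpace.single i 1) * X x i :=
    fun i => (c2 i).integrable_of_hasCompactSupport (s2 i)
  have e1 : ∀ x, φ x * divg X x = ∑ i : Fin n, φ x * fderiv ℝ (fun y => X y i) x
      (EuclideanSpace.single i 1) := fun x => by rw [gb_divg hX, Finset.mul_sum]
  have e2 : ∀ x, fderiv ℝ φ x (X x) =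
      ∑ i : Fin n, fderiv ℝ φ x (EuclideanSpace.single i 1) * X x i := fun x => by
    conv_lhs => rw [← gb_sum (X x)]
    rw [map_sum]
    refine Finset.sum_congr rfl fun i _ => ?_
    rw [map_smul, smul_eq_mul, mul_comm]
  simp_rw [e1, e2]
  rw [integral_finsetSum _ fun i _ => i1 i, integral_finsetSum _ fun i _ => i2 i,
    ← Finset.sum_neg_distrib]
  refine Finset.sum_congr rfl fun i _ => ?_
  exact integral_mul_fderiv_eq_neg_fderiv_mul_of_integrable (i2 i) (i1 i)
    ((hφ.continuous.mul (hXi i).continuous).integrable_of_hasCompactSupport hc.mul_right)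
    (fun x _ => (hφ.differentiable one_ne_zero) x)
    (fun x _ => ((hXi i).differentiable one_ne_zero) x)

/-- the cutoff function -/
private noncomputable def gb_q (R : ℝ) (k : ℕ) (t : ℝ) : ℝ :=
  Real.smoothTransition ((R ^ 2 - t) * (k + 1))

private theorem gb_q_contDiff (R : ℝ) (k : ℕ) : ContDiff ℝ 1 (gb_q R k) := by
  unfold gb_q
  exact Real.smoothTransition.contDiff.comp (by fun_prop)

private theorem gb_q_zero {R : ℝ} (k : ℕ) {t : ℝ} (ht : R ^ 2 ≤ t) : gb_q R k t = 0 := by
  unfold gb_q
  apply Real.smoothTransition.zero_of_nonpos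
  have : (0 : ℝ) ≤ k + 1 := by positivity
  nlinarith

private theorem gb_q_le (R : ℝ) (k : ℕ) (t : ℝ) : |gb_q R k t| ≤ 1 := by
  unfold gb_q
  rw [abs_of_nonneg (Real.smoothTransition.nonneg _)]
  exact Real.smoothTransition.le_one _

private theorem gb_q_tendsto {R t : ℝ} (ht : t < R ^ 2) :
    Filter.Tendsto (fun k => gb_q R k t) Filter.atTop (nhds 1) := by
  obtain ⟨N, hN⟩ := exists_nat_ge (1 / (R ^ 2 - t))
  refine tendsto_const_nhds.congr' ?_
  filter_upwards [Filter.eventually_ge_atTop N] with k hk
  unfold gb_q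
  symm
  apply Real.smoothTransition.one_of_one_le
  have h1 : 0 < R ^ 2 - t := by linarith
  have h2 : (N : ℝ) ≤ k := by exact_mod_cast hk
  have h3 : 1 / (R ^ 2 - t) ≤ k + 1 := by linarith
  rw [div_le_iff₀ h1] at h3
  linarith

private theorem gb_q_deriv_zero {R : ℝ} (k : ℕ) {t : ℝ} (ht : R ^ 2 ≤ t) :
    deriv (gb_q R k) t = 0 := by
  apply IsLocalMin.deriv_eq_zero
  apply Filter.Eventually.of_forall
  intro s
  show gb_q R k t ≤ gb_q R k s
  rw [gb_q_zero k ht]
  exact Real.smoothTransition.nonneg _

/-- the radial integrand -/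
private noncomputable def gb_G (X : E n → E n) (p : ℝ × E n) : ℝ :=
  p.1 ^ (n - 1) * ⟪p.2, X (p.1 • p.2)⟫

private theorem gb_G_contDiff {X : E n → E n} (hX : ContDiff ℝ 1 X) : ContDiff ℝ 1 (gb_G X) := by
  unfold gb_G
  have h1 : ContDiff ℝ 1 fun p : ℝ × E n => X (p.1 • p.2) :=
    hX.comp (contDiff_fst.smul contDiff_snd)
  exact (contDiff_fst.pow _).mul (contDiff_snd.inner ℝ h1)

private noncomputable def gb_G' (X : E n → E n) (p : ℝ × E n) : ℝ :=
  fderiv ℝ (gb_G X) p (1, 0)

private theorem gb_G'_cont {X : E n → E n} (hX : ContDiff ℝ 1 X) : Continuous (gb_G' X) :=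
  ((gb_G_contDiff hX).continuous_fderiv one_ne_zero).clm_apply continuous_const

private theorem gb_G_hasDerivAt {X : E n → E n} (hX : ContDiff ℝ 1 X) (y : E n) (r : ℝ) :
    HasDerivAt (fun r => gb_G X (r, y)) (gb_G' X (r, y)) r := by
  have h1 : HasFDerivAt (gb_G X) (fderiv ℝ (gb_G X) (r, y)) (r, y) :=
    ((gb_G_contDiff hX).differentiable one_ne_zero _).hasFDerivAt
  have h2 : HasDerivAt (fun r : ℝ => (r, y)) ((1 : ℝ), (0 : E n)) r :=
    (hasDerivAt_id r).prodMk (hasDerivAt_const r y)
  exact h1.comp_hasDerivAt r h2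

private theorem gb_main {R : ℝ} (hn : 1 ≤ n) (hR : 0 < R) {X : E n → E n}
    (hX : ContDiff ℝ 1 X) (k : ℕ) :
    ∫ x, gb_q R k (‖x‖ ^ 2) * divg X x =
      ∫ ω : sphere (0 : E n) 1, (gb_G X (0, (ω : E n)) * gb_q R k (0 ^ 2) +
        ∫ r in (0 : ℝ)..R, gb_G' X (r, (ω : E n)) * gb_q R k (r ^ 2))
          ∂((volume : Measure (E n)).toSphere) := by
  have hφ : ContDiff ℝ 1 fun x : E n => gb_q R k (‖x‖ ^ 2) :=
    (gb_q_contDiff R k).comp (contDiff_norm_sq ℝ)
  have hc : HasCompactSupport fun x : E n => gb_q R k (‖x‖ ^ 2) := by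
    apply HasCompactSupport.intro (isCompact_closedBall (0 : E n) R)
    intro x hx
    apply gb_q_zero
    rw [mem_closedBall_zero_iff, not_le] at hx
    nlinarith
  rw [gb_ibp hφ hc hX]
  have hd : ∀ x : E n, fderiv ℝ (fun x : E n => gb_q R k (‖x‖ ^ 2)) x (X x) =
      deriv (gb_q R k) (‖x‖ ^ 2) * (2 * ⟪x, X x⟫) := by
    intro x
    have h1 : HasDerivAt (gb_q R k) (deriv (gb_q R k) (‖x‖ ^ 2)) (‖x‖ ^ 2) :=
      ((gb_q_contDiff R k).differentiable one_ne_zero _).hasDerivAt
    have h2 := (hasStrictFDerivAt_norm_sq x).hasFDerivAt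
    have h3 := h1.comp_hasFDerivAt x h2
    have h4 := h3.fderiv
    have h5 : ((gb_q R k) ∘ fun x : E n => ‖x‖ ^ 2) = fun x : E n => gb_q R k (‖x‖ ^ 2) := rfl
    rw [h5] at h4
    rw [h4]
    simp
  set f : E n → ℝ := fun x => -(deriv (gb_q R k) (‖x‖ ^ 2) * (2 * ⟪x, X x⟫)) with hf
  have hfc : Continuous f := by
    have h1 : Continuous (deriv (gb_q R k)) := (gb_q_contDiff R k).continuous_deriv le_rfl
    have h2 : Continuous fun x : E n => ⟪x, X x⟫ := continuous_id.inner hX.continuous
    exact ((h1.comp (continuous_norm.pow 2)).mul (continuous_const.mul h2)).neg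
  have e1 : - ∫ x, fderiv ℝ (fun x : E n => gb_q R k (‖x‖ ^ 2)) x (X x) = ∫ x, f x := by
    rw [← integral_neg]
    refine integral_congr_ae (Filter.Eventually.of_forall fun x => ?_)
    simp only [hf, hd x]
  have e2 : ∫ x, f x = ∫ x in H.MP_1b807b_an.shell0 n 0 R, f x := by
    rw [setIntegral_eq_integral_of_forall_compl_eq_zero]
    intro x hx
    simp only [hf]
    by_cases h0 : x = 0
    · simp [h0]
    · have h1 : R ≤ ‖x‖ := by
        by_contra h2
        exact hx ⟨norm_pos_iff.2 h0, not_le.1 h2⟩
      rw [gb_q_deriv_zero k (by nlinarith), zero_mul, neg_zero]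
  rw [e1, e2, H.MP_1b807b_an.polar hn le_rfl hR.le hfc]
  refine integral_congr_ae (Filter.Eventually.of_forall fun ω => ?_)
  have hω : ‖(ω : E n)‖ = 1 := by simp
  have hnorm : ∀ r : ℝ, ‖r • (ω : E n)‖ ^ 2 = r ^ 2 := by
    intro r
    rw [norm_smul, hω, mul_one, Real.norm_eq_abs, sq_abs]
  have hP : ∀ r : ℝ, HasDerivAt (fun r : ℝ => gb_q R k (r ^ 2))
      (deriv (gb_q R k) (r ^ 2) * (2 * r)) r := by
    intro r
    have h1 : HasDerivAt (gb_q R k) (deriv (gb_q R k) (r ^ 2)) (r ^ 2) :=
      ((gb_q_contDiff R k).differentiable one_ne_zero _).hasDerivAt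
    have h2 : HasDerivAt (fun r : ℝ => r ^ 2) (2 * r) r := by
      simpa using hasDerivAt_pow 2 r
    exact HasDerivAt.comp (h₂ := gb_q R k) (h := fun r : ℝ => r ^ 2) r h1 h2
  have hPc : Continuous fun r : ℝ => deriv (gb_q R k) (r ^ 2) * (2 * r) :=
    (((gb_q_contDiff R k).continuous_deriv le_rfl).comp (continuous_pow 2)).mul
      (continuous_const.mul continuous_id)
  have hGc : Continuous fun r : ℝ => gb_G' X (r, (ω : E n)) :=
    (gb_G'_cont hX).comp (continuous_id.prodMk continuous_const)
  have h3 := intervalIntegral.integral_mul_deriv_eq_deriv_mul (a := 0) (b := R)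
    (u := fun r => gb_G X (r, (ω : E n))) (u' := fun r => gb_G' X (r, (ω : E n)))
    (v := fun r => gb_q R k (r ^ 2)) (v' := fun r => deriv (gb_q R k) (r ^ 2) * (2 * r))
    (fun r _ => gb_G_hasDerivAt hX _ r) (fun r _ => hP r)
    (hGc.intervalIntegrable _ _) (hPc.intervalIntegrable _ _)
  have h4 : ∫ r in (0 : ℝ)..R, r ^ (n - 1) * f (r • (ω : E n)) =
      - ∫ r in (0 : ℝ)..R, gb_G X (r, (ω : E n)) * (deriv (gb_q R k) (r ^ 2) * (2 * r)) := by
    rw [← intervalIntegral.integral_neg]
    refine intervalIntegral.integral_congr fun r _ => ?_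
    simp only [hf, gb_G, hnorm r, inner_smul_left]
    simp only [conj_trivial]
    ring
  show ∫ r in (0 : ℝ)..R, r ^ (n - 1) * f (r • (ω : E n)) = _
  rw [h4, h3, gb_q_zero k le_rfl]
  ring

theorem gauss_ball (hn : 1 ≤ n) {R : ℝ} (hR : 0 < R) {X : E n → E n} (hX : ContDiff ℝ 1 X) :
    ∫ x in ball (0 : E n) R, divg X x = ∫ x, ⟪X x, R⁻¹ • x⟫ ∂(sphereMeasure n R) := by
  have hfin : IsFiniteMeasure ((volume : Measure (E n)).toSphere) := inferInstance
  -- left limit
  have L : Filter.Tendsto (fun k : ℕ => ∫ x, gb_q R k (‖x‖ ^ 2) * divg X x) Filter.atTop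
      (nhds (∫ x in ball (0 : E n) R, divg X x)) := by
    rw [← integral_indicator measurableSet_ball]
    refine tendsto_integral_of_dominated_convergence
      (fun x => (closedBall (0 : E n) R).indicator (fun x => |divg X x|) x) ?_ ?_ ?_ ?_
    · intro k
      exact ((((gb_q_contDiff R k).continuous.comp (continuous_norm.pow 2)).mul
        (gb_divg_cont hX))).aestronglyMeasurable
    · rw [integrable_indicator_iff measurableSet_closedBall]
      exact ((gb_divg_cont hX).abs.continuousOn).integrableOn_compact (isCompact_closedBall _ _)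
    · intro k
      refine Filter.Eventually.of_forall fun x => ?_
      by_cases hx : x ∈ closedBall (0 : E n) R
      · rw [indicator_of_mem hx, Real.norm_eq_abs, abs_mul]
        exact mul_le_of_le_one_left (abs_nonneg _) (gb_q_le R k _)
      · rw [indicator_of_notMem hx, gb_q_zero k, zero_mul, norm_zero]
        rw [mem_closedBall_zero_iff, not_le] at hx
        nlinarith
    · refine Filter.Eventually.of_forall fun x => ?_
      by_cases hx : x ∈ ball (0 : E n) R
      · rw [indicator_of_mem hx]
        rw [mem_ball_zero_iff] at hx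
        have h1 : ‖x‖ ^ 2 < R ^ 2 := by
          have := norm_nonneg x
          nlinarith
        simpa using (gb_q_tendsto h1).mul_const (divg X x)
      · rw [indicator_of_notMem hx]
        rw [mem_ball_zero_iff, not_lt] at hx
        have h1 : ∀ k : ℕ, gb_q R k (‖x‖ ^ 2) * divg X x = 0 := fun k => by
          rw [gb_q_zero k (by nlinarith), zero_mul]
        simp only [h1]
        exact tendsto_const_nhds
  -- bounds
  obtain ⟨C₁, hC₁⟩ := ((isCompact_Icc (a := (0 : ℝ)) (b := R)).prod
    (isCompact_sphere (0 : E n) 1)).exists_bound_of_continuousOn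
    (f := gb_G' X) (gb_G'_cont hX).continuousOn
  obtain ⟨C₀, hC₀⟩ := (isCompact_sphere (0 : E n) 1).exists_bound_of_continuousOn
    (f := fun y : E n => gb_G X (0, y))
    ((gb_G_contDiff hX).continuous.comp (continuous_const.prodMk continuous_id)).continuousOn
  have Rl : Filter.Tendsto (fun k : ℕ => ∫ ω : sphere (0 : E n) 1,
      (gb_G X (0, (ω : E n)) * gb_q R k (0 ^ 2) +
        ∫ r in (0 : ℝ)..R, gb_G' X (r, (ω : E n)) * gb_q R k (r ^ 2))
          ∂((volume : Measure (E n)).toSphere)) Filter.atTop
      (nhds (∫ ω : sphere (0 : E n) 1, gb_G X (R, (ω : E n))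
        ∂((volume : Measure (E n)).toSphere))) := by
    refine tendsto_integral_of_dominated_convergence (fun _ => C₀ + C₁ * |R - 0|) ?_ ?_ ?_ ?_
    · intro k
      refine Continuous.aestronglyMeasurable ?_
      refine Continuous.add ?_ ?_
      · exact (((gb_G_contDiff hX).continuous.comp
          (continuous_const.prodMk continuous_subtype_val))).mul continuous_const
      · refine intervalIntegral.continuous_parametric_intervalIntegral_of_continuous' ?_ 0 R
        refine Continuous.mul ?_ ?_
        · exact (gb_G'_cont hX).comp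
            (continuous_snd.prodMk (continuous_subtype_val.comp continuous_fst))
        · exact (gb_q_contDiff R k).continuous.comp (continuous_snd.pow 2)
    · exact integrable_const _
    · intro k
      refine Filter.Eventually.of_forall fun ω => ?_
      refine (norm_add_le _ _).trans (add_le_add ?_ ?_)
      · rw [norm_mul]
        refine le_trans ?_ (hC₀ ω ω.2)
        exact mul_le_of_le_one_right (norm_nonneg _) (gb_q_le R k _)
      · refine intervalIntegral.norm_integral_le_of_norm_le_const fun r hr => ?_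
        rw [uIoc_of_le hR.le] at hr
        rw [norm_mul]
        refine le_trans ?_ (hC₁ (r, (ω : E n)) ⟨⟨hr.1.le, hr.2⟩, ω.2⟩)
        exact mul_le_of_le_one_right (norm_nonneg _) (gb_q_le R k _)
    · refine Filter.Eventually.of_forall fun ω => ?_
      have hGc : Continuous fun r : ℝ => gb_G' X (r, (ω : E n)) :=
        (gb_G'_cont hX).comp (continuous_id.prodMk continuous_const)
      have h1 : gb_G X (R, (ω : E n)) = gb_G X (0, (ω : E n)) * 1 +
          ∫ r in (0 : ℝ)..R, gb_G' X (r, (ω : E n)) := by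
        rw [intervalIntegral.integral_eq_sub_of_hasDerivAt
          (fun r _ => gb_G_hasDerivAt hX (ω : E n) r) (hGc.intervalIntegrable _ _)]
        ring
      rw [h1]
      refine Filter.Tendsto.add ((gb_q_tendsto (by nlinarith)).const_mul _) ?_
      refine intervalIntegral.tendsto_integral_filter_of_dominated_convergence
        (fun r => |gb_G' X (r, (ω : E n))|) ?_ ?_ ?_ ?_
      · refine Filter.Eventually.of_forall fun k => ?_
        exact (hGc.mul ((gb_q_contDiff R k).continuous.comp
          (continuous_pow 2))).aestronglyMeasurable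
      · refine Filter.Eventually.of_forall fun k => Filter.Eventually.of_forall fun r _ => ?_
        rw [norm_mul, Real.norm_eq_abs]
        exact mul_le_of_le_one_right (abs_nonneg _) (gb_q_le R k _)
      · exact hGc.abs.intervalIntegrable _ _
      · have hae : ∀ᵐ r : ℝ, r ≠ R := by
          simp [ae_iff]
        filter_upwards [hae] with r hr hr'
        rw [uIoc_of_le hR.le] at hr'
        have h2 : r < R := lt_of_le_of_ne hr'.2 hr
        have h3 : r ^ 2 < R ^ 2 := by
          have := hr'.1
          nlinarith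
        simpa using (gb_q_tendsto h3).const_mul (gb_G' X (r, (ω : E n)))
  have heq := tendsto_nhds_unique L (by simpa only [gb_main hn hR hX] using Rl)
  rw [heq]
  have hc : Continuous fun x : E n => ⟪X x, R⁻¹ • x⟫ :=
    hX.continuous.inner (continuous_const_smul _)
  unfold sphereMeasure
  rw [integral_smul_measure, integral_map (by fun_prop) hc.aestronglyMeasurable,
    ENNReal.toReal_ofReal (by positivity), ← integral_smul]
  refine integral_congr_ae (Filter.Eventually.of_forall fun ω => ?_)
  simp only [gb_G, smul_smul, inv_mul_cancel₀ hR.ne', one_smul, smul_eq_mul]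
  rw [real_inner_comm]

theorem sphereMeasure_support (n : ℕ) {R : ℝ} (hR : 0 < R) :
    sphereMeasure n R (sphere (0 : E n) R)ᶜ = 0 := by
  unfold sphereMeasure
  rw [Measure.smul_apply, Measure.map_apply (by fun_prop) isClosed_sphere.measurableSet.compl]
  have h : (fun ω : sphere (0 : E n) 1 => R • (ω : E n)) ⁻¹' (sphere (0 : E n) R)ᶜ = ∅ := by
    ext ω
    simp [norm_smul, abs_of_pos hR]
  rw [h, measure_empty, smul_zero]

theorem sphereMeasure_finite (n : ℕ) (R : ℝ) : IsFiniteMeasure (sphereMeasure n R) := by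
  have h1 : IsFiniteMeasure ((volume : Measure (E n)).toSphere) := inferInstance
  have h2 : IsFiniteMeasure (((volume : Measure (E n)).toSphere).map
    (fun ω : sphere (0 : E n) 1 => R • (ω : E n))) := inferInstance
  unfold sphereMeasure
  refine ⟨?_⟩
  rw [Measure.smul_apply, smul_eq_mul]
  exact ENNReal.mul_lt_top ENNReal.ofReal_lt_top (measure_lt_top _ _)

/-- The open ball of radius `R` centred at the origin as a domain. -/
noncomputable def ballDomain (n : ℕ) (hn : 1 ≤ n) (R : ℝ) (hR : 0 < R) : Domain n where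
  carrier := ball 0 R
  isOpen := isOpen_ball
  isConnected := ⟨⟨0, mem_ball_self hR⟩, (convex_ball _ _).isPreconnected⟩
  isBounded := isBounded_ball
  surface := sphereMeasure n R
  isFinite := sphereMeasure_finite n R
  support := by
    rw [frontier_ball _ hR.ne']
    exact sphereMeasure_support n hR
  normal := fun x => R⁻¹ • x
  measurable_normal := by fun_prop
  norm_normal := by
    rw [ae_iff]
    refine measure_mono_null ?_ (sphereMeasure_support n hR)
    intro x hx hx'
    apply hx
    rw [mem_sphere_zero_iff_norm] at hx'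
    rw [norm_smul, hx', Real.norm_of_nonneg (inv_nonneg.2 hR.le), inv_mul_cancel₀ hR.ne']
  divergence := fun X hX => gauss_ball hn hR hX

/-- the perimeter of the ball is `n |B| / R` -/
theorem perimeter_ball (hn : 1 ≤ n) {R : ℝ} (hR : 0 < R) :
    R * (ballDomain n hn R hR).perimeter = n * volume.real (ball (0 : E n) R) := by
  have h := gauss_ball hn hR (X := fun x : E n => x) contDiff_id
  have h1 : ∀ x : E n, divg (fun x : E n => x) x = n := by
    intro x
    unfold divg tr
    have h2 : fderiv ℝ (fun x : E n => x) x = ContinuousLinearMap.id ℝ (E n) := fderiv_fun_id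
    rw [h2]
    simp
  simp only [h1] at h
  rw [setIntegral_const, smul_eq_mul] at h
  have h3 : ∫ x, ⟪x, R⁻¹ • x⟫ ∂(sphereMeasure n R) = ∫ _x : E n, R ∂(sphereMeasure n R) := by
    refine integral_congr_ae ?_
    have h4 : ∀ᵐ x ∂(sphereMeasure n R), x ∈ sphere (0 : E n) R := by
      rw [ae_iff]
      exact sphereMeasure_support n hR
    filter_upwards [h4] with x hx
    rw [mem_sphere_zero_iff_norm] at hx
    rw [inner_smul_right, real_inner_self_eq_norm_sq, hx]
    field_simp
  rw [h3, integral_const, smul_eq_mul] at h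
  show R * (sphereMeasure n R).real univ = _
  rw [mul_comm R, ← h, mul_comm]

end Pool.Agent.RG
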