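import Pool.Agent.H.MP_1b807b_an.G.RadF

/-! MP_1b807b_an, module RadEst: estimates for the radial functions -/

set_option autoImplicit false

namespace Pool.Agent.RG

open Set

variable {n : ℕ} {R a k : ℝ} {φ w w1 : ℝ → ℝ}

/-- the function `P` with `P' = w²` and `P(R²) = a φ(R²)² / R` -/
noncomputable def PP (R a : ℝ) (φ w : ℝ → ℝ) (t : ℝ) : ℝ :=
  a / R * φ (R ^ 2) ^ 2 - ∫ s in t..(R ^ 2), w s ^ 2

/-- the function `b = n P + w² t - k² φ²` -/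
noncomputable def bb (n : ℕ) (R a k : ℝ) (φ w : ℝ → ℝ) (t : ℝ) : ℝ :=
  n * PP R a φ w t + w t ^ 2 * t - k ^ 2 * φ t ^ 2

/-- the bound `β` for `b` -/
noncomputable def bet (n : ℕ) (R a : ℝ) (φ : ℝ → ℝ) : ℝ :=
  a ^ 2 * φ (R ^ 2) ^ 2 * (n * φ (R ^ 2) / 2 + 1 + n * (a * R))

theorem RadFun.dPP (h : RadFun n R a k φ w w1) (t : ℝ) :
    HasDerivAt (PP R a φ w) (w t ^ 2) t := by
  have hc : Continuous (fun s => w s ^ 2) := by
    have : Continuous w := continuous_iff_continuousAt.2 fun z => (h.dw z).continuousAt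
    fun_prop
  have h1 : HasDerivAt (fun u => ∫ s in (R ^ 2)..u, w s ^ 2) (w t ^ 2) t :=
    intervalIntegral.integral_hasDerivAt_right (hc.intervalIntegrable _ _)
      (hc.stronglyMeasurableAtFilter _ _) hc.continuousAt
  have h2 : PP R a φ w = fun u => a / R * φ (R ^ 2) ^ 2 + ∫ s in (R ^ 2)..u, w s ^ 2 := by
    funext u
    unfold PP
    rw [intervalIntegral.integral_symm]
    ring
  rw [h2]
  exact h1.const_add _

private theorem RadFun.w_pos (h : RadFun n R a k φ w w1) (hn : 1 ≤ n) {t : ℝ} (h0 : 0 ≤ t) :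
    0 < w t := by
  have h1 := h.le_w t h0
  have h2 : 0 < k ^ 2 / n := by
    have := h.hk
    have : (0 : ℝ) < n := by exact_mod_cast hn
    positivity
  linarith

private theorem RadFun.mono_φ (h : RadFun n R a k φ w w1) (hn : 1 ≤ n) {s t : ℝ}
    (h0 : 0 ≤ s) (h1 : s ≤ t) : φ s ≤ φ t := by
  have hmono : MonotoneOn φ (Ici 0) := by
    refine monotoneOn_of_deriv_nonneg (convex_Ici 0) ?_ ?_ ?_
    · exact fun t _ => (h.dφ t).continuousAt.continuousWithinAt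
    · exact fun t _ => (h.dφ t).differentiableAt.differentiableWithinAt
    · intro t ht
      rw [interior_Ici] at ht
      rw [(h.dφ t).deriv]
      have := h.w_pos hn (le_of_lt (mem_Ioi.1 ht))
      linarith
  exact hmono (mem_Ici.2 h0) (mem_Ici.2 (h0.trans h1)) h1

theorem RadFun.φ_le (h : RadFun n R a k φ w w1) (hn : 1 ≤ n) (hR : 0 < R) (ha : 0 < a) {t : ℝ}
    (h0 : 0 ≤ t) (h1 : t ≤ R ^ 2) : φ t ≤ φ (R ^ 2) := h.mono_φ hn h0 h1

/-- `φ(R²) ≤ 1 / (1 - a R / 2)` in the form `φ(R²) (1 - aR/2) ≤ 1` -/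
theorem RadFun.φR_le (h : RadFun n R a k φ w w1) (hn : 1 ≤ n) (hR : 0 < R) (ha : 0 < a) :
    φ (R ^ 2) * (1 - a * R / 2) ≤ 1 := by
  have hR2 : (0 : ℝ) ≤ R ^ 2 := by positivity
  have h1 := Convex.image_sub_le_mul_sub_of_deriv_le (convex_Icc (0 : ℝ) (R ^ 2))
    (f := φ) (C := w (R ^ 2) / 2)
    (fun t _ => (h.dφ t).continuousAt.continuousWithinAt)
    (fun t _ => (h.dφ t).differentiableAt.differentiableWithinAt)
    (fun t ht => by
      rw [interior_Icc] at ht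
      rw [(h.dφ t).deriv]
      have := h.mono_w t (R ^ 2) ht.1.le ht.2.le
      linarith)
    0 (left_mem_Icc.2 hR2) (R ^ 2) (right_mem_Icc.2 hR2) hR2
  rw [h.φ0] at h1
  have h2 := h.bc
  have h3 : w (R ^ 2) / 2 * (R ^ 2 - 0) = R / 2 * (R * w (R ^ 2)) := by ring
  rw [h3, h2] at h1
  linarith

theorem RadFun.w_le' (h : RadFun n R a k φ w w1) (hn : 1 ≤ n) (hR : 0 < R) (ha : 0 < a) {t : ℝ}
    (h0 : 0 ≤ t) (h1 : t ≤ R ^ 2) : 0 ≤ w t ∧ w t * R ≤ a * φ (R ^ 2) := by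
  refine ⟨(h.w_pos hn h0).le, ?_⟩
  have := h.mono_w t (R ^ 2) h0 h1
  rw [← h.bc]
  nlinarith

private theorem RadFun.φR_sub (h : RadFun n R a k φ w w1) (hn : 1 ≤ n) (hR : 0 < R) (ha : 0 < a) :
    a / R * (φ (R ^ 2) - 1) ≤ a ^ 2 * φ (R ^ 2) / 2 := by
  have h1 := h.φR_le hn hR ha
  have h2 : φ (R ^ 2) - 1 ≤ a * R / 2 * φ (R ^ 2) := by linarith
  have h3 : (0 : ℝ) ≤ a / R := by positivity
  calc a / R * (φ (R ^ 2) - 1) ≤ a / R * (a * R / 2 * φ (R ^ 2)) :=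
        mul_le_mul_of_nonneg_left h2 h3
    _ = a ^ 2 * φ (R ^ 2) / 2 := by field_simp

private theorem RadFun.wR_eq (h : RadFun n R a k φ w w1) (hR : 0 < R) :
    w (R ^ 2) = a / R * φ (R ^ 2) := by
  have h1 := h.bc
  field_simp
  linarith

private theorem RadFun.k_ge (h : RadFun n R a k φ w w1) (hn : 1 ≤ n) (hR : 0 < R) (ha : 0 < a) :
    a / R ≤ k ^ 2 / n := by
  have h1 := h.w_le (R ^ 2) (by positivity)
  have h2 := h.one_le (R ^ 2) (by positivity)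
  rw [h.wR_eq hR] at h1
  exact le_of_mul_le_mul_right h1 (by linarith)

private theorem RadFun.diff_le (h : RadFun n R a k φ w w1) (hn : 1 ≤ n) (hR : 0 < R) (ha : 0 < a)
    {t : ℝ} (h0 : 0 ≤ t) (h1 : t ≤ R ^ 2) : |a / R * φ t - w t| ≤ a ^ 2 * φ (R ^ 2) / 2 := by
  have e1 := h.φR_sub hn hR ha
  have e2 := h.k_ge hn hR ha
  have e3 := h.one_le t h0
  have e4 := h.φ_le hn hR ha h0 h1
  have e5 := h.mono_w t (R ^ 2) h0 h1
  have e6 := h.le_w t h0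
  rw [h.wR_eq hR] at e5
  have e7 : (0 : ℝ) < a / R := by positivity
  rw [abs_le]
  constructor
  · nlinarith
  · nlinarith

private theorem RadFun.hh_le (h : RadFun n R a k φ w w1) (hn : 1 ≤ n) (hR : 0 < R) (ha : 0 < a)
    {t : ℝ} (h0 : 0 ≤ t) (h1 : t ≤ R ^ 2) :
    |a / R * φ t ^ 2 - PP R a φ w t| ≤ a ^ 3 * φ (R ^ 2) ^ 2 / (2 * R) * (R ^ 2 - t) := by
  have hd : ∀ s : ℝ, HasDerivAt (fun s => a / R * φ s ^ 2 - PP R a φ w s)
      (w s * (a / R * φ s - w s)) s := by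
    intro s
    have e := (((h.dφ s).pow 2).const_mul (a / R)).sub (h.dPP s)
    refine e.congr_deriv ?_
    push_cast
    ring
  have hb : ∀ s ∈ Icc t (R ^ 2), ‖w s * (a / R * φ s - w s)‖ ≤
      a ^ 3 * φ (R ^ 2) ^ 2 / (2 * R) := by
    intro s hs
    have s0 : 0 ≤ s := h0.trans hs.1
    rw [Real.norm_eq_abs, abs_mul]
    have e1 := h.diff_le hn hR ha s0 hs.2
    have e2 := h.w_pos hn s0
    have e3 := h.mono_w s (R ^ 2) s0 hs.2
    rw [h.wR_eq hR] at e3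
    rw [abs_of_pos e2]
    have e4 := h.one_le (R ^ 2) (by positivity)
    calc w s * |a / R * φ s - w s| ≤ (a / R * φ (R ^ 2)) * (a ^ 2 * φ (R ^ 2) / 2) := by
          apply mul_le_mul e3 e1 (abs_nonneg _)
          positivity
      _ = a ^ 3 * φ (R ^ 2) ^ 2 / (2 * R) := by field_simp
  have key := Convex.norm_image_sub_le_of_norm_hasDerivWithin_le
    (f := fun s => a / R * φ s ^ 2 - PP R a φ w s)
    (fun s _ => (hd s).hasDerivWithinAt) hb (convex_Icc t (R ^ 2))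
    (right_mem_Icc.2 h1) (left_mem_Icc.2 h1)
  have hz : a / R * φ (R ^ 2) ^ 2 - PP R a φ w (R ^ 2) = 0 := by
    unfold PP
    simp
  simp only [hz, sub_zero, Real.norm_eq_abs] at key
  rw [abs_sub_comm t (R ^ 2), abs_of_nonneg (by linarith : (0 : ℝ) ≤ R ^ 2 - t)] at key
  exact key

/-- lower bound for `P` -/
theorem RadFun.PP_ge (h : RadFun n R a k φ w w1) (hn : 1 ≤ n) (hR : 0 < R) (ha : 0 < a) {t : ℝ}
    (h0 : 0 ≤ t) (h1 : t ≤ R ^ 2) : a / R - a ^ 3 * R * φ (R ^ 2) ^ 2 ≤ PP R a φ w t := by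
  have e1 := h.hh_le hn hR ha h0 h1
  have e2 := h.one_le t h0
  have e3 := (abs_le.1 e1).2
  have e4 : a ^ 3 * φ (R ^ 2) ^ 2 / (2 * R) * (R ^ 2 - t) ≤ a ^ 3 * R * φ (R ^ 2) ^ 2 := by
    have e5 : (0 : ℝ) ≤ a ^ 3 * φ (R ^ 2) ^ 2 / (2 * R) := by positivity
    calc a ^ 3 * φ (R ^ 2) ^ 2 / (2 * R) * (R ^ 2 - t)
        ≤ a ^ 3 * φ (R ^ 2) ^ 2 / (2 * R) * (2 * R ^ 2) := by
          apply mul_le_mul_of_nonneg_left _ e5
          nlinarith [sq_nonneg R]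
      _ = a ^ 3 * R * φ (R ^ 2) ^ 2 := by field_simp
  have e6 : a / R ≤ a / R * φ t ^ 2 := by
    have : (0 : ℝ) < a / R := by positivity
    nlinarith [mul_self_nonneg (φ t - 1)]
  linarith

/-- the boundary estimate; `s = |T|`, `τ = ⟨T, ν⟩` -/
theorem RadFun.bdry (h : RadFun n R a k φ w w1) (hn : 1 ≤ n) (hR : 0 < R) (ha : 0 < a) {s τ : ℝ}
    (h0 : 0 ≤ s) (h1 : s ≤ R) (hτ : |τ| ≤ s) :
    (a / R - a ^ 3 * R * φ (R ^ 2) ^ 2) * (R - τ) ≤ a * φ (s ^ 2) ^ 2 - PP R a φ w (s ^ 2) * τ := by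
  have hs2 : s ^ 2 ≤ R ^ 2 := by nlinarith
  have e1 := h.hh_le hn hR ha (sq_nonneg s) hs2
  have e2 := h.one_le (s ^ 2) (sq_nonneg s)
  set H := a / R * φ (s ^ 2) ^ 2 - PP R a φ w (s ^ 2) with hH
  have hPP : PP R a φ w (s ^ 2) = a / R * φ (s ^ 2) ^ 2 - H := by rw [hH]; ring
  have hτ1 : τ ≤ s := (abs_le.1 hτ).2
  have e3 : |H| ≤ a ^ 3 * φ (R ^ 2) ^ 2 * (R - τ) := by
    refine e1.trans ?_
    have e5 : (0 : ℝ) ≤ a ^ 3 * φ (R ^ 2) ^ 2 := by positivity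
    have e6 : a ^ 3 * φ (R ^ 2) ^ 2 / (2 * R) * (R ^ 2 - s ^ 2)
        = a ^ 3 * φ (R ^ 2) ^ 2 * ((R ^ 2 - s ^ 2) / (2 * R)) := by ring
    rw [e6]
    apply mul_le_mul_of_nonneg_left _ e5
    rw [div_le_iff₀ (by positivity)]
    nlinarith
  have e4 : |H * τ| ≤ a ^ 3 * φ (R ^ 2) ^ 2 * (R - τ) * R := by
    rw [abs_mul]
    exact mul_le_mul e3 (hτ.trans h1) (abs_nonneg _) (le_trans (abs_nonneg _) e3)
  have e5 := (abs_le.1 e4).1
  rw [hPP]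
  have e6 : a * φ (s ^ 2) ^ 2 - (a / R * φ (s ^ 2) ^ 2 - H) * τ
      = a / R * φ (s ^ 2) ^ 2 * (R - τ) + H * τ := by
    field_simp
    ring
  rw [e6]
  have e7 : a / R * (R - τ) ≤ a / R * φ (s ^ 2) ^ 2 * (R - τ) := by
    have e8 : (0 : ℝ) < a / R := by positivity
    have e9 : (0 : ℝ) ≤ R - τ := by linarith
    have e10 : a / R ≤ a / R * φ (s ^ 2) ^ 2 := by nlinarith [mul_self_nonneg (φ (s ^ 2) - 1)]
    exact mul_le_mul_of_nonneg_right e10 e9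
  nlinarith

theorem RadFun.bb_le (h : RadFun n R a k φ w w1) (hn : 1 ≤ n) (hR : 0 < R) (ha : 0 < a) {t : ℝ}
    (h0 : 0 ≤ t) (h1 : t ≤ R ^ 2) : |bb n R a k φ w t| ≤ bet n R a φ := by
  have hn0 : (0 : ℝ) < n := by exact_mod_cast hn
  have e1 := h.hh_le hn hR ha h0 h1
  set H := a / R * φ t ^ 2 - PP R a φ w t with hH
  have hPP : PP R a φ w t = a / R * φ t ^ 2 - H := by rw [hH]; ring
  have hbb : bb n R a k φ w t = w t ^ 2 * t - n * H - (k ^ 2 - n * (a / R)) * φ t ^ 2 := by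
    unfold bb
    rw [hPP]
    ring
  have f1 := h.one_le t h0
  have f2 := h.φ_le hn hR ha h0 h1
  have f3 := h.one_le (R ^ 2) (by positivity)
  -- first term
  have g1 : w t ^ 2 * t ≤ a ^ 2 * φ (R ^ 2) ^ 2 := by
    have e := h.w_le' hn hR ha h0 h1
    calc w t ^ 2 * t ≤ w t ^ 2 * R ^ 2 := mul_le_mul_of_nonneg_left h1 (sq_nonneg _)
      _ = (w t * R) ^ 2 := by ring
      _ ≤ (a * φ (R ^ 2)) ^ 2 := pow_le_pow_left₀ (mul_nonneg e.1 hR.le) e.2 2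
      _ = a ^ 2 * φ (R ^ 2) ^ 2 := by ring
  have g1' : 0 ≤ w t ^ 2 * t := mul_nonneg (sq_nonneg _) h0
  -- second term
  have g2 : |H| ≤ a ^ 3 * R * φ (R ^ 2) ^ 2 := by
    refine e1.trans ?_
    have e5 : (0 : ℝ) ≤ a ^ 3 * φ (R ^ 2) ^ 2 / (2 * R) := by positivity
    calc a ^ 3 * φ (R ^ 2) ^ 2 / (2 * R) * (R ^ 2 - t)
        ≤ a ^ 3 * φ (R ^ 2) ^ 2 / (2 * R) * (2 * R ^ 2) := by
          apply mul_le_mul_of_nonneg_left _ e5
          nlinarith [sq_nonneg R]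
      _ = a ^ 3 * R * φ (R ^ 2) ^ 2 := by field_simp
  have g2' : |(n : ℝ) * H| ≤ n * (a ^ 3 * R * φ (R ^ 2) ^ 2) := by
    rw [abs_mul, abs_of_pos hn0]
    exact mul_le_mul_of_nonneg_left g2 hn0.le
  -- third term
  have g3 : 0 ≤ k ^ 2 - n * (a / R) := by
    have e := h.k_ge hn hR ha
    rw [le_div_iff₀ hn0] at e
    linarith
  have g4 : k ^ 2 - n * (a / R) ≤ n * (a ^ 2 * φ (R ^ 2) / 2) := by
    have e := h.le_w (R ^ 2) (by positivity)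
    rw [h.wR_eq hR, div_le_iff₀ hn0] at e
    have e2 := h.φR_sub hn hR ha
    nlinarith
  have g5 : (k ^ 2 - n * (a / R)) * φ t ^ 2 ≤ n * (a ^ 2 * φ (R ^ 2) / 2) * φ (R ^ 2) ^ 2 :=
    mul_le_mul g4 (pow_le_pow_left₀ (by linarith) f2 2) (sq_nonneg _) (by positivity)
  have g5' : 0 ≤ (k ^ 2 - n * (a / R)) * φ t ^ 2 := mul_nonneg g3 (sq_nonneg _)
  have g6 := abs_le.1 g2'
  have hbet : bet n R a φ = n * (a ^ 2 * φ (R ^ 2) / 2) * φ (R ^ 2) ^ 2 + a ^ 2 * φ (R ^ 2) ^ 2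
      + n * (a ^ 3 * R * φ (R ^ 2) ^ 2) := by
    unfold bet
    ring
  have p1 : (0 : ℝ) ≤ a ^ 2 * φ (R ^ 2) ^ 2 := by positivity
  have p2 : (0 : ℝ) ≤ n * (a ^ 2 * φ (R ^ 2) / 2) * φ (R ^ 2) ^ 2 := by positivity
  rw [hbb, hbet, abs_le]
  constructor
  · linarith [g6.2]
  · linarith [g6.1]

/-- the numerical inequality at the end of the proof -/
theorem RadFun.numeric (h : RadFun n R a k φ w w1) (hn : 2 ≤ n) (hR : 0 < R) (ha : 0 < a)
    (haR : 12 * n * (a * R) ≤ 1) :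
    a / R * φ (R ^ 2) ^ 2 / 2 ≤ a / R - a ^ 3 * R * φ (R ^ 2) ^ 2 - 4 * n * (a ^ 2 * φ (R ^ 2) ^ 2)
      - 2 * bet n R a φ / n := by
  have hn1 : (2 : ℝ) ≤ n := by exact_mod_cast hn
  have hn0 : (0 : ℝ) < n := by linarith
  have e1 := h.φR_le (by omega) hR ha
  have e2 := h.one_le (R ^ 2) (by positivity)
  set y := φ (R ^ 2) with hy
  set x := a * R with hx
  have hx0 : 0 < x := by positivity
  have hnx : (n : ℝ) * x ≤ 1 / 12 := by linarith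
  have hx1 : x ≤ 1 / 24 := by nlinarith
  have hy1 : y ≤ 48 / 47 := by nlinarith
  have hy2 : y ^ 2 ≤ (48 / 47) ^ 2 := pow_le_pow_left₀ (by linarith) hy1 2
  have hkey : y ^ 2 * (1 / 2 + x ^ 2 + 4 * (n * x) + x * (y + 2 / n + 2 * x)) ≤ 1 := by
    have b1 : x ^ 2 ≤ 1 / 576 := by nlinarith
    have b2 : (2 : ℝ) / n ≤ 1 := by rw [div_le_one hn0]; exact hn1
    have b3 : x * (y + 2 / n + 2 * x) ≤ 1 / 24 * (48 / 47 + 1 + 2 * (1 / 24)) := by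
      apply mul_le_mul hx1 (by linarith) (by positivity) (by norm_num)
    have b4 : 1 / 2 + x ^ 2 + 4 * (n * x) + x * (y + 2 / n + 2 * x) ≤
        1 / 2 + 1 / 576 + 4 * (1 / 12) + 1 / 24 * (48 / 47 + 1 + 2 * (1 / 24)) := by
      linarith
    calc y ^ 2 * (1 / 2 + x ^ 2 + 4 * (n * x) + x * (y + 2 / n + 2 * x))
        ≤ (48 / 47) ^ 2 * (1 / 2 + 1 / 576 + 4 * (1 / 12)
            + 1 / 24 * (48 / 47 + 1 + 2 * (1 / 24))) := by
          apply mul_le_mul hy2 b4 (by positivity) (by norm_num)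
      _ ≤ 1 := by norm_num
  have hdiff : a / R - a ^ 3 * R * y ^ 2 - 4 * n * (a ^ 2 * y ^ 2) - 2 * bet n R a φ / n
      - a / R * y ^ 2 / 2 =
      a / R * (1 - y ^ 2 * (1 / 2 + x ^ 2 + 4 * (n * x) + x * (y + 2 / n + 2 * x))) := by
    unfold bet
    rw [← hy, hx]
    field_simp
    ring
  have hpos : 0 ≤ a / R * (1 - y ^ 2 * (1 / 2 + x ^ 2 + 4 * (n * x) + x * (y + 2 / n + 2 * x))) :=
    mul_nonneg (by positivity) (by linarith)
  linarith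

end Pool.Agent.RG
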