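import Pool.Agent.H.MP_1b807b_an.G.GaussBall
import Pool.Agent.H.MP_1b807b_an.G.RadEst

/-! MP_1b807b_an, module BallInt: the lower bound for the ball and the integral of `b` -/

set_option autoImplicit false

namespace Pool.Agent.RG

open MeasureTheory Metric Set
open scoped RealInnerProductSpace

variable {n : ℕ} {R a k : ℝ} {φ w w1 : ℝ → ℝ}

/-- the divergence of a product -/
private theorem divg_smul {g : E n → ℝ} {Z : E n → E n} {x : E n}
    (hg : DifferentiableAt ℝ g x) (hZ : DifferentiableAt ℝ Z x) :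
    divg (fun y => g y • Z y) x = fderiv ℝ g x (Z x) + g x * divg Z x := by
  unfold divg tr
  rw [fderiv_fun_smul hg hZ]
  have h1 : fderiv ℝ g x (Z x) = ∑ i : Fin n, fderiv ℝ g x (EuclideanSpace.single i 1) * (Z x) i := by
    conv_lhs => rw [← (EuclideanSpace.basisFun (Fin n) ℝ).sum_repr (Z x)]
    rw [map_sum]
    refine Finset.sum_congr rfl fun i _ => ?_
    rw [map_smul]
    simp [mul_comm]
  rw [h1, Finset.mul_sum, ← Finset.sum_add_distrib]
  refine Finset.sum_congr rfl fun i _ => ?_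
  simp
  ring

private theorem divg_id (x : E n) : divg (fun y : E n => y) x = n := by
  unfold divg tr
  simp

/-- derivative of a function of `‖x‖²` -/
private theorem fderiv_radial {f : ℝ → ℝ} {f' : ℝ} {x : E n} (hf : HasDerivAt f f' (‖x‖ ^ 2)) :
    HasFDerivAt (fun y : E n => f (‖y‖ ^ 2)) (f' • (2 • innerSL ℝ x)) x := by
  have h2 : HasFDerivAt (fun y : E n => ‖y‖ ^ 2) (2 • innerSL ℝ x) x :=
    (hasStrictFDerivAt_norm_sq x).hasFDerivAt
  exact hf.comp_hasFDerivAt x h2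

private theorem divg_radial {f : ℝ → ℝ} {f' : ℝ} {x : E n} (hf : HasDerivAt f f' (‖x‖ ^ 2)) :
    divg (fun y : E n => f (‖y‖ ^ 2) • y) x = n * f (‖x‖ ^ 2) + 2 * ‖x‖ ^ 2 * f' := by
  have h := fderiv_radial hf
  rw [divg_smul (Z := fun y => y) h.differentiableAt differentiableAt_id, h.fderiv, divg_id]
  simp
  ring

private theorem contDiff_of {f f' : ℝ → ℝ} (h : ∀ t, HasDerivAt f (f' t) t) (hc : Continuous f') :
    ContDiff ℝ 1 f := by
  rw [contDiff_one_iff_deriv]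
  refine ⟨fun t => (h t).differentiableAt, ?_⟩
  have : deriv f = f' := funext fun t => (h t).deriv
  rw [this]; exact hc

private theorem cD_w (h : RadFun n R a k φ w w1) : ContDiff ℝ 1 w := contDiff_of h.dw h.cw1

private theorem cD_φ (h : RadFun n R a k φ w w1) : ContDiff ℝ 1 φ :=
  contDiff_of h.dφ ((cD_w h).continuous.div_const 2)

private theorem cD_PP (h : RadFun n R a k φ w w1) : ContDiff ℝ 1 (PP R a φ w) :=
  contDiff_of h.dPP ((cD_w h).continuous.pow 2)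

private theorem cD_nsq : ContDiff ℝ 1 (fun x : E n => ‖x‖ ^ 2) := contDiff_norm_sq ℝ

private theorem iOn {F : E n → ℝ} (hF : Continuous F) : IntegrableOn F (ball (0 : E n) R) :=
  (hF.continuousOn.integrableOn_compact (isCompact_closedBall 0 R)).mono_set ball_subset_closedBall

private theorem ae_sphere (hR : 0 < R) : ∀ᵐ x ∂(sphereMeasure n R), ‖x‖ = R := by
  rw [ae_iff]
  refine measure_mono_null ?_ (sphereMeasure_support n hR)
  intro x hx hx'
  apply hx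
  rwa [mem_sphere_zero_iff_norm] at hx'

/-- the first eigenvalue of the ball is at least `-k²` -/
theorem RadFun.J_ball_le (h : RadFun n R a k φ w w1) (hn : 1 ≤ n) (hR : 0 < R) (ha : 0 < a)
    {u : E n → ℝ} (hu : ContDiff ℝ 1 u) : (ballDomain n hn R hR).J a k u ≤ 0 := by
  have hφ0 : ∀ x : E n, φ (‖x‖ ^ 2) ≠ 0 := fun x =>
    (lt_of_lt_of_le one_pos (h.one_le _ (sq_nonneg _))).ne'
  -- the field `Z`
  set g : E n → ℝ := fun x => w (‖x‖ ^ 2) / φ (‖x‖ ^ 2) with hg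
  have hgc : ContDiff ℝ 1 g :=
    ((cD_w h).comp cD_nsq).div ((cD_φ h).comp cD_nsq) hφ0
  set Z : E n → E n := fun x => g x • x with hZ
  have hZc : ContDiff ℝ 1 Z := hgc.smul contDiff_id
  have hdZ : ∀ x, divg Z x = k ^ 2 - ‖Z x‖ ^ 2 := by
    intro x
    have hd : HasDerivAt (fun t => w t / φ t)
        ((w1 (‖x‖ ^ 2) * φ (‖x‖ ^ 2) - w (‖x‖ ^ 2) * (w (‖x‖ ^ 2) / 2)) / φ (‖x‖ ^ 2) ^ 2)
        (‖x‖ ^ 2) := (h.dw _).div (h.dφ _) (hφ0 x)
    have h1 := divg_radial hd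
    have h2 : divg Z x = divg (fun y : E n => (fun t => w t / φ t) (‖y‖ ^ 2) • y) x := rfl
    rw [h2, h1, hZ]
    simp only [hg]
    rw [norm_smul, mul_pow, Real.norm_eq_abs, sq_abs]
    have hode := h.ode (‖x‖ ^ 2)
    have hne := hφ0 x
    field_simp
    linear_combination (φ (‖x‖ ^ 2)) * hode
  -- the field `u² Z`
  have hX : ContDiff ℝ 1 (fun x => u x ^ 2 • Z x) := (hu.pow 2).smul hZc
  have hdX : ∀ x, divg (fun x => u x ^ 2 • Z x) x
      = 2 * u x * fderiv ℝ u x (Z x) + u x ^ 2 * (k ^ 2 - ‖Z x‖ ^ 2) := by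
    intro x
    have hux : DifferentiableAt ℝ u x := hu.differentiable one_ne_zero x
    have hsq : HasFDerivAt (fun y => u y ^ 2) ((2 * u x) • fderiv ℝ u x) x := by
      have := hux.hasFDerivAt.pow 2
      simpa using this
    rw [divg_smul (g := fun y => u y ^ 2) hsq.differentiableAt
      (hZc.differentiable one_ne_zero x), hdZ, hsq.fderiv]
    simp
  have hgauss := gauss_ball hn hR hX
  have hbd : ∫ x, ⟪u x ^ 2 • Z x, R⁻¹ • x⟫ ∂(sphereMeasure n R)
      = a * ∫ x, u x ^ 2 ∂(sphereMeasure n R) := by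
    rw [← integral_const_mul]
    refine integral_congr_ae ?_
    filter_upwards [ae_sphere (n := n) hR] with x hx
    simp only [hZ, hg]
    rw [inner_smul_left, inner_smul_left, inner_smul_right, real_inner_self_eq_norm_sq, hx]
    have hbc := h.bc
    have hne : φ (R ^ 2) ≠ 0 := by have := hφ0 x; rwa [hx] at this
    simp only [conj_trivial]
    field_simp
    linear_combination (u x ^ 2) * hbc
  rw [hbd] at hgauss
  have hJ : (ballDomain n hn R hR).J a k u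
      = a * (∫ x, u x ^ 2 ∂(sphereMeasure n R)) - (∫ x in ball (0 : E n) R, ‖fderiv ℝ u x‖ ^ 2)
        - k ^ 2 * ∫ x in ball (0 : E n) R, u x ^ 2 := rfl
  rw [hJ, ← hgauss]
  have hcu : Continuous u := hu.continuous
  have hcdu : Continuous (fderiv ℝ u) := hu.continuous_fderiv one_ne_zero
  have hcZ : Continuous Z := hZc.continuous
  have e1 : (∫ x in ball (0 : E n) R, divg (fun x => u x ^ 2 • Z x) x)
      = ∫ x in ball (0 : E n) R,
        (2 * u x * fderiv ℝ u x (Z x) + u x ^ 2 * (k ^ 2 - ‖Z x‖ ^ 2)) := by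
    simp_rw [hdX]
  have i1 : IntegrableOn (fun x =>
      2 * u x * fderiv ℝ u x (Z x) + u x ^ 2 * (k ^ 2 - ‖Z x‖ ^ 2)) (ball (0 : E n) R) := by
    refine iOn ?_
    exact ((continuous_const.mul hcu).mul (hcdu.clm_apply hcZ)).add
      ((hcu.pow 2).mul (continuous_const.sub (hcZ.norm.pow 2)))
  have i2 : IntegrableOn (fun x => ‖fderiv ℝ u x‖ ^ 2) (ball (0 : E n) R) :=
    iOn (hcdu.norm.pow 2)
  have i3 : IntegrableOn (fun x => k ^ 2 * u x ^ 2) (ball (0 : E n) R) :=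
    iOn (continuous_const.mul (hcu.pow 2))
  have e2 : (∫ x in ball (0 : E n) R,
        (2 * u x * fderiv ℝ u x (Z x) + u x ^ 2 * (k ^ 2 - ‖Z x‖ ^ 2)))
      - (∫ x in ball (0 : E n) R, ‖fderiv ℝ u x‖ ^ 2) - ∫ x in ball (0 : E n) R, k ^ 2 * u x ^ 2
      = ∫ x in ball (0 : E n) R,
        ((2 * u x * fderiv ℝ u x (Z x) + u x ^ 2 * (k ^ 2 - ‖Z x‖ ^ 2)) - ‖fderiv ℝ u x‖ ^ 2
          - k ^ 2 * u x ^ 2) := by
    rw [← integral_sub i1 i2]
    exact (integral_sub (i1.sub i2) i3).symm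
  rw [e1, ← integral_const_mul, e2]
  refine integral_nonpos fun x => ?_
  have b1 : |fderiv ℝ u x (Z x)| ≤ ‖fderiv ℝ u x‖ * ‖Z x‖ := (fderiv ℝ u x).le_opNorm (Z x)
  have b2 : 2 * u x * fderiv ℝ u x (Z x) ≤ 2 * |u x| * (‖fderiv ℝ u x‖ * ‖Z x‖) := by
    calc 2 * u x * fderiv ℝ u x (Z x) ≤ |2 * u x * fderiv ℝ u x (Z x)| := le_abs_self _
      _ = 2 * |u x| * |fderiv ℝ u x (Z x)| := by rw [abs_mul, abs_mul]; simp
      _ ≤ _ := by gcongr
  have b3 : 2 * |u x| * (‖fderiv ℝ u x‖ * ‖Z x‖) ≤ ‖fderiv ℝ u x‖ ^ 2 + u x ^ 2 * ‖Z x‖ ^ 2 := by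
    have := sq_nonneg (‖fderiv ℝ u x‖ - |u x| * ‖Z x‖)
    nlinarith [sq_abs (u x)]
  simp only [Pi.zero_apply]
  nlinarith

theorem RadFun.integral_bb (h : RadFun n R a k φ w w1) (hn : 1 ≤ n) (hR : 0 < R) (ha : 0 < a) :
    ∫ x in ball (0 : E n) R, bb n R a k φ w (‖x‖ ^ 2) = 0 := by
  set f : ℝ → ℝ := fun t => PP R a φ w t - φ t * w t with hf
  have hfc : ContDiff ℝ 1 f := (cD_PP h).sub ((cD_φ h).mul (cD_w h))
  have hX : ContDiff ℝ 1 (fun x : E n => f (‖x‖ ^ 2) • x) := (hfc.comp cD_nsq).smul contDiff_id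
  have hdX : ∀ x : E n, divg (fun x : E n => f (‖x‖ ^ 2) • x) x = bb n R a k φ w (‖x‖ ^ 2) := by
    intro x
    have hd : HasDerivAt f (w (‖x‖ ^ 2) ^ 2 - (w (‖x‖ ^ 2) / 2 * w (‖x‖ ^ 2)
        + φ (‖x‖ ^ 2) * w1 (‖x‖ ^ 2))) (‖x‖ ^ 2) := (h.dPP _).sub ((h.dφ _).mul (h.dw _))
    rw [divg_radial hd]
    simp only [hf, bb]
    have hode := h.ode (‖x‖ ^ 2)
    linear_combination (-φ (‖x‖ ^ 2)) * hode
  have hgauss := gauss_ball hn hR hX
  have hfR : f (R ^ 2) = 0 := by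
    simp only [hf, PP, intervalIntegral.integral_same]
    have hbc := h.bc
    field_simp
    linear_combination (-φ (R ^ 2)) * hbc
  have hbd : ∫ x : E n, ⟪f (‖x‖ ^ 2) • x, R⁻¹ • x⟫ ∂(sphereMeasure n R) = 0 := by
    rw [← integral_zero (E n) ℝ (μ := sphereMeasure n R)]
    refine integral_congr_ae ?_
    filter_upwards [ae_sphere (n := n) hR] with x hx
    rw [hx, hfR]
    simp
  rw [hbd] at hgauss
  simp_rw [hdX] at hgauss
  exact hgauss

end Pool.Agent.RG
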