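import Pool.Agent.H.MP_1b807b_an.G.Defs

/-! MP_1b807b_an, module Moll: smooth approximation of Lipschitz maps -/

set_option autoImplicit false

namespace Pool.Agent.RG

open MeasureTheory Metric Set Filter Topology
open scoped RealInnerProductSpace NNReal

variable {n : ℕ}

/-- the sequence of bump functions -/
private noncomputable def Moll_bump (n : ℕ) (j : ℕ) : ContDiffBump (0 : E n) where
  rIn := 1 / ((j : ℝ) + 1) / 2
  rOut := 1 / ((j : ℝ) + 1)
  rIn_pos := by positivity
  rIn_lt_rOut := half_lt_self (by positivity)

private theorem Moll_rOut (n : ℕ) : Tendsto (fun j => (Moll_bump n j).rOut) atTop (𝓝 0) :=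
  tendsto_one_div_add_atTop_nhds_zero_nat

/-- the mollification of `T` -/
private noncomputable def Moll_S (T : E n → E n) (j : ℕ) : E n → E n :=
  convolution ((Moll_bump n j).normed volume) T (ContinuousLinearMap.lsmul ℝ ℝ) volume

private theorem Moll_S_apply (T : E n → E n) (j : ℕ) (x : E n) :
    Moll_S T j x = ∫ y, (Moll_bump n j).normed volume y • T (x - y) := rfl

private theorem Moll_norm_le {F : Type*} [NormedAddCommGroup F] [NormedSpace ℝ F] {C : ℝ}
    {g : E n → F} (hg : ∀ x, ‖g x‖ ≤ C) (j : ℕ) (x : E n) :
    ‖∫ y, (Moll_bump n j).normed volume y • g (x - y)‖ ≤ C := by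
  have h1 : ‖∫ y, (Moll_bump n j).normed volume y • g (x - y)‖ ≤
      ∫ y, (Moll_bump n j).normed volume y * C := by
    refine norm_integral_le_of_norm_le ((Moll_bump n j).integrable_normed.mul_const C)
      (Eventually.of_forall fun y => ?_)
    rw [norm_smul, Real.norm_of_nonneg ((Moll_bump n j).nonneg_normed y)]
    exact mul_le_mul_of_nonneg_left (hg _) ((Moll_bump n j).nonneg_normed y)
  rwa [integral_mul_const, (Moll_bump n j).integral_normed, one_mul] at h1

private theorem Moll_ae_diff {K : ℝ≥0} {T : E n → E n} (hT : LipschitzWith K T) (x : E n) :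
    ∀ᵐ y : E n, DifferentiableAt ℝ T (x - y) := by
  have h1 : ∀ᵐ y : E n, DifferentiableAt ℝ T y := hT.ae_differentiableAt
  exact (quasiMeasurePreserving_sub_left_of_right_invariant (volume : Measure (E n)) x).ae h1

private theorem Moll_hasFDerivAt {K : ℝ≥0} {T : E n → E n} (hT : LipschitzWith K T) (j : ℕ)
    (x : E n) :
    HasFDerivAt (Moll_S T j)
      (∫ y, (Moll_bump n j).normed volume y • fderiv ℝ T (x - y)) x := by
  have hmeas : ∀ z : E n, AEStronglyMeasurable
      (fun y => (Moll_bump n j).normed volume y • T (z - y)) (volume : Measure (E n)) := by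
    intro z
    refine Continuous.aestronglyMeasurable ?_
    exact (Moll_bump n j).continuous_normed.smul (hT.continuous.comp (continuous_const.sub continuous_id))
  have hint : Integrable (fun y => (Moll_bump n j).normed volume y • T (x - y))
      (volume : Measure (E n)) := by
    refine Continuous.integrable_of_hasCompactSupport ?_ ?_
    · exact (Moll_bump n j).continuous_normed.smul
        (hT.continuous.comp (continuous_const.sub continuous_id))
    · exact (Moll_bump n j).hasCompactSupport_normed.smul_right
  refine (hasFDerivAt_integral_of_dominated_loc_of_lip (μ := (volume : Measure (E n)))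
    (F := fun z y => (Moll_bump n j).normed volume y • T (z - y))
    (F' := fun y => (Moll_bump n j).normed volume y • fderiv ℝ T (x - y))
    (bound := fun y => (Moll_bump n j).normed volume y * K) (s := univ) univ_mem
    (Eventually.of_forall hmeas) hint ?_ (Eventually.of_forall fun y => ?_)
    ((Moll_bump n j).integrable_normed.mul_const _) ?_).2
  · exact (Moll_bump n j).continuous_normed.aestronglyMeasurable.smul
      ((measurable_fderiv ℝ T).comp (measurable_const.sub measurable_id)).aestronglyMeasurable
  · rw [lipschitzOnWith_univ]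
    refine LipschitzWith.of_dist_le_mul fun z z' => ?_
    rw [dist_eq_norm, ← smul_sub, norm_smul, Real.norm_of_nonneg ((Moll_bump n j).nonneg_normed y)]
    have h1 : ‖T (z - y) - T (z' - y)‖ ≤ K * dist z z' := by
      rw [← dist_eq_norm]
      have := hT.dist_le_mul (z - y) (z' - y)
      simpa using this
    have h2 : ((Real.nnabs ((Moll_bump n j).normed volume y * K) : ℝ≥0) : ℝ) =
        (Moll_bump n j).normed volume y * K := by
      rw [Real.coe_nnabs, abs_of_nonneg]
      exact mul_nonneg ((Moll_bump n j).nonneg_normed y) K.2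
    rw [h2, mul_assoc]
    exact mul_le_mul_of_nonneg_left h1 ((Moll_bump n j).nonneg_normed y)
  · filter_upwards [Moll_ae_diff hT x] with y hy
    have h1 : HasFDerivAt (fun z => T (z - y)) (fderiv ℝ T (x - y)) x :=
      hy.hasFDerivAt.comp x ((hasFDerivAt_id x).sub_const y)
    exact HasFDerivAt.fun_const_smul h1 ((Moll_bump n j).normed volume y)

private theorem Moll_contDiff {K : ℝ≥0} {T : E n → E n} (hT : LipschitzWith K T) (j : ℕ) :
    ContDiff ℝ 1 (Moll_S T j) :=
  ((Moll_bump n j).hasCompactSupport_normed).contDiff_convolution_left (n := 1)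
    (ContinuousLinearMap.lsmul ℝ ℝ)
    ((Moll_bump n j).contDiff_normed) hT.continuous.locallyIntegrable

private theorem Moll_tendsto {K : ℝ≥0} {T : E n → E n} (hT : LipschitzWith K T) (x : E n) :
    Tendsto (fun j => Moll_S T j x) atTop (𝓝 (T x)) :=
  ContDiffBump.convolution_tendsto_right_of_continuous (Moll_rOut n) hT.continuous x

theorem exists_smooth {R : ℝ} {K : ℝ≥0} {T : E n → E n} (hT : LipschitzWith K T)
    (hTR : ∀ x, ‖T x‖ ≤ R) :
    ∃ S : ℕ → E n → E n, (∀ j, ContDiff ℝ 1 (S j)) ∧ (∀ j x, ‖S j x‖ ≤ R) ∧
      (∀ j x, ‖fderiv ℝ (S j) x‖ ≤ K) ∧ (∀ x, Tendsto (fun j => S j x) atTop (𝓝 (T x))) ∧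
      ∀ᵐ x : E n, Tendsto (fun j => fderiv ℝ (S j) x) atTop (𝓝 (fderiv ℝ T x)) := by
  have hK : ∀ x, ‖fderiv ℝ T x‖ ≤ K := fun x => norm_fderiv_le_of_lipschitz ℝ hT
  refine ⟨Moll_S T, Moll_contDiff hT, fun j x => ?_, fun j x => ?_, Moll_tendsto hT, ?_⟩
  · rw [Moll_S_apply]
    exact Moll_norm_le hTR j x
  · rw [(Moll_hasFDerivAt hT j x).fderiv]
    exact Moll_norm_le hK j x
  · have hloc : LocallyIntegrable (fderiv ℝ T) (volume : Measure (E n)) := by
      refine (locallyIntegrable_const (K : ℝ)).mono
        (measurable_fderiv ℝ T).aestronglyMeasurable (Eventually.of_forall fun x => ?_)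
      rw [Real.norm_of_nonneg (NNReal.coe_nonneg K)]
      exact hK x
    have h1 := ContDiffBump.ae_convolution_tendsto_right_of_locallyIntegrable
      (φ := Moll_bump n) (l := atTop) (K := 2) (μ := (volume : Measure (E n)))
      (Moll_rOut n) (Eventually.of_forall fun j => ?_) hloc
    · filter_upwards [h1] with x hx
      refine hx.congr fun j => ?_
      rw [(Moll_hasFDerivAt hT j x).fderiv]
      rfl
    · show 1 / ((j : ℝ) + 1) ≤ 2 * (1 / ((j : ℝ) + 1) / 2)
      linarith

/-- a Lipschitz map whose derivative is the identity almost everywhere on a connected open set is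
a translation there -/
theorem translation_of_fderiv {K : ℝ≥0} {T : E n → E n} (hT : LipschitzWith K T) {Ω : Set (E n)}
    (ho : IsOpen Ω) (hc : IsPreconnected Ω)
    (h : ∀ᵐ x ∂(volume.restrict Ω), fderiv ℝ T x = ContinuousLinearMap.id ℝ (E n)) :
    ∃ x₀ : E n, ∀ x ∈ Ω, T x = x - x₀ := by
  -- the mollifications have derivative the identity
  have h0 : ∀ᵐ x : E n, x ∈ Ω → fderiv ℝ T x = ContinuousLinearMap.id ℝ (E n) := by
    rwa [ae_restrict_iff' ho.measurableSet] at h
  have hloc : ∀ x ∈ Ω, ∀ᶠ z in 𝓝 x, T z - z = T x - x := by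
    intro x hx
    obtain ⟨r, hr, hball⟩ := Metric.isOpen_iff.mp ho x hx
    have hr2 : 0 < r / 2 := by positivity
    filter_upwards [ball_mem_nhds x hr2] with z hz
    have hev : ∀ᶠ j in atTop, Moll_S T j z - z = Moll_S T j x - x := by
      filter_upwards [(Moll_rOut n).eventually (gt_mem_nhds hr2)] with j hj
      have hder : ∀ y ∈ ball x (r / 2), HasFDerivAt (Moll_S T j)
          (ContinuousLinearMap.id ℝ (E n)) y := by
        intro y hy
        have h1 := Moll_hasFDerivAt hT j y
        have h2 : (∫ a, (Moll_bump n j).normed volume a • fderiv ℝ T (y - a)) =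
            ∫ a, (Moll_bump n j).normed volume a • ContinuousLinearMap.id ℝ (E n) := by
          refine integral_congr_ae ?_
          filter_upwards [(quasiMeasurePreserving_sub_left_of_right_invariant (volume : Measure (E n)) y).ae h0] with a ha
          by_cases hb : a ∈ ball (0 : E n) (Moll_bump n j).rOut
          · have : y - a ∈ Ω := by
              apply hball
              rw [mem_ball, dist_eq_norm] at hy ⊢
              rw [mem_ball, dist_zero_right] at hb
              have e : y - a - x = (y - x) - a := by abel
              rw [e]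
              have := norm_sub_le (y - x) a
              linarith
            simp only [ha this]
          · have hz : (Moll_bump n j).normed volume a = 0 := by
              by_contra hne
              apply hb
              rw [← (Moll_bump n j).support_normed_eq (μ := (volume : Measure (E n)))]
              exact hne
            simp only [hz]
            exact (zero_smul ℝ (fderiv ℝ T (y - a))).trans
              (zero_smul ℝ (ContinuousLinearMap.id ℝ (E n))).symm
        rw [h2, integral_smul_const, (Moll_bump n j).integral_normed, one_smul] at h1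
        exact h1
      have hder' : ∀ y ∈ ball x (r / 2),
          HasFDerivAt (fun y => Moll_S T j y - y) (0 : E n →L[ℝ] E n) y := by
        intro y hy
        have h1 : HasFDerivAt (fun y => Moll_S T j y - y)
            (ContinuousLinearMap.id ℝ (E n) - ContinuousLinearMap.id ℝ (E n)) y :=
          (hder y hy).fun_sub (hasFDerivAt_id y)
        rwa [sub_self] at h1
      have hconv : Convex ℝ (ball x (r / 2)) := convex_ball x _
      exact (isOpen_ball.is_const_of_fderiv_eq_zero hconv.isPreconnected
        (fun y hy => (hder' y hy).differentiableAt.differentiableWithinAt)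
        (fun y hy => (hder' y hy).fderiv) hz (mem_ball_self hr2))
    have t1 : Tendsto (fun j => Moll_S T j z - z) atTop (𝓝 (T z - z)) :=
      (Moll_tendsto hT z).sub_const z
    have t2 : Tendsto (fun j => Moll_S T j x - x) atTop (𝓝 (T x - x)) :=
      (Moll_tendsto hT x).sub_const x
    exact tendsto_nhds_unique (t1.congr' hev) t2
  rcases Ω.eq_empty_or_nonempty with he | ⟨y, hy⟩
  · exact ⟨0, fun x hx => by simp [he] at hx⟩
  · have hd : ∀ x ∈ Ω, HasFDerivAt (fun z => T z - z) (0 : E n →L[ℝ] E n) x := by
      intro x hx
      have h1 : (fun z => T z - z) =ᶠ[𝓝 x] fun _ => T x - x := hloc x hx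
      exact (hasFDerivAt_const (T x - x) x).congr_of_eventuallyEq h1
    refine ⟨y - T y, fun x hx => ?_⟩
    have h1 := ho.is_const_of_fderiv_eq_zero hc
      (fun z hz => (hd z hz).differentiableAt.differentiableWithinAt)
      (fun z hz => (hd z hz).fderiv) hx hy
    have h2 : T x - x = T y - y := h1
    have h3 : T x = x + (T y - y) := by rw [← h2]; abel
    rw [h3]; abel

end Pool.Agent.RG
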