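import Pool.Agent.H.MP_1b807b_an.G.Ident
import Pool.Agent.H.MP_1b807b_an.G.Moll

/-! MP_1b807b_an, module Limit: passage to Lipschitz maps `T` -/

set_option autoImplicit false

namespace Pool.Agent.RG

open MeasureTheory Metric Set
open scoped RealInnerProductSpace NNReal

variable {n : ℕ} {R a k : ℝ} {φ w w1 : ℝ → ℝ}

/-- the right hand side of the identity -/
noncomputable def JT (n : ℕ) (R a k : ℝ) (φ w : ℝ → ℝ) (D : Domain n) (T : E n → E n) : ℝ :=
  (∫ x, (a * φ (‖T x‖ ^ 2) ^ 2 - PP R a φ w (‖T x‖ ^ 2) * ⟪T x, D.normal x⟫) ∂D.surface) +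
      ∫ x in D.carrier, (PP R a φ w (‖T x‖ ^ 2) * (tr (fderiv ℝ T x) - n) +
        bb n R a k φ w (‖T x‖ ^ 2) -
        w (‖T x‖ ^ 2) ^ 2 * ‖(ContinuousLinearMap.adjoint (fderiv ℝ T x)) (T x) - T x‖ ^ 2)

open Filter Topology in
private theorem Limit_vol (D : Domain n) {K : ℝ≥0} {T : E n → E n} {S : ℕ → E n → E n}
    (hS1 : ∀ j, ContDiff ℝ 1 (S j)) (hS2 : ∀ j x, ‖S j x‖ ≤ R)
    (hS3 : ∀ j x, ‖fderiv ℝ (S j) x‖ ≤ K)
    (hS4 : ∀ x, Tendsto (fun j => S j x) atTop (𝓝 (T x)))
    (hS5 : ∀ᵐ x : E n, Tendsto (fun j => fderiv ℝ (S j) x) atTop (𝓝 (fderiv ℝ T x)))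
    {g : E n × (E n →L[ℝ] E n) → ℝ} (hg : Continuous g) :
    Tendsto (fun j => ∫ x in D.carrier, g (S j x, fderiv ℝ (S j) x)) atTop
      (𝓝 (∫ x in D.carrier, g (T x, fderiv ℝ T x))) := by
  have : IsFiniteMeasure (volume.restrict D.carrier) :=
    ⟨by rw [Measure.restrict_apply_univ]; exact D.isBounded.measure_lt_top⟩
  have hcomp : IsCompact ((closedBall (0 : E n) R) ×ˢ (closedBall (0 : E n →L[ℝ] E n) K)) :=
    (isCompact_closedBall _ _).prod (isCompact_closedBall _ _)
  obtain ⟨C, hC⟩ := hcomp.exists_bound_of_continuousOn hg.continuousOn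
  refine tendsto_integral_of_dominated_convergence (fun _ => C) (fun j => ?_)
    (integrable_const C) (fun j => Eventually.of_forall fun x => ?_) ?_
  · refine Continuous.aestronglyMeasurable (hg.comp ?_)
    exact (hS1 j).continuous.prodMk ((hS1 j).continuous_fderiv one_ne_zero)
  · apply hC
    refine ⟨?_, ?_⟩
    · rw [mem_closedBall, dist_zero_right]; exact hS2 j x
    · rw [mem_closedBall, dist_zero_right]; exact hS3 j x
  · refine ae_restrict_of_ae ?_
    filter_upwards [hS5] with x hx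
    exact (hg.tendsto _).comp ((hS4 x).prodMk_nhds hx)

open Filter Topology in
private theorem Limit_surf (D : Domain n) {T : E n → E n} {S : ℕ → E n → E n}
    (hS1 : ∀ j, ContDiff ℝ 1 (S j)) (hS2 : ∀ j x, ‖S j x‖ ≤ R)
    (hS4 : ∀ x, Tendsto (fun j => S j x) atTop (𝓝 (T x)))
    {g : E n × E n → ℝ} (hg : Continuous g) :
    Tendsto (fun j => ∫ x, g (S j x, D.normal x) ∂D.surface) atTop
      (𝓝 (∫ x, g (T x, D.normal x) ∂D.surface)) := by
  have := D.isFinite
  have hcomp : IsCompact ((closedBall (0 : E n) R) ×ˢ (closedBall (0 : E n) 1)) :=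
    (isCompact_closedBall _ _).prod (isCompact_closedBall _ _)
  obtain ⟨C, hC⟩ := hcomp.exists_bound_of_continuousOn hg.continuousOn
  refine tendsto_integral_of_dominated_convergence (fun _ => C) (fun j => ?_)
    (integrable_const C) (fun j => ?_) (Eventually.of_forall fun x => ?_)
  · exact (hg.measurable.comp
      ((hS1 j).continuous.measurable.prodMk D.measurable_normal)).aestronglyMeasurable
  · filter_upwards [D.norm_normal] with x hx
    apply hC
    refine ⟨?_, ?_⟩
    · rw [mem_closedBall, dist_zero_right]; exact hS2 j x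
    · rw [mem_closedBall, dist_zero_right]; exact hx.le
  · exact (hg.tendsto _).comp ((hS4 x).prodMk_nhds tendsto_const_nhds)

private theorem Limit_tr : Continuous (tr : (E n →L[ℝ] E n) → ℝ) := by
  unfold tr
  refine continuous_finsetSum _ fun i _ => ?_
  have h1 : Continuous fun A : E n →L[ℝ] E n => A (EuclideanSpace.single i 1) :=
    continuous_id.clm_apply continuous_const
  exact (EuclideanSpace.proj (𝕜 := ℝ) i).continuous.comp h1

/-- the divergence theorem for bounded Lipschitz fields -/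
theorem Domain.divergence_lip (D : Domain n) {K : ℝ≥0} {T : E n → E n} (hT : LipschitzWith K T)
    (hTR : ∀ x, ‖T x‖ ≤ R) :
    ∫ x in D.carrier, tr (fderiv ℝ T x) = ∫ x, ⟪T x, D.normal x⟫ ∂D.surface := by
  obtain ⟨S, hS1, hS2, hS3, hS4, hS5⟩ := exists_smooth hT hTR
  have h1 := Limit_vol D hS1 hS2 hS3 hS4 hS5 (g := fun p => tr p.2) (Limit_tr.comp continuous_snd)
  have h2 := Limit_surf D hS1 hS2 hS4 (g := fun p => ⟪p.1, p.2⟫)
    (continuous_fst.inner continuous_snd)
  refine tendsto_nhds_unique h1 (h2.congr fun j => ?_)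
  exact (D.divergence (S j) (hS1 j)).symm

private theorem Limit_cont (h : RadFun n R a k φ w w1) :
    Continuous φ ∧ Continuous w ∧ Continuous (PP R a φ w) ∧ Continuous (bb n R a k φ w) := by
  have h1 : Continuous φ := continuous_iff_continuousAt.2 fun t => (h.dφ t).continuousAt
  have h2 : Continuous w := continuous_iff_continuousAt.2 fun t => (h.dw t).continuousAt
  have h3 : Continuous (PP R a φ w) := continuous_iff_continuousAt.2 fun t => (h.dPP t).continuousAt
  refine ⟨h1, h2, h3, ?_⟩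
  unfold bb
  fun_prop

private theorem Limit_J (D : Domain n) {u : E n → ℝ}
    (hu : 0 < ∫ x in D.carrier, u x ^ 2) :
    D.rayleigh (-a) u = -k ^ 2 - D.J a k u / ∫ x in D.carrier, u x ^ 2 := by
  unfold Domain.rayleigh Domain.J
  field_simp
  ring

theorem RadFun.robin_le (h : RadFun n R a k φ w w1) (D : Domain n) {K : ℝ≥0} {T : E n → E n}
    (hT : LipschitzWith K T) (hTR : ∀ x, ‖T x‖ ≤ R) :
    D.robin (-a) ≤ ((-k ^ 2 - JT n R a k φ w D T / ∫ x in D.carrier, φ (‖T x‖ ^ 2) ^ 2 : ℝ) :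
      EReal) := by
  obtain ⟨S, hS1, hS2, hS3, hS4, hS5⟩ := exists_smooth hT hTR
  obtain ⟨hφ, hw, hPP, hbb⟩ := Limit_cont h
  have : IsFiniteMeasure (volume.restrict D.carrier) :=
    ⟨by rw [Measure.restrict_apply_univ]; exact D.isBounded.measure_lt_top⟩
  have hn1 : Continuous fun p : E n × (E n →L[ℝ] E n) => ‖p.1‖ ^ 2 := by fun_prop
  have hn2 : Continuous fun p : E n × E n => ‖p.1‖ ^ 2 := by fun_prop
  -- convergence of the three integrals
  have h1 := Limit_vol D hS1 hS2 hS3 hS4 hS5 (g := fun p => φ (‖p.1‖ ^ 2) ^ 2)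
    ((hφ.comp hn1).pow 2)
  have h2 := Limit_surf D hS1 hS2 hS4
    (g := fun p => a * φ (‖p.1‖ ^ 2) ^ 2 - PP R a φ w (‖p.1‖ ^ 2) * ⟪p.1, p.2⟫)
    ((continuous_const.mul ((hφ.comp hn2).pow 2)).sub
      ((hPP.comp hn2).mul (continuous_fst.inner continuous_snd)))
  have hadj : Continuous fun p : E n × (E n →L[ℝ] E n) =>
      (ContinuousLinearMap.adjoint p.2) p.1 :=
    ((ContinuousLinearMap.adjoint (𝕜 := ℝ) (E := E n) (F := E n)).continuous.comp
      continuous_snd).clm_apply continuous_fst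
  have h3 := Limit_vol D hS1 hS2 hS3 hS4 hS5
    (g := fun p => PP R a φ w (‖p.1‖ ^ 2) * (tr p.2 - n) + bb n R a k φ w (‖p.1‖ ^ 2) -
        w (‖p.1‖ ^ 2) ^ 2 * ‖(ContinuousLinearMap.adjoint p.2) p.1 - p.1‖ ^ 2)
    ((((hPP.comp hn1).mul ((Limit_tr.comp continuous_snd).sub continuous_const)).add
      (hbb.comp hn1)).sub (((hw.comp hn1).pow 2).mul ((hadj.sub continuous_fst).norm.pow 2)))
  have h4 := h2.add h3
  -- positivity
  have hpos : 0 < volume.real D.carrier := by
    rw [measureReal_def, ENNReal.toReal_pos_iff]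
    exact ⟨D.isOpen.measure_pos volume D.isConnected.nonempty, D.isBounded.measure_lt_top⟩
  have hge : ∀ S' : E n → E n, Continuous S' → (∀ x, ‖S' x‖ ≤ R) →
      volume.real D.carrier ≤ ∫ x in D.carrier, φ (‖S' x‖ ^ 2) ^ 2 := by
    intro S' hS' hS'R
    have hcomp : IsCompact (closedBall (0 : E n) R) := isCompact_closedBall _ _
    obtain ⟨C, hC⟩ := hcomp.exists_bound_of_continuousOn (f := fun y => φ (‖y‖ ^ 2) ^ 2)
      (by fun_prop)
    have hint : Integrable (fun x => φ (‖S' x‖ ^ 2) ^ 2) (volume.restrict D.carrier) := by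
      refine Integrable.of_bound (Continuous.aestronglyMeasurable (by fun_prop)) C
        (Filter.Eventually.of_forall fun x => ?_)
      exact hC (S' x) (by rw [mem_closedBall, dist_zero_right]; exact hS'R x)
    have h5 : ∫ _ in D.carrier, (1 : ℝ) ≤ ∫ x in D.carrier, φ (‖S' x‖ ^ 2) ^ 2 := by
      refine integral_mono (integrable_const _) hint fun x => ?_
      have := h.one_le (‖S' x‖ ^ 2) (by positivity)
      show (1 : ℝ) ≤ φ (‖S' x‖ ^ 2) ^ 2
      nlinarith
    simpa using h5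
  have hTpos := hpos.trans_le (hge T hT.continuous hTR)
  have h5 : Filter.Tendsto (fun j => -k ^ 2 - JT n R a k φ w D (S j) /
      ∫ x in D.carrier, φ (‖S j x‖ ^ 2) ^ 2) Filter.atTop
      (nhds (-k ^ 2 - JT n R a k φ w D T / ∫ x in D.carrier, φ (‖T x‖ ^ 2) ^ 2)) :=
    (h4.div h1 hTpos.ne').const_sub _
  have h6 := (continuous_coe_real_ereal.tendsto _).comp h5
  refine ge_of_tendsto' h6 fun j => ?_
  refine sInf_le ⟨fun x => φ (‖S j x‖ ^ 2), h.contDiff (hS1 j),
    hpos.trans_le (hge (S j) (hS1 j).continuous (hS2 j)), ?_⟩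
  rw [Limit_J D (hpos.trans_le (hge (S j) (hS1 j).continuous (hS2 j))),
    h.identity D (hS1 j)]
  rfl

end Pool.Agent.RG
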