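import Pool.Agent.H.MP_1b807b_an.G.Transport
import Pool.Agent.H.MP_1b807b_an.G.Limit
import Pool.Agent.H.MP_1b807b_an.G.BallInt

/-! MP_1b807b_an, module Main: the small parameter theorem -/

set_option autoImplicit false

namespace Pool.Agent.RG

open MeasureTheory Metric Set
open scoped RealInnerProductSpace NNReal

variable {n : ℕ} {R a k : ℝ} {φ w w1 : ℝ → ℝ}

private theorem main_continuous_tr : Continuous (tr : (E n →L[ℝ] E n) → ℝ) := by
  unfold tr
  fun_prop

private theorem main_tr_bdd {K : ℝ≥0} {T : E n → E n} (hT : LipschitzWith K T) (x : E n) :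
    |tr (fderiv ℝ T x)| ≤ n * K := by
  unfold tr
  calc |∑ i : Fin n, (fderiv ℝ T x (EuclideanSpace.single i 1)) i|
      ≤ ∑ i : Fin n, |(fderiv ℝ T x (EuclideanSpace.single i 1)) i| :=
        Finset.abs_sum_le_sum_abs _ _
    _ ≤ ∑ _i : Fin n, (K : ℝ) := by
        refine Finset.sum_le_sum fun i _ => ?_
        have h1 : |(fderiv ℝ T x (EuclideanSpace.single i 1)) i| ≤
            ‖fderiv ℝ T x (EuclideanSpace.single i 1)‖ := by
          rw [← Real.norm_eq_abs]
          exact PiLp.norm_apply_le _ i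
        have h2 := (fderiv ℝ T x).le_opNorm (EuclideanSpace.single i 1)
        have h3 : ‖(EuclideanSpace.single i 1 : E n)‖ = 1 := by simp
        rw [h3, mul_one] at h2
        exact h1.trans (h2.trans (norm_fderiv_le_of_lipschitz ℝ hT))
    _ = n * K := by simp

private theorem main_tr_meas (T : E n → E n) : Measurable fun x => tr (fderiv ℝ T x) :=
  main_continuous_tr.measurable.comp (measurable_fderiv ℝ T)

private theorem main_tr_int {K : ℝ≥0} {T : E n → E n} (hT : LipschitzWith K T) {Ω : Set (E n)}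
    (hΩ : volume Ω ≠ ⊤) : IntegrableOn (fun x => tr (fderiv ℝ T x)) Ω := by
  refine Measure.integrableOn_of_bounded (M := n * K) hΩ
    (main_tr_meas T).aestronglyMeasurable ?_
  exact Filter.Eventually.of_forall fun x => by
    rw [Real.norm_eq_abs]; exact main_tr_bdd hT x

private theorem main_vol_fin (D : Domain n) : volume D.carrier ≠ ⊤ :=
  D.isBounded.measure_lt_top.ne

private theorem main_inner_int (D : Domain n) {T : E n → E n} (hT : Continuous T)
    (hTR : ∀ x, ‖T x‖ ≤ R) : Integrable (fun x => ⟪T x, D.normal x⟫) D.surface := by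
  have := D.isFinite
  refine Integrable.of_bound (C := R) ?_ ?_
  · exact (hT.measurable.inner D.measurable_normal).aestronglyMeasurable
  · filter_upwards [D.norm_normal] with x hx
    calc ‖⟪T x, D.normal x⟫‖ ≤ ‖T x‖ * ‖D.normal x‖ := norm_inner_le_norm _ _
      _ ≤ R := by rw [hx, mul_one]; exact hTR x

/-- the isoperimetric inequality with the two deficits -/
theorem deficit (hn : 1 ≤ n) (hR : 0 < R) (D : Domain n)
    (hv : volume D.carrier = volume (ball (0 : E n) R)) {A : Set (E n)} {T : E n → E n}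
    (hT : IsTransport n R D.carrier A T) :
    R * (D.perimeter - (ballDomain n hn R hR).perimeter) =
      (∫ x, (R - ⟪T x, D.normal x⟫) ∂D.surface) + ∫ x in D.carrier, (tr (fderiv ℝ T x) - n) := by
  have := D.isFinite
  have h1 : ∫ x, (R - ⟪T x, D.normal x⟫) ∂D.surface =
      R * D.perimeter - ∫ x, ⟪T x, D.normal x⟫ ∂D.surface := by
    rw [integral_sub (integrable_const _) (main_inner_int D hT.lip.continuous hT.norm_le),
      integral_const, smul_eq_mul, Domain.perimeter, mul_comm]
  have h2 : ∫ x in D.carrier, (tr (fderiv ℝ T x) - n) =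
      (∫ x in D.carrier, tr (fderiv ℝ T x)) - n * volume.real D.carrier := by
    have hfin : IsFiniteMeasure (volume.restrict D.carrier) :=
      ⟨by rw [Measure.restrict_apply_univ]; exact D.isBounded.measure_lt_top⟩
    rw [integral_sub (main_tr_int hT.lip (main_vol_fin D)) (integrable_const _),
      integral_const, smul_eq_mul, mul_comm]
    simp [measureReal_def]
  have h3 : volume.real D.carrier = volume.real (ball (0 : E n) R) := by
    simp only [measureReal_def, hv]
  rw [h1, h2, D.divergence_lip hT.lip hT.norm_le, mul_sub, perimeter_ball hn hR, h3]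
  ring

private theorem main_D1 (D : Domain n) {T : E n → E n} (hTR : ∀ x, ‖T x‖ ≤ R) :
    0 ≤ ∫ x, (R - ⟪T x, D.normal x⟫) ∂D.surface := by
  refine integral_nonneg_of_ae ?_
  filter_upwards [D.norm_normal] with x hx
  have h1 := real_inner_le_norm (T x) (D.normal x)
  rw [hx, mul_one] at h1
  have h2 := hTR x
  simp only [Pi.zero_apply]
  linarith

theorem JT_ge (h : RadFun n R a k φ w w1) (hn : 2 ≤ n) (hR : 0 < R) (ha : 0 < a)
    (haR : 12 * n * (a * R) ≤ 1) (D : Domain n)
    (hv : volume D.carrier = volume (ball (0 : E n) R)) {A : Set (E n)} {T : E n → E n}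
    (hT : IsTransport n R D.carrier A T) :
    a / R * φ (R ^ 2) ^ 2 / 2 *
      ((∫ x, (R - ⟪T x, D.normal x⟫) ∂D.surface) + ∫ x in D.carrier, (tr (fderiv ℝ T x) - n)) ≤
      JT n R a k φ w D T := by
  have hn1 : 1 ≤ n := by omega
  have hn0 : (0 : ℝ) < n := by exact_mod_cast (by omega : 0 < n)
  have := D.isFinite
  have hvf := main_vol_fin D
  have hfin : IsFiniteMeasure (volume.restrict D.carrier) :=
    ⟨by rw [Measure.restrict_apply_univ]; exact D.isBounded.measure_lt_top⟩
  have hTc : Continuous T := hT.lip.continuous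
  set c0 : ℝ := a / R - a ^ 3 * R * φ (R ^ 2) ^ 2 with hc0
  set β : ℝ := bet n R a φ with hβ
  have hnum := h.numeric hn hR ha haR
  have hφR1 : 1 ≤ φ (R ^ 2) := h.one_le _ (by positivity)
  have hβ0 : 0 ≤ β := by
    rw [hβ, bet]
    have : 0 ≤ φ (R ^ 2) := by linarith
    positivity
  have hcφ : Continuous φ := continuous_iff_continuousAt.2 fun t => (h.dφ t).continuousAt
  have hcw : Continuous w := continuous_iff_continuousAt.2 fun t => (h.dw t).continuousAt
  have hcP : Continuous (PP R a φ w) :=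
    continuous_iff_continuousAt.2 fun t => (h.dPP t).continuousAt
  have hcb : Continuous (bb n R a k φ w) := by
    unfold bb
    fun_prop
  have ht0 : ∀ x, (0 : ℝ) ≤ ‖T x‖ ^ 2 := fun x => by positivity
  have ht1 : ∀ x, ‖T x‖ ^ 2 ≤ R ^ 2 := fun x =>
    pow_le_pow_left₀ (norm_nonneg _) (hT.norm_le x) 2
  -- bounded functions of `‖T x‖ ^ 2`
  have hbd : ∀ F : ℝ → ℝ, Continuous F → ∃ C, ∀ x, |F (‖T x‖ ^ 2)| ≤ C := by
    intro F hF
    obtain ⟨C, hC⟩ := (isCompact_Icc (a := (0 : ℝ)) (b := R ^ 2)).exists_bound_of_continuousOn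
      hF.continuousOn
    exact ⟨C, fun x => hC _ ⟨ht0 x, ht1 x⟩⟩
  have hcomp : ∀ F : ℝ → ℝ, Continuous F → Continuous fun x => F (‖T x‖ ^ 2) := fun F hF =>
    hF.comp ((continuous_norm.comp hTc).pow 2)
  -- integrability on the carrier
  have hintb : Integrable (fun x => bb n R a k φ w (‖T x‖ ^ 2)) (volume.restrict D.carrier) := by
    obtain ⟨C, hC⟩ := hbd _ hcb
    exact Integrable.of_bound (hcomp _ hcb).aestronglyMeasurable C
      (Filter.Eventually.of_forall fun x => by rw [Real.norm_eq_abs]; exact hC x)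
  have hinttr : Integrable (fun x => tr (fderiv ℝ T x) - (n : ℝ)) (volume.restrict D.carrier) :=
    (main_tr_int hT.lip hvf).sub (integrable_const _)
  have hintP : Integrable (fun x => PP R a φ w (‖T x‖ ^ 2) * (tr (fderiv ℝ T x) - (n : ℝ)))
      (volume.restrict D.carrier) := by
    obtain ⟨C, hC⟩ := hbd _ hcP
    exact hinttr.bdd_mul (c := C) (hcomp _ hcP).aestronglyMeasurable
      (Filter.Eventually.of_forall fun x => by rw [Real.norm_eq_abs]; exact hC x)
  have hadj : Measurable fun x => (ContinuousLinearMap.adjoint (fderiv ℝ T x)) (T x) := by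
    have h1 : Measurable fun x => ContinuousLinearMap.adjoint (fderiv ℝ T x) :=
      (ContinuousLinearMap.adjoint (𝕜 := ℝ) (E := E n) (F := E n)).continuous.measurable.comp
        (measurable_fderiv ℝ T)
    have h2 : Continuous fun p : (E n →L[ℝ] E n) × E n => p.1 p.2 := by fun_prop
    exact h2.measurable.comp (h1.prodMk hTc.measurable)
  have hnn : ∀ x, ‖fderiv ℝ T x‖ ≤ (2 * n : ℝ) := fun x => by
    have := norm_fderiv_le_of_lipschitz ℝ hT.lip (x₀ := x)
    simpa using this
  have hadjle : ∀ x, ‖(ContinuousLinearMap.adjoint (fderiv ℝ T x)) (T x) - T x‖ ≤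
      ‖fderiv ℝ T x - ContinuousLinearMap.id ℝ (E n)‖ * R := by
    intro x
    have e1 : (ContinuousLinearMap.adjoint (fderiv ℝ T x)) (T x) - T x =
        (ContinuousLinearMap.adjoint (fderiv ℝ T x - ContinuousLinearMap.id ℝ (E n))) (T x) := by
      rw [map_sub]
      simp
    rw [e1]
    calc _ ≤ ‖ContinuousLinearMap.adjoint (fderiv ℝ T x - ContinuousLinearMap.id ℝ (E n))‖ *
          ‖T x‖ := ContinuousLinearMap.le_opNorm _ _
      _ = ‖fderiv ℝ T x - ContinuousLinearMap.id ℝ (E n)‖ * ‖T x‖ := by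
          rw [LinearIsometryEquiv.norm_map]
      _ ≤ _ := mul_le_mul_of_nonneg_left (hT.norm_le x) (norm_nonneg _)
  have hintw : Integrable (fun x => w (‖T x‖ ^ 2) ^ 2 *
      ‖(ContinuousLinearMap.adjoint (fderiv ℝ T x)) (T x) - T x‖ ^ 2)
      (volume.restrict D.carrier) := by
    obtain ⟨C, hC⟩ := hbd _ (hcw.pow 2)
    refine Integrable.of_bound (C := C * ((2 * n + 1) * R) ^ 2) ?_ ?_
    · exact ((hcomp _ (hcw.pow 2)).measurable.mul
        (((hadj.sub hTc.measurable).norm).pow_const 2)).aestronglyMeasurable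
    · refine Filter.Eventually.of_forall fun x => ?_
      rw [norm_mul, Real.norm_eq_abs, Real.norm_eq_abs]
      have h1 := hC x
      have hC0 : 0 ≤ C := (abs_nonneg _).trans h1
      have h2 : ‖fderiv ℝ T x - ContinuousLinearMap.id ℝ (E n)‖ ≤ 2 * n + 1 := by
        refine (norm_sub_le _ _).trans (add_le_add (hnn x) ?_)
        exact ContinuousLinearMap.norm_id_le
      have h3 : ‖(ContinuousLinearMap.adjoint (fderiv ℝ T x)) (T x) - T x‖ ≤ (2 * n + 1) * R :=
        (hadjle x).trans (mul_le_mul_of_nonneg_right h2 hR.le)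
      rw [abs_of_nonneg (by positivity : (0 : ℝ) ≤
        ‖(ContinuousLinearMap.adjoint (fderiv ℝ T x)) (T x) - T x‖ ^ 2)]
      exact mul_le_mul h1 (pow_le_pow_left₀ (norm_nonneg _) h3 2) (by positivity) hC0
  -- the boundary term
  have hB : c0 * (∫ x, (R - ⟪T x, D.normal x⟫) ∂D.surface) ≤
      ∫ x, (a * φ (‖T x‖ ^ 2) ^ 2 - PP R a φ w (‖T x‖ ^ 2) * ⟪T x, D.normal x⟫) ∂D.surface := by
    rw [← integral_const_mul]
    refine integral_mono_ae ?_ ?_ ?_
    · exact ((integrable_const _).sub (main_inner_int D hTc hT.norm_le)).const_mul _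
    · obtain ⟨C, hC⟩ := hbd _ (hcφ.pow 2)
      obtain ⟨C', hC'⟩ := hbd _ hcP
      refine Integrable.sub ?_ ?_
      · refine Integrable.const_mul ?_ _
        exact Integrable.of_bound (hcomp _ (hcφ.pow 2)).aestronglyMeasurable C
          (Filter.Eventually.of_forall fun x => by rw [Real.norm_eq_abs]; exact hC x)
      · exact (main_inner_int D hTc hT.norm_le).bdd_mul (c := C')
          (hcomp _ hcP).aestronglyMeasurable
          (Filter.Eventually.of_forall fun x => by rw [Real.norm_eq_abs]; exact hC' x)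
    · filter_upwards [D.norm_normal] with x hx
      have h1 := abs_real_inner_le_norm (T x) (D.normal x)
      rw [hx, mul_one] at h1
      exact h.bdry hn1 hR ha (norm_nonneg _) (hT.norm_le x) h1
  -- the interior terms
  set D2 : ℝ := ∫ x in D.carrier, (tr (fderiv ℝ T x) - n) with hD2
  have hI1 : (c0 - 4 * n * (a ^ 2 * φ (R ^ 2) ^ 2)) * D2 +
      (∫ x in D.carrier, bb n R a k φ w (‖T x‖ ^ 2)) ≤
      ∫ x in D.carrier, (PP R a φ w (‖T x‖ ^ 2) * (tr (fderiv ℝ T x) - n) +
        bb n R a k φ w (‖T x‖ ^ 2) -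
        w (‖T x‖ ^ 2) ^ 2 * ‖(ContinuousLinearMap.adjoint (fderiv ℝ T x)) (T x) - T x‖ ^ 2) := by
    rw [hD2, ← integral_const_mul, ← integral_add (hinttr.const_mul _) hintb]
    refine integral_mono_ae ((hinttr.const_mul _).add hintb) ((hintP.add hintb).sub hintw) ?_
    filter_upwards [hT.tr_ge, hT.dist_le] with x hx1 hx2
    have e1 := h.PP_ge hn1 hR ha (ht0 x) (ht1 x)
    have e2 := h.w_le' hn1 hR ha (ht0 x) (ht1 x)
    have e3 : w (‖T x‖ ^ 2) ^ 2 *
        ‖(ContinuousLinearMap.adjoint (fderiv ℝ T x)) (T x) - T x‖ ^ 2 ≤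
        (a * φ (R ^ 2)) ^ 2 * (4 * n * (tr (fderiv ℝ T x) - n)) := by
      calc _ ≤ w (‖T x‖ ^ 2) ^ 2 *
            (‖fderiv ℝ T x - ContinuousLinearMap.id ℝ (E n)‖ * R) ^ 2 := by
            gcongr
            exact hadjle x
        _ = (w (‖T x‖ ^ 2) * R) ^ 2 *
            ‖fderiv ℝ T x - ContinuousLinearMap.id ℝ (E n)‖ ^ 2 := by ring
        _ ≤ _ := by
            refine mul_le_mul ?_ hx2 (by positivity) (by positivity)
            exact pow_le_pow_left₀ (mul_nonneg e2.1 hR.le) e2.2 2
    have e4 : 0 ≤ tr (fderiv ℝ T x) - n := by linarith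
    have e5 : c0 * (tr (fderiv ℝ T x) - n) ≤
        PP R a φ w (‖T x‖ ^ 2) * (tr (fderiv ℝ T x) - n) :=
      mul_le_mul_of_nonneg_right e1 e4
    have e6 : (a * φ (R ^ 2)) ^ 2 * (4 * n * (tr (fderiv ℝ T x) - n)) =
        4 * n * (a ^ 2 * φ (R ^ 2) ^ 2) * (tr (fderiv ℝ T x) - n) := by ring
    linarith
  -- the bad set
  have hm : MeasurableSet (D.carrier \ A) := D.isOpen.measurableSet.diff hT.meas
  set v : ℝ := volume.real (D.carrier \ A) with hvdef
  have hv0 : 0 ≤ v := measureReal_nonneg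
  have hD2v : n * v ≤ D2 := by
    have h1 : ∫ x in D.carrier \ A, (n : ℝ) ≤ ∫ x in D.carrier \ A, (tr (fderiv ℝ T x) - n) := by
      refine setIntegral_mono_on_ae ?_ (hinttr.mono_measure
        (Measure.restrict_mono sdiff_subset le_rfl)) hm ?_
      · exact integrableOn_const (ne_top_of_le_ne_top hvf (measure_mono sdiff_subset))
      · have hbad := hT.bad
        rw [ae_restrict_iff' D.isOpen.measurableSet] at hbad
        filter_upwards [hbad] with x hx hx'
        have := hx hx'.1 hx'.2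
        linarith
    have h2 : ∫ x in D.carrier \ A, (tr (fderiv ℝ T x) - n) ≤ D2 := by
      rw [hD2]
      refine setIntegral_mono_set hinttr ?_ sdiff_subset.eventuallyLE
      filter_upwards [hT.tr_ge] with x hx
      simp only [Pi.zero_apply]
      linarith
    have h3 : ∫ x in D.carrier \ A, (n : ℝ) = n * v := by
      rw [setIntegral_const, smul_eq_mul, mul_comm]
    linarith
  -- the integral of `b`
  have hbint : -(2 * β * v) ≤ ∫ x in D.carrier, bb n R a k φ w (‖T x‖ ^ 2) := by
    have hAs : volume A ≠ ⊤ := ne_top_of_le_ne_top hvf (measure_mono hT.sub)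
    have hpush := hT.push (fun ξ => β - bb n R a k φ w (‖ξ‖ ^ 2))
      (continuous_const.sub (hcb.comp ((continuous_norm).pow 2))) (fun ξ hξ => by
        have h1 : ‖ξ‖ ≤ R := by simpa using hξ
        have h2 := h.bb_le hn1 hR ha (t := ‖ξ‖ ^ 2) (by positivity)
          (pow_le_pow_left₀ (norm_nonneg _) h1 2)
        have h3 := (abs_le.1 h2).2
        linarith)
    have hbball : IntegrableOn (fun ξ : E n => bb n R a k φ w (‖ξ‖ ^ 2)) (ball 0 R) := by
      refine IntegrableOn.mono_set (t := closedBall 0 R) ?_ ball_subset_closedBall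
      exact (hcb.comp ((continuous_norm).pow 2)).continuousOn.integrableOn_compact
        (isCompact_closedBall _ _)
    have hbA : IntegrableOn (fun x => bb n R a k φ w (‖T x‖ ^ 2)) A :=
      hintb.mono_measure (Measure.restrict_mono hT.sub le_rfl)
    have hcA : Integrable (fun _ : E n => β) (volume.restrict A) := integrableOn_const hAs
    have hcB : Integrable (fun _ : E n => β) (volume.restrict (ball (0 : E n) R)) :=
      integrableOn_const measure_ball_lt_top.ne
    rw [integral_sub hcA hbA, integral_sub hcB hbball,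
      h.integral_bb hn1 hR ha, setIntegral_const, setIntegral_const, sub_zero, smul_eq_mul,
      smul_eq_mul] at hpush
    have hsplit : ∫ x in D.carrier, bb n R a k φ w (‖T x‖ ^ 2) =
        (∫ x in A, bb n R a k φ w (‖T x‖ ^ 2)) +
          ∫ x in D.carrier \ A, bb n R a k φ w (‖T x‖ ^ 2) := by
      rw [← setIntegral_union disjoint_sdiff_right hm hbA
        (hintb.mono_measure (Measure.restrict_mono sdiff_subset le_rfl)),
        union_sdiff_cancel hT.sub]
    have hbad2 : -(β * v) ≤ ∫ x in D.carrier \ A, bb n R a k φ w (‖T x‖ ^ 2) := by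
      have h1 : ∫ x in D.carrier \ A, (-β : ℝ) ≤
          ∫ x in D.carrier \ A, bb n R a k φ w (‖T x‖ ^ 2) := by
        refine setIntegral_mono_on ?_
          (hintb.mono_measure (Measure.restrict_mono sdiff_subset le_rfl)) hm ?_
        · exact integrableOn_const (ne_top_of_le_ne_top hvf (measure_mono sdiff_subset))
        · intro x _
          exact (abs_le.1 (h.bb_le hn1 hR ha (ht0 x) (ht1 x))).1
      rw [setIntegral_const, smul_eq_mul] at h1
      linarith
    have hvol : volume.real D.carrier = volume.real A + v := by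
      have h1 := measureReal_sdiff_add_inter (μ := volume) (s := D.carrier) hT.meas hvf
      rw [inter_eq_self_of_subset_right hT.sub] at h1
      linarith
    have hvol2 : volume.real D.carrier = volume.real (ball (0 : E n) R) := by
      simp only [measureReal_def, hv]
    rw [hsplit]
    rw [← hvol2, hvol] at hpush
    nlinarith
  -- conclusion
  have hD10 := main_D1 D hT.norm_le
  have hD20 : 0 ≤ D2 := by
    have : 0 ≤ n * v := by positivity
    linarith
  set D1 : ℝ := ∫ x, (R - ⟪T x, D.normal x⟫) ∂D.surface with hD1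
  have hv2 : 2 * β * v ≤ 2 * β / n * D2 := by
    have h1 : v ≤ D2 / n := by
      rw [le_div_iff₀ hn0]; linarith
    calc 2 * β * v ≤ 2 * β * (D2 / n) := mul_le_mul_of_nonneg_left h1 (by positivity)
      _ = _ := by ring
  unfold JT
  have hκ : a / R * φ (R ^ 2) ^ 2 / 2 * D1 ≤ c0 * D1 := by
    refine mul_le_mul_of_nonneg_right ?_ hD10
    have h1 : 0 ≤ 4 * n * (a ^ 2 * φ (R ^ 2) ^ 2) := by positivity
    have h2 : 0 ≤ 2 * β / n := by positivity
    linarith
  have hκ2 : a / R * φ (R ^ 2) ^ 2 / 2 * D2 ≤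
      (c0 - 4 * n * (a ^ 2 * φ (R ^ 2) ^ 2) - 2 * β / n) * D2 :=
    mul_le_mul_of_nonneg_right hnum hD20
  have hκ3 : (c0 - 4 * n * (a ^ 2 * φ (R ^ 2) ^ 2) - 2 * β / n) * D2 =
      (c0 - 4 * n * (a ^ 2 * φ (R ^ 2) ^ 2)) * D2 - 2 * β / n * D2 := by ring
  rw [mul_add]
  linarith

theorem robin_ball_ge (h : RadFun n R a k φ w w1) (hn : 1 ≤ n) (hR : 0 < R) (ha : 0 < a) :
    ((-k ^ 2 : ℝ) : EReal) ≤ (ballDomain n hn R hR).robin (-a) := by
  refine le_sInf ?_
  rintro q ⟨u, hu, hpos, rfl⟩
  rw [EReal.coe_le_coe_iff]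
  have h1 := h.J_ball_le hn hR ha hu
  unfold Domain.J at h1
  unfold Domain.rayleigh
  rw [le_div_iff₀ hpos]
  linarith

theorem robin_ball_ne_top (hn : 1 ≤ n) (hR : 0 < R) (α : ℝ) :
    (ballDomain n hn R hR).robin α ≠ ⊤ := by
  have h1 : (ballDomain n hn R hR).robin α ≤
      ((ballDomain n hn R hR).rayleigh α (fun _ => 1) : EReal) := by
    refine sInf_le ⟨fun _ => 1, contDiff_const, ?_, rfl⟩
    have h2 : ∫ x in (ballDomain n hn R hR).carrier, ((fun _ => 1 : E n → ℝ) x) ^ 2 =
        volume.real (ball (0 : E n) R) := by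
      simp only [one_pow, integral_const, smul_eq_mul, mul_one]
      simp [measureReal_def, ballDomain]
    rw [h2, measureReal_def]
    exact ENNReal.toReal_pos (measure_ball_pos _ _ hR).ne' measure_ball_lt_top.ne
  exact ne_top_of_le_ne_top (EReal.coe_ne_top _) h1

/-- the first Robin eigenvalue of the ball is finite -/
theorem robin_ball_real (hn : 1 ≤ n) (hR : 0 < R) {α : ℝ} (hα : α < 0) :
    ∃ r : ℝ, (ballDomain n hn R hR).robin α = (r : EReal) := by
  obtain ⟨a, rfl⟩ : ∃ a : ℝ, α = -a := ⟨-α, by ring⟩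
  have ha : 0 < a := by linarith
  obtain ⟨k, φ, w, w1, h⟩ := exists_radFun hn hR ha
  have htop := robin_ball_ne_top hn hR (-a)
  have hbot : (ballDomain n hn R hR).robin (-a) ≠ ⊥ := fun hb => by
    have h3 := robin_ball_ge h hn hR ha
    rw [hb] at h3
    exact absurd h3 (not_le.2 (EReal.bot_lt_coe _))
  exact ⟨_, (EReal.coe_toReal htop hbot).symm⟩

theorem main (hn : 2 ≤ n) (hR : 0 < R) {α : ℝ} (h1 : -(1 / (12 * n * R)) ≤ α) (h2 : α < 0)
    (D : Domain n) (hv : volume D.carrier = volume (ball (0 : E n) R)) :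
    (ballDomain n (by omega) R hR).perimeter ≤ D.perimeter ∧
    D.robin α ≤ (ballDomain n (by omega) R hR).robin α +
      ((α / 2 * ((D.perimeter - (ballDomain n (by omega) R hR).perimeter) /
        volume.real D.carrier) : ℝ) : EReal) ∧
    ((ballDomain n (by omega) R hR).robin α ≤ D.robin α →
      ∃ x₀ : E n, D.carrier ⊆ ball x₀ R ∧ volume (ball x₀ R \ D.carrier) = 0) := by
  have hn1 : 1 ≤ n := by omega
  have hn0 : (0 : ℝ) < n := by exact_mod_cast (by omega : 0 < n)
  obtain ⟨a, rfl⟩ : ∃ a : ℝ, α = -a := ⟨-α, by ring⟩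
  have ha : 0 < a := by linarith
  have haR : 12 * n * (a * R) ≤ 1 := by
    have h3 : a ≤ 1 / (12 * n * R) := by linarith
    rw [le_div_iff₀ (by positivity)] at h3
    linarith
  obtain ⟨k, φ, w, w1, h⟩ := exists_radFun hn1 hR ha
  obtain ⟨A, T, hT⟩ := exists_transport hn1 hR D.isOpen D.isBounded hv
  have hdef := deficit hn1 hR D hv hT
  have hJ := JT_ge h hn hR ha haR D hv hT
  have hD1 := main_D1 D hT.norm_le
  have hD2 : 0 ≤ ∫ x in D.carrier, (tr (fderiv ℝ T x) - n) := by
    refine integral_nonneg_of_ae ?_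
    filter_upwards [hT.tr_ge] with x hx
    simp only [Pi.zero_apply]
    linarith
  set PB := (ballDomain n (by omega) R hR).perimeter with hPB
  set PD := D.perimeter with hPD
  set V := volume.real D.carrier with hV
  have hVpos : 0 < V := by
    rw [hV, measureReal_def]
    refine ENNReal.toReal_pos ?_ (main_vol_fin D)
    rw [hv]
    exact (measure_ball_pos _ _ hR).ne'
  have hP : PB ≤ PD := by
    have : 0 ≤ R * (PD - PB) := by rw [hdef]; linarith
    have := nonneg_of_mul_nonneg_right this hR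
    linarith
  have hφR1 : 1 ≤ φ (R ^ 2) := h.one_le _ (by positivity)
  have hcφ : Continuous φ := continuous_iff_continuousAt.2 fun t => (h.dφ t).continuousAt
  have hfin : IsFiniteMeasure (volume.restrict D.carrier) :=
    ⟨by rw [Measure.restrict_apply_univ]; exact D.isBounded.measure_lt_top⟩
  have ht0 : ∀ x, (0 : ℝ) ≤ ‖T x‖ ^ 2 := fun x => by positivity
  have ht1 : ∀ x, ‖T x‖ ^ 2 ≤ R ^ 2 := fun x =>
    pow_le_pow_left₀ (norm_nonneg _) (hT.norm_le x) 2
  have hφb : ∀ x, 1 ≤ φ (‖T x‖ ^ 2) ∧ φ (‖T x‖ ^ 2) ≤ φ (R ^ 2) := fun x =>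
    ⟨h.one_le _ (ht0 x), h.φ_le hn1 hR ha (ht0 x) (ht1 x)⟩
  have hsqint : Integrable (fun x => φ (‖T x‖ ^ 2) ^ 2) (volume.restrict D.carrier) := by
    refine Integrable.of_bound (C := φ (R ^ 2) ^ 2)
      ((hcφ.comp ((continuous_norm.comp hT.lip.continuous).pow 2)).pow 2).aestronglyMeasurable ?_
    refine Filter.Eventually.of_forall fun x => ?_
    rw [Real.norm_eq_abs, abs_of_nonneg (by positivity)]
    exact pow_le_pow_left₀ (by linarith [(hφb x).1]) (hφb x).2 2
  set I := ∫ x in D.carrier, φ (‖T x‖ ^ 2) ^ 2 with hI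
  have hIle : I ≤ φ (R ^ 2) ^ 2 * V := by
    have h3 : I ≤ ∫ x in D.carrier, φ (R ^ 2) ^ 2 := by
      refine integral_mono hsqint (integrable_const _) fun x => ?_
      exact pow_le_pow_left₀ (by linarith [(hφb x).1]) (hφb x).2 2
    rw [setIntegral_const, smul_eq_mul] at h3
    linarith
  have hIpos : 0 < I := by
    have h3 : ∫ x in D.carrier, (1 : ℝ) ≤ I := by
      refine integral_mono (integrable_const _) hsqint fun x => ?_
      have := (hφb x).1
      show (1 : ℝ) ≤ φ (‖T x‖ ^ 2) ^ 2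
      nlinarith
    rw [setIntegral_const, smul_eq_mul, mul_one] at h3
    linarith
  have hrob := h.robin_le D hT.lip hT.norm_le
  have hJ2 : a / 2 * φ (R ^ 2) ^ 2 * (PD - PB) ≤ JT n R a k φ w D T := by
    rw [← hdef] at hJ
    have e : a / R * φ (R ^ 2) ^ 2 / 2 * (R * (PD - PB)) = a / 2 * φ (R ^ 2) ^ 2 * (PD - PB) := by
      field_simp
    linarith
  have hquot : a / 2 * ((PD - PB) / V) ≤ JT n R a k φ w D T / I := by
    rw [le_div_iff₀ hIpos]
    have h3 : 0 ≤ a / 2 * ((PD - PB) / V) := by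
      have : 0 ≤ PD - PB := by linarith
      positivity
    calc a / 2 * ((PD - PB) / V) * I ≤ a / 2 * ((PD - PB) / V) * (φ (R ^ 2) ^ 2 * V) :=
          mul_le_mul_of_nonneg_left hIle h3
      _ = a / 2 * φ (R ^ 2) ^ 2 * (PD - PB) := by field_simp
      _ ≤ _ := hJ2
  have hmain : D.robin (-a) ≤ (ballDomain n (by omega) R hR).robin (-a) +
      ((-a / 2 * ((PD - PB) / V) : ℝ) : EReal) := by
    calc D.robin (-a) ≤ ((-k ^ 2 - JT n R a k φ w D T / I : ℝ) : EReal) := hrob
      _ ≤ ((-k ^ 2 + -a / 2 * ((PD - PB) / V) : ℝ) : EReal) := by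
          rw [EReal.coe_le_coe_iff]
          have e : -a / 2 * ((PD - PB) / V) = -(a / 2 * ((PD - PB) / V)) := by ring
          linarith
      _ = ((-k ^ 2 : ℝ) : EReal) + ((-a / 2 * ((PD - PB) / V) : ℝ) : EReal) := EReal.coe_add _ _
      _ ≤ _ := add_le_add (robin_ball_ge h hn1 hR ha) le_rfl
  refine ⟨hP, hmain, fun hge => ?_⟩
  have hle := hge.trans hmain
  obtain ⟨r, hr⟩ := robin_ball_real hn1 hR h2
  rw [hr, ← EReal.coe_add, EReal.coe_le_coe_iff] at hle
  have hP0 : PD - PB = 0 := by
    by_contra hne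
    have h3 : 0 < PD - PB := lt_of_le_of_ne (by linarith) (Ne.symm hne)
    have h4 : 0 < a / 2 * ((PD - PB) / V) := by positivity
    have e : -a / 2 * ((PD - PB) / V) = -(a / 2 * ((PD - PB) / V)) := by ring
    linarith
  rw [hP0, mul_zero] at hdef
  have hD20 : ∫ x in D.carrier, (tr (fderiv ℝ T x) - n) = 0 := by linarith
  have hinttr : Integrable (fun x => tr (fderiv ℝ T x) - (n : ℝ)) (volume.restrict D.carrier) :=
    (main_tr_int hT.lip (main_vol_fin D)).sub (integrable_const _)
  have hae : ∀ᵐ x ∂(volume.restrict D.carrier), tr (fderiv ℝ T x) - (n : ℝ) = 0 := by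
    have h3 := (integral_eq_zero_iff_of_nonneg_ae (by
      filter_upwards [hT.tr_ge] with x hx
      simp only [Pi.zero_apply]
      linarith) hinttr).1 hD20
    filter_upwards [h3] with x hx
    simpa using hx
  have hid : ∀ᵐ x ∂(volume.restrict D.carrier),
      fderiv ℝ T x = ContinuousLinearMap.id ℝ (E n) := by
    filter_upwards [hae, hT.dist_le] with x hx1 hx2
    rw [hx1, mul_zero] at hx2
    have h3 : ‖fderiv ℝ T x - ContinuousLinearMap.id ℝ (E n)‖ = 0 := by
      have h4 := norm_nonneg (fderiv ℝ T x - ContinuousLinearMap.id ℝ (E n))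
      nlinarith
    exact sub_eq_zero.1 (norm_eq_zero.1 h3)
  obtain ⟨x₀, hx₀⟩ := translation_of_fderiv hT.lip D.isOpen D.isConnected.isPreconnected hid
  have hsub : D.carrier ⊆ ball x₀ R := by
    have h3 : D.carrier ⊆ closedBall x₀ R := by
      intro x hx
      rw [mem_closedBall, dist_eq_norm, ← hx₀ x hx]
      exact hT.norm_le x
    have h4 := interior_mono h3
    rwa [D.isOpen.interior_eq, interior_closedBall _ hR.ne'] at h4
  refine ⟨x₀, hsub, ?_⟩
  have hvol : volume (ball x₀ R) = volume D.carrier := by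
    rw [hv, Measure.addHaar_ball_center]
  rw [measure_sdiff hsub D.isOpen.nullMeasurableSet (main_vol_fin D), hvol, tsub_self]

end Pool.Agent.RG
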