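import Mathlib

/-! MP_1b807b_an, small parameter theorem, module Defs: domains with a divergence theorem, the
first Robin eigenvalue, the Legendre transform over a ball and the Moreau envelope -/

set_option autoImplicit false

namespace Pool.Agent.RG

open MeasureTheory Metric Set
open scoped RealInnerProductSpace

/-- Euclidean space of dimension `n`. -/
abbrev E (n : ℕ) := EuclideanSpace ℝ (Fin n)

variable {n : ℕ}

/-- the trace of a linear map of `ℝⁿ` -/
noncomputable def tr (A : E n →L[ℝ] E n) : ℝ :=
  ∑ i : Fin n, (A (EuclideanSpace.single i 1)) i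

/-- The divergence of a vector field. -/
noncomputable def divg (X : E n → E n) (x : E n) : ℝ := tr (fderiv ℝ X x)

/-- A bounded domain of `ℝⁿ` with a surface measure and an outer unit normal for which the
divergence theorem holds. (`surface` and `normal` are determined by `carrier`; every bounded
Lipschitz domain with its surface measure and its outer unit normal is an example.) -/
structure Domain (n : ℕ) where
  /-- the open set -/
  carrier : Set (E n)
  isOpen : IsOpen carrier
  isConnected : IsConnected carrier
  isBounded : Bornology.IsBounded carrier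
  /-- the surface measure -/
  surface : Measure (E n)
  isFinite : IsFiniteMeasure surface
  support : surface (frontier carrier)ᶜ = 0
  /-- the outer unit normal -/
  normal : E n → E n
  measurable_normal : Measurable normal
  norm_normal : ∀ᵐ x ∂surface, ‖normal x‖ = 1
  divergence : ∀ X : E n → E n, ContDiff ℝ 1 X →
    ∫ x in carrier, divg X x = ∫ x, ⟪X x, normal x⟫ ∂surface

/-- The perimeter of a domain. -/
noncomputable def Domain.perimeter (D : Domain n) : ℝ := D.surface.real univ

/-- The Robin Rayleigh quotient of `u` on `D` with boundary parameter `α`. -/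
noncomputable def Domain.rayleigh (D : Domain n) (α : ℝ) (u : E n → ℝ) : ℝ :=
  ((∫ x in D.carrier, ‖fderiv ℝ u x‖ ^ 2) + α * ∫ x, u x ^ 2 ∂D.surface) /
    ∫ x in D.carrier, u x ^ 2

/-- The first Robin eigenvalue `λ₁(D; α)`: the infimum (an extended real number) of the Rayleigh
quotient over the `C¹` functions on `ℝⁿ` that do not vanish on `D`. -/
noncomputable def Domain.robin (D : Domain n) (α : ℝ) : EReal :=
  sInf {q : EReal | ∃ u : E n → ℝ, ContDiff ℝ 1 u ∧ 0 < (∫ x in D.carrier, u x ^ 2) ∧
    q = (D.rayleigh α u : EReal)}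

/-- the functional `a ∫_{∂D} u² - ∫_D |∇u|² - k² ∫_D u²` -/
noncomputable def Domain.J (D : Domain n) (a k : ℝ) (u : E n → ℝ) : ℝ :=
  a * (∫ x, u x ^ 2 ∂D.surface) - (∫ x in D.carrier, ‖fderiv ℝ u x‖ ^ 2)
    - k ^ 2 * ∫ x in D.carrier, u x ^ 2

/-- The Legendre transform of `g` restricted to the closed ball of radius `R`. -/
noncomputable def leg (R : ℝ) (g : E n → ℝ) (y : E n) : ℝ :=
  sSup ((fun ξ : E n => ⟪ξ, y⟫ - g ξ) '' closedBall 0 R)

/-- The Moreau envelope with parameter `K`. -/
noncomputable def mor (K : ℝ) (u : E n → ℝ) (x : E n) : ℝ :=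
  sInf (range fun y : E n => u y + K / 2 * ‖x - y‖ ^ 2)

/-- `y` is the proximal point of `x` -/
def IsProx (K : ℝ) (u : E n → ℝ) (x y : E n) : Prop :=
  ∀ z : E n, u y + K / 2 * ‖x - y‖ ^ 2 ≤ u z + K / 2 * ‖x - z‖ ^ 2

/-- the functional of the dual transport problem -/
noncomputable def FF (R K : ℝ) (Ω : Set (E n)) (g : E n → ℝ) : ℝ :=
  (∫ ξ in closedBall (0 : E n) R, g ξ) + ∫ x in Ω, mor K (leg R g) x

end Pool.Agent.RG
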