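import Pool.Agent.H.MP_1b807b_an.G.Mor

/-! MP_1b807b_an, module Degen: degeneracy of the proximal map where `u` is not differentiable -/

set_option autoImplicit false

namespace Pool.Agent.RG

open MeasureTheory Metric Set
open scoped RealInnerProductSpace

variable {n : ℕ}

/-- if `f` is constant on the segment from `x` to `x + v` then its derivative kills `v` -/
private theorem degen_fderiv_zero {f : E n → E n} {x v : E n} (hf : DifferentiableAt ℝ f x)
    (hc : ∀ t : ℝ, 0 ≤ t → t ≤ 1 → f (x + t • v) = f x) : fderiv ℝ f x v = 0 := by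
  have h1 : HasDerivAt (fun t : ℝ => f (x + t • v)) (fderiv ℝ f x v) 0 := by
    have h2 : HasDerivAt (fun t : ℝ => x + t • v) v 0 := by
      simpa using ((hasDerivAt_id (0 : ℝ)).smul_const v).const_add x
    have h3 : HasFDerivAt f (fderiv ℝ f x) (x + (0 : ℝ) • v) := by
      simpa using hf.hasFDerivAt
    exact h3.comp_hasDerivAt (0 : ℝ) h2
  have h4 : HasDerivWithinAt (fun t : ℝ => f (x + t • v)) (fderiv ℝ f x v) (Icc 0 1) 0 :=
    h1.hasDerivWithinAt
  have h5 : HasDerivWithinAt (fun t : ℝ => f (x + t • v)) 0 (Icc 0 1) 0 := by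
    refine (hasDerivWithinAt_const (0 : ℝ) (Icc (0 : ℝ) 1) (f x)).congr ?_ ?_
    · intro t ht
      exact hc t ht.1 ht.2
    · simp
  have hu : UniqueDiffWithinAt ℝ (Icc (0 : ℝ) 1) 0 :=
    (uniqueDiffOn_Icc (by norm_num)) 0 (by simp)
  exact hu.eq_deriv _ h4 h5

theorem det_eq_zero {R K : ℝ} (hR : 0 < R) (hK : 0 < K) {u : E n → ℝ} (hc : ConvexOn ℝ univ u)
    (hu : ∀ y z, |u y - u z| ≤ R * ‖y - z‖) {T : E n → E n} (hT : Continuous T)
    (hprox : ∀ x, IsProx K u x (x - K⁻¹ • T x)) :
    ∀ᵐ x : E n, DifferentiableAt ℝ T x → ¬ DifferentiableAt ℝ u (x - K⁻¹ • T x) →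
      (ContinuousLinearMap.id ℝ (E n) - K⁻¹ • fderiv ℝ T x).det = 0 := by
  set Y : E n → E n := fun x => x - K⁻¹ • T x with hY
  set DY : E n → (E n →L[ℝ] E n) := fun x => ContinuousLinearMap.id ℝ (E n) - K⁻¹ • fderiv ℝ T x
    with hDY
  have hYc : Continuous Y := by
    rw [hY]
    fun_prop
  have hLip : LipschitzWith (Real.toNNReal R) u := by
    refine LipschitzWith.of_dist_le_mul fun y z => ?_
    rw [Real.coe_toNNReal R hR.le, Real.dist_eq, dist_eq_norm]
    exact hu y z
  have hN : volume {y : E n | ¬ DifferentiableAt ℝ u y} = 0 := by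
    have := hLip.ae_differentiableAt (μ := volume)
    exact this
  have hmN : MeasurableSet {y : E n | ¬ DifferentiableAt ℝ u y} :=
    (measurableSet_of_differentiableAt ℝ u).compl
  set X : Set (E n) := ({x | DifferentiableAt ℝ T x} ∩ {x | ¬ DifferentiableAt ℝ u (Y x)}) ∩
    {x | (DY x).det ≠ 0} with hX
  have hmD : Measurable fun x => (DY x).det := by
    have h1 : Measurable DY := by
      have h2 : Measurable (fun x => fderiv ℝ T x) := measurable_fderiv ℝ T
      have h3 : Continuous fun A : E n →L[ℝ] E n => ContinuousLinearMap.id ℝ (E n) - K⁻¹ • A :=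
        by fun_prop
      exact h3.measurable.comp h2
    exact ContinuousLinearMap.continuous_det.measurable.comp h1
  have hmX : MeasurableSet X := by
    refine ((measurableSet_of_differentiableAt ℝ T).inter ?_).inter ?_
    · exact hYc.measurable hmN
    · exact (hmD (measurableSet_singleton (0 : ℝ))).compl
  have hder : ∀ x ∈ X, HasFDerivWithinAt Y (DY x) X x := by
    intro x hx
    have h1 : HasFDerivAt T (fderiv ℝ T x) x := DifferentiableAt.hasFDerivAt hx.1.1
    have h2 : HasFDerivAt Y (DY x) x := (hasFDerivAt_id x).sub (h1.const_smul K⁻¹)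
    exact h2.hasFDerivWithinAt
  have hinj : InjOn Y X := by
    intro x hx x' hx' he
    by_contra hne
    have hp : IsProx K u x (Y x) := hprox x
    have hp' : IsProx K u x' (Y x) := by
      have := hprox x'
      rw [he]
      exact this
    have hconst : ∀ t : ℝ, 0 ≤ t → t ≤ 1 → Y (x + t • (x' - x)) = Y x := by
      intro t h0 h1
      exact (hprox (x + t • (x' - x))).unique hK hc (IsProx.segment hK hc hp hp' h0 h1)
    have h1 : HasFDerivAt T (fderiv ℝ T x) x := DifferentiableAt.hasFDerivAt hx.1.1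
    have h2 : HasFDerivAt Y (DY x) x := (hasFDerivAt_id x).sub (h1.const_smul K⁻¹)
    have h3 := degen_fderiv_zero h2.differentiableAt hconst
    rw [h2.fderiv] at h3
    have hdet : (DY x).det ≠ 0 := hx.2
    have h4 : x' - x = 0 := by
      have h5 : LinearMap.ker ((DY x : E n →L[ℝ] E n) : E n →ₗ[ℝ] E n) = ⊥ := by
        have h6 : IsUnit (LinearMap.det ((DY x : E n →L[ℝ] E n) : E n →ₗ[ℝ] E n)) :=
          isUnit_iff_ne_zero.mpr hdet
        exact (LinearMap.isUnit_iff_ker_eq_bot _).mp ((LinearMap.isUnit_iff_isUnit_det _).mpr h6)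
      exact (LinearMap.ker_eq_bot'.mp h5) _ h3
    exact hne (sub_eq_zero.mp h4).symm
  have harea := lintegral_abs_det_fderiv_eq_addHaar_image volume hmX hder hinj
  have himg : volume (Y '' X) = 0 := by
    refine measure_mono_null ?_ hN
    rintro _ ⟨x, hx, rfl⟩
    exact hx.1.2
  rw [himg] at harea
  have hz : (fun x => ENNReal.ofReal |(DY x).det|) =ᵐ[volume.restrict X] 0 :=
    (lintegral_eq_zero_iff (hmD.abs.ennreal_ofReal)).mp harea
  have hXnull : volume X = 0 := by
    have h1 : ∀ᵐ x ∂(volume.restrict X), False := by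
      filter_upwards [hz, ae_restrict_mem hmX] with x hx hxX
      have hdet : (DY x).det ≠ 0 := hxX.2
      have h2 : ENNReal.ofReal |(DY x).det| = 0 := hx
      rw [ENNReal.ofReal_eq_zero] at h2
      exact hdet (abs_nonpos_iff.mp h2)
    have h2 : volume.restrict X = 0 := by
      rw [← ae_eq_bot, ← Filter.eventually_false_iff_eq_bot]
      exact h1
    exact Measure.restrict_eq_zero.mp h2
  have h7 : ∀ᵐ x : E n, x ∉ X := by
    exact measure_eq_zero_iff_ae_notMem.mp hXnull
  filter_upwards [h7] with x hx h1 h2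
  by_contra h3
  exact hx ⟨⟨h1, h2⟩, h3⟩

end Pool.Agent.RG
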