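import Pool.Agent.H.MP_1b807b_an.G.Mor

/-! MP_1b807b_an, module Hess: the derivative of `T` -/

set_option autoImplicit false

namespace Pool.Agent.RG

open MeasureTheory Metric Set
open scoped RealInnerProductSpace

variable {n : ℕ}

private theorem hess_smul {K : ℝ} (hK : 0 < K) (x t : E n) : K • (x - (x - K⁻¹ • t)) = t := by
  rw [sub_sub_cancel, smul_smul, mul_inv_cancel₀ hK.ne', one_smul]

private theorem hess_firm {K : ℝ} (hK : 0 < K) {u : E n → ℝ} (hc : ConvexOn ℝ univ u) {T : E n → E n}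
    (hprox : ∀ x, IsProx K u x (x - K⁻¹ • T x)) (x y : E n) :
    ‖T x - T y‖ ^ 2 ≤ K * ⟪T x - T y, x - y⟫ := by
  have h := (hprox x).firm hK hc (hprox y)
  rwa [hess_smul hK, hess_smul hK] at h

theorem T_lip {K : ℝ} (hK : 0 < K) {u : E n → ℝ} (hc : ConvexOn ℝ univ u) {T : E n → E n}
    (hprox : ∀ x, IsProx K u x (x - K⁻¹ • T x)) : LipschitzWith K.toNNReal T := by
  refine LipschitzWith.of_dist_le_mul fun x y => ?_
  rw [Real.coe_toNNReal K hK.le, dist_eq_norm, dist_eq_norm]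
  have h := hess_firm hK hc hprox x y
  have h2 : ⟪T x - T y, x - y⟫ ≤ ‖T x - T y‖ * ‖x - y‖ := real_inner_le_norm _ _
  have h3 : ‖T x - T y‖ ^ 2 ≤ K * (‖T x - T y‖ * ‖x - y‖) :=
    h.trans (mul_le_mul_of_nonneg_left h2 hK.le)
  rcases (norm_nonneg (T x - T y)).eq_or_lt with h0 | h0
  · rw [← h0]; positivity
  · have h4 : ‖T x - T y‖ * ‖T x - T y‖ ≤ ‖T x - T y‖ * (K * ‖x - y‖) := by nlinarith
    exact le_of_mul_le_mul_left h4 h0

theorem T_symm {R K : ℝ} (hR : 0 < R) (hK : 0 < K) {u : E n → ℝ} (hc : ConvexOn ℝ univ u)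
    (hu : ∀ y z, |u y - u z| ≤ R * ‖y - z‖) {T : E n → E n}
    (hprox : ∀ x, IsProx K u x (x - K⁻¹ • T x)) {x : E n} (hd : DifferentiableAt ℝ T x) :
    (fderiv ℝ T x : E n →ₗ[ℝ] E n).IsSymmetric := by
  set Φ : E n →L[ℝ] E n →L[ℝ] ℝ :=
    (isBoundedBilinearMap_inner (𝕜 := ℝ) (E := E n)).toContinuousLinearMap with hΦ
  have hΦa : ∀ a b : E n, Φ a b = ⟪a, b⟫ := fun a b => rfl
  have hf : ∀ y, HasFDerivAt (mor K u) (Φ (T y)) y := by
    intro y
    have h := (hprox y).hasGradientAt hR.le hK hc hu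
    rw [hess_smul hK] at h
    have h2 : InnerProductSpace.toDual ℝ (E n) (T y) = Φ (T y) := by
      ext b
      rw [hΦa]
      rfl
    rw [hasGradientAt_iff_hasFDerivAt, h2] at h
    exact h
  have hf' : HasFDerivAt (fun y => Φ (T y)) (Φ.comp (fderiv ℝ T x)) x :=
    Φ.hasFDerivAt.comp x hd.hasFDerivAt
  intro v w
  have h := second_derivative_symmetric hf hf' v w
  simp only [ContinuousLinearMap.comp_apply, hΦa] at h
  rw [ContinuousLinearMap.coe_coe, h, real_inner_comm]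

theorem T_firm {K : ℝ} (hK : 0 < K) {u : E n → ℝ} (hc : ConvexOn ℝ univ u) {T : E n → E n}
    (hprox : ∀ x, IsProx K u x (x - K⁻¹ • T x)) {x : E n} (hd : DifferentiableAt ℝ T x) (v : E n) :
    ‖fderiv ℝ T x v‖ ^ 2 ≤ K * ⟪fderiv ℝ T x v, v⟫ := by
  have hl : HasLineDerivAt ℝ T (fderiv ℝ T x v) x v := hd.hasFDerivAt.hasLineDerivAt v
  have ht := hl.tendsto_slope_zero
  have h1 : Filter.Tendsto (fun t : ℝ => ‖t⁻¹ • (T (x + t • v) - T x)‖ ^ 2)
      (nhdsWithin 0 {0}ᶜ) (nhds (‖fderiv ℝ T x v‖ ^ 2)) := (ht.norm).pow 2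
  have h2 : Filter.Tendsto (fun t : ℝ => K * ⟪t⁻¹ • (T (x + t • v) - T x), v⟫)
      (nhdsWithin 0 {0}ᶜ) (nhds (K * ⟪fderiv ℝ T x v, v⟫)) :=
    (ht.inner tendsto_const_nhds).const_mul K
  refine le_of_tendsto_of_tendsto h1 h2 ?_
  filter_upwards [self_mem_nhdsWithin] with t ht0
  have ht0' : t ≠ 0 := ht0
  have h := hess_firm hK hc hprox (x + t • v) x
  rw [add_sub_cancel_left, inner_smul_right] at h
  rw [norm_smul, mul_pow, inner_smul_left]
  simp only [Real.norm_eq_abs, sq_abs, conj_trivial]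
  have h5 : 0 ≤ (t⁻¹) ^ 2 := by positivity
  have h6 := mul_le_mul_of_nonneg_left h h5
  have h7 : (t⁻¹) ^ 2 * (K * (t * ⟪T (x + t • v) - T x, v⟫)) =
      K * (t⁻¹ * ⟪T (x + t • v) - T x, v⟫) := by
    field_simp
  rw [h7] at h6
  exact h6

end Pool.Agent.RG
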