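import Pool.Agent.H.MP_1b807b_an.G.RadEst

/-! MP_1b807b_an, module Ident: the identity for `J(φ(|T|²))` with `T` of class `C¹` -/

set_option autoImplicit false

namespace Pool.Agent.RG

open MeasureTheory Metric Set
open scoped RealInnerProductSpace

variable {n : ℕ} {R a k : ℝ} {φ w w1 : ℝ → ℝ}

private theorem ident_comp {f f' : ℝ → ℝ} (hf : ∀ t, HasDerivAt f (f' t) t) {S : E n → E n}
    {x : E n} (hS : DifferentiableAt ℝ S x) :
    HasFDerivAt (fun x => f (‖S x‖ ^ 2))
      ((2 * f' (‖S x‖ ^ 2)) • innerSL ℝ ((ContinuousLinearMap.adjoint (fderiv ℝ S x)) (S x))) x := by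
  have h1 : HasFDerivAt (fun x => ‖S x‖ ^ 2) (2 • (innerSL ℝ (S x)).comp (fderiv ℝ S x)) x :=
    hS.hasFDerivAt.norm_sq
  have h2 := (hf (‖S x‖ ^ 2)).comp_hasFDerivAt x h1
  have h3 : f' (‖S x‖ ^ 2) • (2 • (innerSL ℝ (S x)).comp (fderiv ℝ S x)) =
      (2 * f' (‖S x‖ ^ 2)) • innerSL ℝ ((ContinuousLinearMap.adjoint (fderiv ℝ S x)) (S x)) := by
    ext v
    simp only [smul_apply, ContinuousLinearMap.comp_apply, innerSL_apply_apply,
      smul_eq_mul, nsmul_eq_mul, ContinuousLinearMap.adjoint_inner_left]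
    push_cast
    ring
  rw [h3] at h2
  exact h2

private theorem ident_cont {f f' : ℝ → ℝ} (hf : ∀ t, HasDerivAt f (f' t) t) : Continuous f :=
  continuous_iff_continuousAt.mpr (fun t => (hf t).continuousAt)

private theorem ident_contDiff {f f' : ℝ → ℝ} (hf : ∀ t, HasDerivAt f (f' t) t)
    (hf' : Continuous f') : ContDiff ℝ 1 f := by
  rw [contDiff_one_iff_deriv]
  refine ⟨fun t => (hf t).differentiableAt, ?_⟩
  have : deriv f = f' := funext (fun t => (hf t).deriv)
  rw [this]
  exact hf'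

/-- the gradient of `φ(|S|²)` is `w(|S|²) Sᵃᵈʲ S` -/
theorem RadFun.norm_fderiv (h : RadFun n R a k φ w w1) {S : E n → E n} {x : E n}
    (hS : DifferentiableAt ℝ S x) :
    ‖fderiv ℝ (fun x => φ (‖S x‖ ^ 2)) x‖ =
      |w (‖S x‖ ^ 2)| * ‖(ContinuousLinearMap.adjoint (fderiv ℝ S x)) (S x)‖ := by
  have h1 := ident_comp h.dφ hS
  rw [h1.fderiv, norm_smul, innerSL_apply_norm, Real.norm_eq_abs]
  congr 2
  ring

theorem RadFun.contDiff (h : RadFun n R a k φ w w1) {S : E n → E n} (hS : ContDiff ℝ 1 S) :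
    ContDiff ℝ 1 (fun x => φ (‖S x‖ ^ 2)) := by
  have h1 : Continuous w := ident_cont h.dw
  have h2 : ContDiff ℝ 1 φ := ident_contDiff h.dφ (h1.div_const 2)
  exact h2.comp (hS.norm_sq ℝ)

private theorem ident_tr_add (A B : E n →L[ℝ] E n) : tr (A + B) = tr A + tr B := by
  unfold tr
  rw [← Finset.sum_add_distrib]
  rfl

private theorem ident_tr_smul (c : ℝ) (A : E n →L[ℝ] E n) : tr (c • A) = c * tr A := by
  unfold tr
  rw [Finset.mul_sum]
  rfl

private theorem ident_tr_smulRight (L : E n →L[ℝ] ℝ) (v : E n) : tr (L.smulRight v) = L v := by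
  unfold tr
  have h1 : v = ∑ i : Fin n, v i • EuclideanSpace.single i (1 : ℝ) := by
    ext j
    simp [Finset.sum_apply, Pi.single_apply]
  calc ∑ i : Fin n, (L.smulRight v (EuclideanSpace.single i 1)) i
      = ∑ i : Fin n, v i * L (EuclideanSpace.single i 1) := by
        refine Finset.sum_congr rfl (fun i _ => ?_)
        simp [ContinuousLinearMap.smulRight_apply, mul_comm]
    _ = L (∑ i : Fin n, v i • EuclideanSpace.single i (1 : ℝ)) := by
        rw [map_sum]
        refine Finset.sum_congr rfl (fun i _ => ?_)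
        rw [map_smul, smul_eq_mul]
    _ = L v := by rw [← h1]

private theorem ident_tr_cont : Continuous (fun A : E n →L[ℝ] E n => tr A) := by
  unfold tr
  refine continuous_finsetSum _ (fun i _ => ?_)
  have h1 : Continuous (fun A : E n →L[ℝ] E n => A (EuclideanSpace.single i (1 : ℝ))) :=
    (ContinuousLinearMap.apply ℝ (E n) (EuclideanSpace.single i (1 : ℝ))).continuous
  exact (EuclideanSpace.proj (𝕜 := ℝ) i).continuous.comp h1

private theorem ident_integrable (D : Domain n) {f : E n → ℝ} (hf : Continuous f) :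
    IntegrableOn f D.carrier := by
  have h1 : IsCompact (closure D.carrier) := D.isBounded.isCompact_closure
  exact (hf.continuousOn.integrableOn_compact h1).mono_set subset_closure

private theorem ident_integrable_surf (D : Domain n) {F : Type*} [NormedAddCommGroup F]
    {f : E n → F} (hf : Continuous f) : Integrable f D.surface := by
  have := D.isFinite
  have h0 : IsCompact (frontier D.carrier) :=
    D.isBounded.isCompact_closure.of_isClosed_subset isClosed_frontier frontier_subset_closure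
  have h1 : D.surface.restrict (frontier D.carrier) = D.surface := by
    apply Measure.restrict_eq_self_of_ae_mem
    rw [ae_iff]
    exact D.support
  have h2 : IntegrableOn f (frontier D.carrier) D.surface :=
    hf.continuousOn.integrableOn_compact h0
  unfold IntegrableOn at h2
  rw [h1] at h2
  exact h2

theorem RadFun.identity (h : RadFun n R a k φ w w1) (D : Domain n) {S : E n → E n}
    (hS : ContDiff ℝ 1 S) :
    D.J a k (fun x => φ (‖S x‖ ^ 2)) =
      (∫ x, (a * φ (‖S x‖ ^ 2) ^ 2 - PP R a φ w (‖S x‖ ^ 2) * ⟪S x, D.normal x⟫) ∂D.surface) +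
      ∫ x in D.carrier, (PP R a φ w (‖S x‖ ^ 2) * (tr (fderiv ℝ S x) - n) +
        bb n R a k φ w (‖S x‖ ^ 2) -
        w (‖S x‖ ^ 2) ^ 2 * ‖(ContinuousLinearMap.adjoint (fderiv ℝ S x)) (S x) - S x‖ ^ 2) := by
  have := D.isFinite
  -- continuity
  have cS : Continuous S := hS.continuous
  have cM : Continuous (fderiv ℝ S) := hS.continuous_fderiv (by norm_num)
  have cMa : Continuous (fun x => (ContinuousLinearMap.adjoint (fderiv ℝ S x)) (S x)) := by
    have h1 : Continuous (fun x => ContinuousLinearMap.adjoint (fderiv ℝ S x)) :=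
      (ContinuousLinearMap.adjoint : (E n →L[ℝ] E n) ≃ₗᵢ⋆[ℝ] (E n →L[ℝ] E n)).continuous.comp cM
    exact h1.clm_apply cS
  have cw : Continuous w := ident_cont h.dw
  have cφ : Continuous φ := ident_cont h.dφ
  have cP : Continuous (PP R a φ w) := ident_cont h.dPP
  have dP : ContDiff ℝ 1 (PP R a φ w) := ident_contDiff h.dPP (cw.pow 2)
  have cn : Continuous (fun x => ‖S x‖ ^ 2) := cS.norm.pow 2
  have cwS : Continuous (fun x => w (‖S x‖ ^ 2)) := cw.comp cn
  have cφS : Continuous (fun x => φ (‖S x‖ ^ 2)) := cφ.comp cn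
  have cPS : Continuous (fun x => PP R a φ w (‖S x‖ ^ 2)) := cP.comp cn
  have ctr : Continuous (fun x => tr (fderiv ℝ S x)) := ident_tr_cont.comp cM
  -- the field
  set X : E n → E n := fun x => PP R a φ w (‖S x‖ ^ 2) • S x with hX
  have dX : ContDiff ℝ 1 X := (dP.comp (hS.norm_sq ℝ)).smul hS
  have hdiv : ∀ x, divg X x = PP R a φ w (‖S x‖ ^ 2) * tr (fderiv ℝ S x) +
      2 * w (‖S x‖ ^ 2) ^ 2 *
        ⟪(ContinuousLinearMap.adjoint (fderiv ℝ S x)) (S x), S x⟫ := by
    intro x
    have hSx : DifferentiableAt ℝ S x := (hS.differentiable (by norm_num)) x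
    have h1 := ident_comp h.dPP hSx
    have h2 : HasFDerivAt X _ x := h1.smul hSx.hasFDerivAt
    unfold divg
    rw [h2.fderiv, ident_tr_add, ident_tr_smul, ident_tr_smulRight]
    simp only [smul_apply, innerSL_apply_apply, smul_eq_mul]
  have hD := D.divergence X dX
  -- integrability on the boundary
  have i1 : Integrable (fun x => a * φ (‖S x‖ ^ 2) ^ 2) D.surface :=
    ident_integrable_surf D (continuous_const.mul (cφS.pow 2))
  have hXc : Continuous X := dX.continuous
  have i2 : Integrable (fun x => ⟪X x, D.normal x⟫) D.surface := by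
    have h3 : Integrable X D.surface := ident_integrable_surf D hXc
    refine h3.mono ?_ ?_
    · exact (hXc.measurable.inner D.measurable_normal).aestronglyMeasurable
    · filter_upwards [D.norm_normal] with x hx
      calc ‖⟪X x, D.normal x⟫‖ ≤ ‖X x‖ * ‖D.normal x‖ := norm_inner_le_norm _ _
        _ = ‖X x‖ := by rw [hx, mul_one]
  have hXn : ∀ x, ⟪X x, D.normal x⟫ = PP R a φ w (‖S x‖ ^ 2) * ⟪S x, D.normal x⟫ := by
    intro x
    rw [hX]
    simp only
    rw [real_inner_smul_left]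
  have e1 : (∫ x, (a * φ (‖S x‖ ^ 2) ^ 2 - PP R a φ w (‖S x‖ ^ 2) * ⟪S x, D.normal x⟫) ∂D.surface)
      = a * (∫ x, φ (‖S x‖ ^ 2) ^ 2 ∂D.surface) - ∫ x in D.carrier, divg X x := by
    rw [hD]
    rw [← integral_const_mul, ← integral_sub i1 i2]
    refine integral_congr_ae (Filter.Eventually.of_forall (fun x => ?_))
    simp only
    rw [hXn]
  -- the interior
  have cdiv : Continuous (fun x => divg X x) :=
    ident_tr_cont.comp (dX.continuous_fderiv (by norm_num))
  have j1 : IntegrableOn (fun x => divg X x) D.carrier := ident_integrable D cdiv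
  have cI : Continuous (fun x => PP R a φ w (‖S x‖ ^ 2) * (tr (fderiv ℝ S x) - n) +
        bb n R a k φ w (‖S x‖ ^ 2) -
        w (‖S x‖ ^ 2) ^ 2 * ‖(ContinuousLinearMap.adjoint (fderiv ℝ S x)) (S x) - S x‖ ^ 2) := by
    have cbb : Continuous (fun x => bb n R a k φ w (‖S x‖ ^ 2)) := by
      unfold bb
      exact ((continuous_const.mul cPS).add ((cwS.pow 2).mul cn)).sub
        (continuous_const.mul (cφS.pow 2))
    exact ((cPS.mul (ctr.sub continuous_const)).add cbb).sub
      ((cwS.pow 2).mul ((cMa.sub cS).norm.pow 2))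
  have j2 := ident_integrable D cI
  have j3 : IntegrableOn (fun x => w (‖S x‖ ^ 2) ^ 2 *
      ‖(ContinuousLinearMap.adjoint (fderiv ℝ S x)) (S x)‖ ^ 2) D.carrier :=
    ident_integrable D ((cwS.pow 2).mul (cMa.norm.pow 2))
  have j4 : IntegrableOn (fun x => k ^ 2 * φ (‖S x‖ ^ 2) ^ 2) D.carrier :=
    ident_integrable D (continuous_const.mul (cφS.pow 2))
  have e2 : ∫ x in D.carrier, ‖fderiv ℝ (fun x => φ (‖S x‖ ^ 2)) x‖ ^ 2 =
      ∫ x in D.carrier, w (‖S x‖ ^ 2) ^ 2 *
        ‖(ContinuousLinearMap.adjoint (fderiv ℝ S x)) (S x)‖ ^ 2 := by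
    refine integral_congr_ae (Filter.Eventually.of_forall (fun x => ?_))
    simp only
    rw [h.norm_fderiv ((hS.differentiable (by norm_num)) x), mul_pow, sq_abs]
  have e3 : k ^ 2 * ∫ x in D.carrier, φ (‖S x‖ ^ 2) ^ 2 =
      ∫ x in D.carrier, k ^ 2 * φ (‖S x‖ ^ 2) ^ 2 := by
    rw [integral_const_mul]
  unfold Domain.J
  rw [e1, e2, e3]
  have key : (∫ x in D.carrier, (PP R a φ w (‖S x‖ ^ 2) * (tr (fderiv ℝ S x) - n) +
        bb n R a k φ w (‖S x‖ ^ 2) -
        w (‖S x‖ ^ 2) ^ 2 * ‖(ContinuousLinearMap.adjoint (fderiv ℝ S x)) (S x) - S x‖ ^ 2)) =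
      (∫ x in D.carrier, divg X x) -
      (∫ x in D.carrier, w (‖S x‖ ^ 2) ^ 2 *
        ‖(ContinuousLinearMap.adjoint (fderiv ℝ S x)) (S x)‖ ^ 2) -
      ∫ x in D.carrier, k ^ 2 * φ (‖S x‖ ^ 2) ^ 2 := by
    have j13 : IntegrableOn (fun x => divg X x - w (‖S x‖ ^ 2) ^ 2 *
        ‖(ContinuousLinearMap.adjoint (fderiv ℝ S x)) (S x)‖ ^ 2) D.carrier := j1.sub j3
    rw [← integral_sub j1 j3, ← integral_sub j13 j4]
    refine integral_congr_ae (Filter.Eventually.of_forall (fun x => ?_))
    simp only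
    rw [hdiv]
    have h5 := norm_sub_sq_real ((ContinuousLinearMap.adjoint (fderiv ℝ S x)) (S x)) (S x)
    rw [h5]
    unfold bb
    ring
  rw [key]
  ring

end Pool.Agent.RG
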