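import Pool.Agent.H.MP_1b807b_an.G.Defs

/-! MP_1b807b_an, module Mor: Moreau envelopes of convex Lipschitz functions -/

set_option autoImplicit false

namespace Pool.Agent.RG

open MeasureTheory Metric Set
open scoped RealInnerProductSpace

variable {n : ℕ} {R K : ℝ} {u : E n → ℝ}

theorem mor_eq {x y : E n} (h : IsProx K u x y) : mor K u x = u y + K / 2 * ‖x - y‖ ^ 2 := by
  unfold mor
  apply IsLeast.csInf_eq
  refine ⟨⟨y, rfl⟩, ?_⟩
  rintro _ ⟨z, rfl⟩
  exact h z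

private theorem Mor_low (hK : 0 < K) (hu : ∀ y z, |u y - u z| ≤ R * ‖y - z‖) (x y : E n) :
    u x - R ^ 2 / (2 * K) ≤ u y + K / 2 * ‖x - y‖ ^ 2 := by
  have h1 := (abs_le.mp (hu x y)).2
  have h2 : K / 2 * ‖x - y‖ ^ 2 - R * ‖x - y‖ + R ^ 2 / (2 * K) =
      (K * ‖x - y‖ - R) ^ 2 / (2 * K) := by
    field_simp
    ring
  have h3 : 0 ≤ (K * ‖x - y‖ - R) ^ 2 / (2 * K) := by positivity
  linarith

/-- a lower bound that makes the infimum in `mor` harmless -/
theorem mor_bddBelow (hR : 0 ≤ R) (hK : 0 < K) (hu : ∀ y z, |u y - u z| ≤ R * ‖y - z‖) (x : E n) :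
    BddBelow (range fun y : E n => u y + K / 2 * ‖x - y‖ ^ 2) := by
  have _ := hR
  refine ⟨u x - R ^ 2 / (2 * K), ?_⟩
  rintro _ ⟨y, rfl⟩
  exact Mor_low hK hu x y

theorem mor_le (hR : 0 ≤ R) (hK : 0 < K) (hu : ∀ y z, |u y - u z| ≤ R * ‖y - z‖) (x y : E n) :
    mor K u x ≤ u y + K / 2 * ‖x - y‖ ^ 2 :=
  csInf_le (mor_bddBelow hR hK hu x) ⟨y, rfl⟩

private theorem Mor_cont (hR : 0 ≤ R) (hu : ∀ y z, |u y - u z| ≤ R * ‖y - z‖) :
    Continuous u := by
  have h : LipschitzWith ⟨R, hR⟩ u := by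
    apply LipschitzWith.of_dist_le_mul
    intro y z
    rw [Real.dist_eq, dist_eq_norm]
    exact hu y z
  exact h.continuous

theorem exists_prox (hR : 0 ≤ R) (hK : 0 < K) (hu : ∀ y z, |u y - u z| ≤ R * ‖y - z‖) (x : E n) :
    ∃ y, IsProx K u x y := by
  have hcu := Mor_cont hR hu
  have hc : Continuous (fun y : E n => u y + K / 2 * ‖x - y‖ ^ 2) := by fun_prop
  have hρ : (0 : ℝ) ≤ 2 * R / K + 1 := by positivity
  obtain ⟨y, hy, hmin⟩ := (isCompact_closedBall x (2 * R / K + 1)).exists_isMinOn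
    ⟨x, mem_closedBall_self hρ⟩ hc.continuousOn
  refine ⟨y, fun z => ?_⟩
  by_cases hz : z ∈ closedBall x (2 * R / K + 1)
  · exact hmin hz
  · have h1 := hmin (mem_closedBall_self hρ)
    simp only [mem_ofPred_eq, sub_self, norm_zero] at h1
    rw [mem_closedBall, not_le, dist_comm, dist_eq_norm] at hz
    have h2 := (abs_le.mp (hu x z)).2
    have h3 : 2 * R / K < ‖x - z‖ := by linarith
    rw [div_lt_iff₀ hK] at h3
    have h4 : R * ‖x - z‖ ≤ K / 2 * ‖x - z‖ ^ 2 := by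
      nlinarith [norm_nonneg (x - z)]
    linarith

/-- the subgradient inequality -/
theorem IsProx.subgrad (hK : 0 < K) (hc : ConvexOn ℝ univ u) {x y : E n} (h : IsProx K u x y)
    (z : E n) : u y + ⟪K • (x - y), z - y⟫ ≤ u z := by
  have key : ∀ t : ℝ, 0 < t → t < 1 →
      u y + ⟪K • (x - y), z - y⟫ ≤ u z + K / 2 * t * ‖z - y‖ ^ 2 := by
    intro t ht ht1
    have h1 := h (y + t • (z - y))
    have h2 : u (y + t • (z - y)) ≤ (1 - t) * u y + t * u z := by
      have h3 := hc.2 (mem_univ y) (mem_univ z) (by linarith : (0 : ℝ) ≤ 1 - t) ht.le (by ring)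
      have h4 : y + t • (z - y) = (1 - t) • y + t • z := by
        rw [smul_sub, sub_smul, one_smul]
        abel
      rw [h4]
      simpa [smul_eq_mul] using h3
    have h5 : ‖x - (y + t • (z - y))‖ ^ 2 =
        ‖x - y‖ ^ 2 - 2 * (t * ⟪x - y, z - y⟫) + t ^ 2 * ‖z - y‖ ^ 2 := by
      have h6 : x - (y + t • (z - y)) = (x - y) - t • (z - y) := by abel
      rw [h6, norm_sub_sq_real, inner_smul_right, norm_smul, Real.norm_eq_abs, mul_pow, sq_abs]
    rw [h5] at h1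
    rw [real_inner_smul_left]
    have h7 : 0 ≤ t * (u z + K / 2 * t * ‖z - y‖ ^ 2 - (u y + K * ⟪x - y, z - y⟫)) := by
      nlinarith
    have h8 := (mul_nonneg_iff_of_pos_left ht).mp h7
    linarith
  by_contra hcon
  push Not at hcon
  set δ := u y + ⟪K • (x - y), z - y⟫ - u z with hδ
  have hδ0 : 0 < δ := by linarith
  set M := K / 2 * ‖z - y‖ ^ 2 with hM
  have hM0 : 0 ≤ M := by positivity
  have ht0 : 0 < min (1 / 2) (δ / (2 * (M + 1))) := by positivity
  have h1 := key (min (1 / 2) (δ / (2 * (M + 1)))) ht0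
    (lt_of_le_of_lt (min_le_left _ _) (by norm_num))
  have h2 : K / 2 * min (1 / 2) (δ / (2 * (M + 1))) * ‖z - y‖ ^ 2 ≤ δ / 2 := by
    have h3 : K / 2 * min (1 / 2) (δ / (2 * (M + 1))) * ‖z - y‖ ^ 2 =
        M * min (1 / 2) (δ / (2 * (M + 1))) := by rw [hM]; ring
    rw [h3]
    have h4 : M * min (1 / 2) (δ / (2 * (M + 1))) ≤ M * (δ / (2 * (M + 1))) :=
      mul_le_mul_of_nonneg_left (min_le_right _ _) hM0
    have h5 : M * (δ / (2 * (M + 1))) ≤ δ / 2 := by
      rw [mul_div_assoc', div_le_div_iff₀ (by positivity) (by norm_num)]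
      nlinarith
    linarith
  linarith

theorem IsProx.of_subgrad (hK : 0 < K) {x y : E n}
    (h : ∀ z, u y + ⟪K • (x - y), z - y⟫ ≤ u z) : IsProx K u x y := by
  intro z
  have h1 := h z
  rw [real_inner_smul_left] at h1
  have h2 : ‖x - z‖ ^ 2 = ‖x - y‖ ^ 2 - 2 * ⟪x - y, z - y⟫ + ‖z - y‖ ^ 2 := by
    have h6 : x - z = (x - y) - (z - y) := by abel
    rw [h6, norm_sub_sq_real]
  rw [h2]
  nlinarith [sq_nonneg ‖z - y‖, mul_nonneg hK.le (sq_nonneg ‖z - y‖)]

theorem IsProx.norm_le (hR : 0 ≤ R) (hK : 0 < K) (hc : ConvexOn ℝ univ u)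
    (hu : ∀ y z, |u y - u z| ≤ R * ‖y - z‖) {x y : E n} (h : IsProx K u x y) :
    ‖K • (x - y)‖ ≤ R := by
  have h1 := h.subgrad hK hc (y + K • (x - y))
  have h2 := (abs_le.mp (hu (y + K • (x - y)) y)).2
  rw [add_sub_cancel_left] at h1 h2
  rw [real_inner_self_eq_norm_sq] at h1
  by_contra hcon
  push Not at hcon
  nlinarith [norm_nonneg (K • (x - y))]

theorem IsProx.mono (hK : 0 < K) (hc : ConvexOn ℝ univ u) {x x' y y' : E n}
    (h : IsProx K u x y) (h' : IsProx K u x' y') : 0 ≤ ⟪K • (x - y) - K • (x' - y'), y - y'⟫ := by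
  have h1 := h.subgrad hK hc y'
  have h2 := h'.subgrad hK hc y
  have h3 : ⟪K • (x - y), y' - y⟫ = -⟪K • (x - y), y - y'⟫ := by
    rw [← inner_neg_right, neg_sub]
  rw [h3] at h1
  rw [inner_sub_left]
  linarith

theorem IsProx.unique (hK : 0 < K) (hc : ConvexOn ℝ univ u) {x y y' : E n}
    (h : IsProx K u x y) (h' : IsProx K u x y') : y = y' := by
  have h1 := h.mono hK hc h'
  have h2 : K • (x - y) - K • (x - y') = -(K • (y - y')) := by
    rw [← smul_sub, ← smul_neg]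
    congr 1
    abel
  rw [h2, inner_neg_left, real_inner_smul_left, real_inner_self_eq_norm_sq] at h1
  have h3 : ‖y - y'‖ ^ 2 ≤ 0 := by
    by_contra hcon
    push Not at hcon
    nlinarith [mul_pos hK hcon]
  have h4 : ‖y - y'‖ = 0 := by
    have := sq_nonneg ‖y - y'‖
    exact pow_eq_zero_iff (two_ne_zero) |>.mp (le_antisymm h3 this)
  exact sub_eq_zero.mp (norm_eq_zero.mp h4)

/-- with `T = K (x - y)`: `⟨T - T', x - x'⟩ ≥ |T - T'|² / K` -/
theorem IsProx.firm (hK : 0 < K) (hc : ConvexOn ℝ univ u) {x x' y y' : E n}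
    (h : IsProx K u x y) (h' : IsProx K u x' y') :
    ‖K • (x - y) - K • (x' - y')‖ ^ 2 ≤ K * ⟪K • (x - y) - K • (x' - y'), x - x'⟫ := by
  have h1 := h.mono hK hc h'
  have h2 : K • (y - y') = K • (x - x') - (K • (x - y) - K • (x' - y')) := by
    simp only [smul_sub]
    abel
  have h3 : 0 ≤ ⟪K • (x - y) - K • (x' - y'), K • (y - y')⟫ := by
    rw [real_inner_smul_right]
    exact mul_nonneg hK.le h1
  rw [h2, inner_sub_right, real_inner_smul_right, real_inner_self_eq_norm_sq] at h3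
  linarith

/-- the proximal map is constant on segments between points with the same image -/
theorem IsProx.segment (hK : 0 < K) (hc : ConvexOn ℝ univ u) {x x' y : E n} (h : IsProx K u x y)
    (h' : IsProx K u x' y) {t : ℝ} (h0 : 0 ≤ t) (h1 : t ≤ 1) :
    IsProx K u (x + t • (x' - x)) y := by
  apply IsProx.of_subgrad hK
  intro z
  have e1 := h.subgrad hK hc z
  have e2 := h'.subgrad hK hc z
  have e3 : K • (x + t • (x' - x) - y) = (1 - t) • (K • (x - y)) + t • (K • (x' - y)) := by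
    simp only [smul_sub, smul_add, sub_smul, one_smul, smul_comm K t]
    abel
  rw [e3, inner_add_left, real_inner_smul_left (K • (x - y)), real_inner_smul_left (K • (x' - y))]
  have e4 := mul_le_mul_of_nonneg_left e1 (by linarith : (0 : ℝ) ≤ 1 - t)
  have e5 := mul_le_mul_of_nonneg_left e2 h0
  linarith

private theorem Mor_bound (hR : 0 ≤ R) (hK : 0 < K) (hc : ConvexOn ℝ univ u)
    (hu : ∀ y z, |u y - u z| ≤ R * ‖y - z‖) {x y : E n} (h : IsProx K u x y) (x' : E n) :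
    |mor K u x' - mor K u x - ⟪K • (x - y), x' - x⟫| ≤ K / 2 * ‖x' - x‖ ^ 2 := by
  have hx := mor_eq h
  obtain ⟨y', h'⟩ := exists_prox hR hK hu x'
  have hx' := mor_eq h'
  rw [abs_le]
  constructor
  · have e1 := h.subgrad hK hc y'
    rw [hx, hx']
    rw [real_inner_smul_left] at e1 ⊢
    have e2 : ‖(x' - y') - (x - y)‖ ^ 2 =
        ‖x' - y'‖ ^ 2 - 2 * ⟪x' - y', x - y⟫ + ‖x - y‖ ^ 2 := norm_sub_sq_real _ _
    have e3 : ⟪x - y, y' - y⟫ + ⟪x - y, x' - y'⟫ = ⟪x - y, x' - x⟫ + ‖x - y‖ ^ 2 := by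
      rw [← real_inner_self_eq_norm_sq, ← inner_add_right, ← inner_add_right]
      congr 1
      abel
    have e4 : ⟪x' - y', x - y⟫ = ⟪x - y, x' - y'⟫ := real_inner_comm _ _
    have e5 : 0 ≤ ‖(x' - y') - (x - y)‖ ^ 2 := sq_nonneg _
    have e6 : 0 ≤ ‖x' - x‖ ^ 2 := sq_nonneg _
    rw [e2, e4] at e5
    nlinarith [mul_nonneg hK.le e5, mul_nonneg hK.le e6]
  · have e1 := mor_le hR hK hu x' y
    rw [hx]
    rw [real_inner_smul_left]
    have e2 : ‖x' - y‖ ^ 2 = ‖x - y‖ ^ 2 + 2 * ⟪x - y, x' - x⟫ + ‖x' - x‖ ^ 2 := by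
      rw [← norm_add_sq_real]
      congr 2
      abel
    rw [e2] at e1
    linarith

/-- the envelope is differentiable with gradient `K (x - y)` -/
theorem IsProx.hasGradientAt (hR : 0 ≤ R) (hK : 0 < K) (hc : ConvexOn ℝ univ u)
    (hu : ∀ y z, |u y - u z| ≤ R * ‖y - z‖) {x y : E n} (h : IsProx K u x y) :
    HasGradientAt (mor K u) (K • (x - y)) x := by
  rw [hasGradientAt_iff_isLittleO]
  have hb : (fun x' : E n => mor K u x' - mor K u x - ⟪K • (x - y), x' - x⟫) =O[nhds x]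
      fun x' : E n => ‖x' - x‖ ^ 2 := by
    apply Asymptotics.IsBigO.of_bound (K / 2)
    filter_upwards with x'
    rw [Real.norm_eq_abs, Real.norm_eq_abs, abs_of_nonneg (sq_nonneg ‖x' - x‖)]
    exact Mor_bound hR hK hc hu h x'
  refine hb.trans_isLittleO ?_
  rw [Asymptotics.isLittleO_iff]
  intro c hc0
  filter_upwards [Metric.closedBall_mem_nhds x hc0] with x' hx'
  rw [mem_closedBall, dist_eq_norm] at hx'
  rw [Real.norm_eq_abs, abs_of_nonneg (sq_nonneg _), sq]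
  exact mul_le_mul_of_nonneg_right hx' (norm_nonneg _)

theorem mor_lip (hR : 0 ≤ R) (hK : 0 < K) (hc : ConvexOn ℝ univ u)
    (hu : ∀ y z, |u y - u z| ≤ R * ‖y - z‖) (x z : E n) :
    |mor K u x - mor K u z| ≤ R * ‖x - z‖ := by
  have _ := hc
  have key : ∀ x z : E n, mor K u x - mor K u z ≤ R * ‖x - z‖ := by
    intro x z
    obtain ⟨y, hy⟩ := exists_prox hR hK hu z
    rw [mor_eq hy]
    have e1 := mor_le hR hK hu x (y + (x - z))
    have e2 := (abs_le.mp (hu (y + (x - z)) y)).2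
    rw [add_sub_cancel_left] at e2
    have e3 : x - (y + (x - z)) = z - y := by abel
    rw [e3] at e1
    linarith
  rw [abs_le]
  have h1 := key x z
  have h2 := key z x
  rw [norm_sub_rev] at h2
  constructor <;> linarith

theorem mor_sub_le (hR : 0 ≤ R) (hK : 0 < K) {v : E n → ℝ}
    (hu : ∀ y z, |u y - u z| ≤ R * ‖y - z‖) (hv : ∀ y z, |v y - v z| ≤ R * ‖y - z‖) {C : ℝ}
    (hC : ∀ y, |u y - v y| ≤ C) (x : E n) : |mor K u x - mor K v x| ≤ C := by
  obtain ⟨y, hy⟩ := exists_prox hR hK hu x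
  obtain ⟨z, hz⟩ := exists_prox hR hK hv x
  have e1 := mor_eq hy
  have e2 := mor_eq hz
  have e3 := mor_le hR hK hu x z
  have e4 := mor_le hR hK hv x y
  have e5 := abs_le.mp (hC y)
  have e6 := abs_le.mp (hC z)
  rw [abs_le]
  constructor <;> linarith [e5.1, e5.2, e6.1, e6.2]

end Pool.Agent.RG
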