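import Pool.Agent.H.MP_1b807b_an.G.Leg
import Pool.Agent.H.MP_1b807b_an.G.Mor

/-! MP_1b807b_an, module KantMin: existence of a minimiser of the dual problem -/

set_option autoImplicit false

namespace Pool.Agent.RG

open MeasureTheory Metric Set Filter Topology
open scoped RealInnerProductSpace

variable {n : ℕ}

private theorem kantMin_cont_of_lip {L : ℝ} {u : E n → ℝ}
    (hu : ∀ y z, |u y - u z| ≤ L * ‖y - z‖) : Continuous u := by
  have h : LipschitzWith (Real.toNNReal L) u := by
    refine LipschitzWith.of_dist_le_mul fun y z => ?_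
    rw [Real.dist_eq, dist_eq_norm]
    refine (hu y z).trans ?_
    exact mul_le_mul_of_nonneg_right (Real.le_coe_toNNReal L) (norm_nonneg _)
  exact h.continuous

private theorem kantMin_cont_leg {R : ℝ} (hR : 0 ≤ R) {g : E n → ℝ} (hg : Continuous g) :
    Continuous (leg R g) := kantMin_cont_of_lip (leg_lip hR hg)

private theorem kantMin_cont_mor {R K : ℝ} (hR : 0 ≤ R) (hK : 0 < K) {g : E n → ℝ}
    (hg : Continuous g) : Continuous (mor K (leg R g)) :=
  kantMin_cont_of_lip (mor_lip hR hK (leg_convex hR hg) (leg_lip hR hg))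

private theorem kantMin_integrableOn {Ω : Set (E n)} (hb : Bornology.IsBounded Ω)
    {f : E n → ℝ} (hf : Continuous f) : IntegrableOn f Ω := by
  obtain ⟨r, hr⟩ := hb.subset_closedBall (0 : E n)
  exact (hf.continuousOn.integrableOn_compact (isCompact_closedBall (0 : E n) r)).mono_set hr

private theorem kantMin_finite {Ω : Set (E n)} (hb : Bornology.IsBounded Ω) :
    volume Ω ≠ ⊤ := hb.measure_lt_top.ne

private theorem kantMin_FF_sub_le {R K : ℝ} (hR : 0 ≤ R) (hK : 0 < K) {Ω : Set (E n)}
    (hb : Bornology.IsBounded Ω) {g h : E n → ℝ} (hg : Continuous g)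
    (hh : Continuous h) {C : ℝ}
    (hC : ∀ ξ ∈ closedBall (0 : E n) R, |g ξ - h ξ| ≤ C) :
    |FF R K Ω g - FF R K Ω h| ≤
      C * (volume.real (closedBall (0 : E n) R) + volume.real Ω) := by
  have hbB : Bornology.IsBounded (closedBall (0 : E n) R) := isBounded_closedBall
  have e1 : (∫ ξ in closedBall (0 : E n) R, g ξ) - ∫ ξ in closedBall (0 : E n) R, h ξ =
      ∫ ξ in closedBall (0 : E n) R, (g ξ - h ξ) :=
    (integral_sub (kantMin_integrableOn hbB hg) (kantMin_integrableOn hbB hh)).symm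
  have e2 : (∫ x in Ω, mor K (leg R g) x) - ∫ x in Ω, mor K (leg R h) x =
      ∫ x in Ω, (mor K (leg R g) x - mor K (leg R h) x) :=
    (integral_sub (kantMin_integrableOn hb (kantMin_cont_mor hR hK hg))
      (kantMin_integrableOn hb (kantMin_cont_mor hR hK hh))).symm
  have b1 : ‖∫ ξ in closedBall (0 : E n) R, (g ξ - h ξ)‖ ≤
      C * volume.real (closedBall (0 : E n) R) := by
    refine norm_setIntegral_le_of_norm_le_const (kantMin_finite hbB).lt_top ?_
    intro ξ hξ
    rw [Real.norm_eq_abs]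
    exact hC ξ hξ
  have b2 : ‖∫ x in Ω, (mor K (leg R g) x - mor K (leg R h) x)‖ ≤ C * volume.real Ω := by
    refine norm_setIntegral_le_of_norm_le_const (kantMin_finite hb).lt_top ?_
    intro x _
    rw [Real.norm_eq_abs]
    exact mor_sub_le hR hK (leg_lip hR hg) (leg_lip hR hh)
      (fun y => leg_sub_le hR hg hh hC y) x
  have e3 : FF R K Ω g - FF R K Ω h =
      (∫ ξ in closedBall (0 : E n) R, (g ξ - h ξ)) +
        ∫ x in Ω, (mor K (leg R g) x - mor K (leg R h) x) := by
    rw [← e1, ← e2]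
    unfold FF
    ring
  rw [e3, mul_add, ← Real.norm_eq_abs]
  exact (norm_add_le _ _).trans (add_le_add b1 b2)

private theorem kantMin_mor_sub_const {R K : ℝ} (hR : 0 ≤ R) (hK : 0 < K) {u : E n → ℝ}
    (hu : ∀ y z, |u y - u z| ≤ R * ‖y - z‖) (c : ℝ) (x : E n) :
    mor K (fun y => u y - c) x = mor K u x - c := by
  obtain ⟨y, hy⟩ := exists_prox hR hK hu x
  have hy' : IsProx K (fun y => u y - c) x y := by
    intro z
    have := hy z
    show u y - c + K / 2 * ‖x - y‖ ^ 2 ≤ u z - c + K / 2 * ‖x - z‖ ^ 2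
    linarith
  rw [mor_eq hy', mor_eq hy]
  ring

private theorem kantMin_FF_add_const {R K : ℝ} (hR : 0 ≤ R) (hK : 0 < K) {Ω : Set (E n)}
    (hb : Bornology.IsBounded Ω) (hv : volume.real Ω = volume.real (closedBall (0 : E n) R))
    {g : E n → ℝ} (hg : Continuous g) (c : ℝ) :
    FF R K Ω (fun ξ => g ξ + c) = FF R K Ω g := by
  have hbB : Bornology.IsBounded (closedBall (0 : E n) R) := isBounded_closedBall
  have e1 : ∫ ξ in closedBall (0 : E n) R, (g ξ + c) =
      (∫ ξ in closedBall (0 : E n) R, g ξ) + volume.real (closedBall (0 : E n) R) * c := by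
    rw [integral_add (kantMin_integrableOn hbB hg) (kantMin_integrableOn hbB continuous_const),
      setIntegral_const, smul_eq_mul]
  have e0 : leg R (fun ξ => g ξ + c) = fun y => leg R g y - c := by
    funext y
    exact leg_add_const hR hg c y
  have e2 : ∫ x in Ω, mor K (leg R (fun ξ => g ξ + c)) x =
      (∫ x in Ω, mor K (leg R g) x) - volume.real Ω * c := by
    rw [e0]
    have : (fun x => mor K (fun y => leg R g y - c) x) = fun x => mor K (leg R g) x - c := by
      funext x
      exact kantMin_mor_sub_const hR hK (leg_lip hR hg) c x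
    rw [this, integral_sub (kantMin_integrableOn hb (kantMin_cont_mor hR hK hg))
      (kantMin_integrableOn hb continuous_const), setIntegral_const, smul_eq_mul]
  unfold FF
  rw [e1, e2, hv]
  ring

private theorem kantMin_FF_reg {R K ρ L : ℝ} (hR : 0 ≤ R) (hK : 0 < K) {Ω : Set (E n)}
    (hΩ : MeasurableSet Ω) (hρ : Ω ⊆ closedBall 0 ρ) (hL0 : 0 ≤ L) (hL : ρ + R / K ≤ L)
    {g : E n → ℝ} (hg : Continuous g) :
    FF R K Ω (leg L (leg R g)) ≤ FF R K Ω g := by
  have hb : Bornology.IsBounded Ω := isBounded_closedBall.subset hρ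
  have hbB : Bornology.IsBounded (closedBall (0 : E n) R) := isBounded_closedBall
  have hu := kantMin_cont_leg hR hg
  have hgh : Continuous (leg L (leg R g)) := kantMin_cont_leg hL0 hu
  have h1 : ∀ ξ ∈ closedBall (0 : E n) R, leg L (leg R g) ξ ≤ g ξ := by
    intro ξ hξ
    obtain ⟨y, hy, he⟩ := leg_attained hL0 hu ξ
    have := le_leg hg y hξ
    rw [he]
    rw [real_inner_comm] at this
    linarith
  have h2 : ∀ y ∈ closedBall (0 : E n) L, leg R (leg L (leg R g)) y ≤ leg R g y := by
    intro y hy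
    obtain ⟨ξ, hξ, he⟩ := leg_attained hR hgh y
    have := le_leg hu ξ hy
    rw [he]
    rw [real_inner_comm] at this
    linarith
  have h3 : ∀ x ∈ Ω, mor K (leg R (leg L (leg R g))) x ≤ mor K (leg R g) x := by
    intro x hx
    obtain ⟨y, hy⟩ := exists_prox hR hK (leg_lip hR hg) x
    have hn := hy.norm_le hR hK (leg_convex hR hg) (leg_lip hR hg)
    rw [norm_smul, Real.norm_of_nonneg hK.le] at hn
    have hxy : ‖x - y‖ ≤ R / K := by
      rw [le_div_iff₀ hK]
      linarith
    have hxρ : ‖x‖ ≤ ρ := by simpa using hρ hx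
    have hyL : y ∈ closedBall (0 : E n) L := by
      rw [mem_closedBall_zero_iff]
      have : ‖y‖ ≤ ‖x‖ + ‖x - y‖ := by
        have h := norm_sub_le x (x - y)
        simpa using h
      linarith
    rw [mor_eq hy]
    refine (mor_le hR hK (leg_lip hR hgh) x y).trans ?_
    have := h2 y hyL
    linarith
  unfold FF
  refine add_le_add ?_ ?_
  · exact setIntegral_mono_on (kantMin_integrableOn hbB hgh) (kantMin_integrableOn hbB hg)
      measurableSet_closedBall h1
  · exact setIntegral_mono_on (kantMin_integrableOn hb (kantMin_cont_mor hR hK hgh))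
      (kantMin_integrableOn hb (kantMin_cont_mor hR hK hg)) hΩ h3

private def kantMinClass (n : ℕ) (L : ℝ) : Set (E n → ℝ) :=
  {g | (∀ x y, |g x - g y| ≤ L * ‖x - y‖) ∧ g 0 = 0}

private theorem kantMin_isCompact (L : ℝ) : IsCompact (kantMinClass n L) := by
  have hK : IsCompact (Set.pi univ fun x : E n => Icc (-(L * ‖x‖)) (L * ‖x‖)) :=
    isCompact_univ_pi fun x => isCompact_Icc
  refine hK.of_isClosed_subset ?_ ?_
  · have h1 : IsClosed {g : E n → ℝ | ∀ x y, |g x - g y| ≤ L * ‖x - y‖} := by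
      simp only [ofPred_forall]
      refine isClosed_iInter fun x => isClosed_iInter fun y => ?_
      exact isClosed_le (by fun_prop) continuous_const
    have h2 : IsClosed {g : E n → ℝ | g 0 = 0} := isClosed_eq (continuous_apply 0) continuous_const
    exact h1.inter h2
  · rintro g ⟨hg, h0⟩ x _
    have := hg x 0
    rw [h0, sub_zero, sub_zero] at this
    exact abs_le.1 this

private theorem kantMin_continuousOn {R K L : ℝ} (hR : 0 ≤ R) (hK : 0 < K) (hL : 0 ≤ L)
    {Ω : Set (E n)} (hb : Bornology.IsBounded Ω) :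
    ContinuousOn (FF R K Ω) (kantMinClass n L) := by
  intro g hg
  rw [ContinuousWithinAt, Metric.tendsto_nhds]
  intro ε hε
  set V : ℝ := volume.real (closedBall (0 : E n) R) + volume.real Ω with hV
  have hV0 : 0 ≤ V := by positivity
  obtain ⟨δ, hδ, hδε⟩ : ∃ δ : ℝ, 0 < δ ∧ (2 * L + 1) * δ * V < ε := by
    refine ⟨ε / (2 * ((2 * L + 1) * (V + 1))), by positivity, ?_⟩
    have h1 : (2 * L + 1) * (ε / (2 * ((2 * L + 1) * (V + 1)))) * V =
        ε / 2 * (V / (V + 1)) := by
      field_simp
    rw [h1]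
    have h2 : V / (V + 1) ≤ 1 := by
      rw [div_le_one (by positivity)]
      linarith
    nlinarith
  obtain ⟨t, ht, hcov⟩ := Metric.totallyBounded_iff.1
    (isCompact_closedBall (0 : E n) R).totallyBounded δ hδ
  have hev : ∀ᶠ h in 𝓝[kantMinClass n L] g, ∀ y ∈ t, |h y - g y| < δ := by
    rw [eventually_all_finite ht]
    intro y _
    have hc : Tendsto (fun h : E n → ℝ => h y) (𝓝[kantMinClass n L] g) (𝓝 (g y)) :=
      ((continuous_apply y).tendsto g).mono_left nhdsWithin_le_nhds
    have := (Metric.tendsto_nhds.1 hc) δ hδ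
    simpa [Real.dist_eq] using this
  have hmem : ∀ᶠ h in 𝓝[kantMinClass n L] g, h ∈ kantMinClass n L := eventually_mem_nhdsWithin
  filter_upwards [hev, hmem] with h h1 h2
  have hC : ∀ ξ ∈ closedBall (0 : E n) R, |h ξ - g ξ| ≤ (2 * L + 1) * δ := by
    intro ξ hξ
    obtain ⟨y, hy, hyξ⟩ := mem_iUnion₂.1 (hcov hξ)
    rw [mem_ball, dist_eq_norm] at hyξ
    have a1 := h2.1 ξ y
    have a2 := hg.1 ξ y
    have a3 := h1 y hy
    have a4 : L * ‖ξ - y‖ ≤ L * δ := mul_le_mul_of_nonneg_left hyξ.le hL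
    have e : h ξ - g ξ = (h ξ - h y) + (h y - g y) - (g ξ - g y) := by ring
    rw [e]
    calc |(h ξ - h y) + (h y - g y) - (g ξ - g y)|
        ≤ |(h ξ - h y) + (h y - g y)| + |g ξ - g y| := abs_sub _ _
      _ ≤ |h ξ - h y| + |h y - g y| + |g ξ - g y| := by
          gcongr
          exact abs_add_le _ _
      _ ≤ (2 * L + 1) * δ := by linarith
  rw [Real.dist_eq]
  refine (kantMin_FF_sub_le hR hK hb (kantMin_cont_of_lip h2.1) (kantMin_cont_of_lip hg.1)
    hC).trans_lt hδε

theorem exists_min_FF {R K : ℝ} (hR : 0 < R) (hK : 0 < K) {Ω : Set (E n)} (hΩ : MeasurableSet Ω)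
    (hb : Bornology.IsBounded Ω) (hv : volume Ω = volume (ball (0 : E n) R)) :
    ∃ g : E n → ℝ, Continuous g ∧ ∀ h : E n → ℝ, Continuous h → FF R K Ω g ≤ FF R K Ω h := by
  obtain ⟨r, hr⟩ := hb.subset_closedBall (0 : E n)
  set ρ : ℝ := max r 0 with hρd
  have hρ : Ω ⊆ closedBall (0 : E n) ρ := hr.trans (closedBall_subset_closedBall (le_max_left _ _))
  have hρ0 : 0 ≤ ρ := le_max_right _ _
  set L : ℝ := ρ + R / K with hLd
  have hL0 : 0 ≤ L := by positivity
  have hv' : volume.real Ω = volume.real (closedBall (0 : E n) R) := by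
    have hs : volume (sphere (0 : E n) R) = 0 := Measure.addHaar_sphere_of_ne_zero _ _ hR.ne'
    have hcb : volume (closedBall (0 : E n) R) = volume (ball (0 : E n) R) := by
      refine le_antisymm ?_ (measure_mono ball_subset_closedBall)
      rw [← ball_union_sphere]
      refine (measure_union_le _ _).trans ?_
      rw [hs, add_zero]
    unfold Measure.real
    rw [hv, hcb]
  have hne : (kantMinClass n L).Nonempty := by
    refine ⟨fun _ => 0, fun x y => ?_, rfl⟩
    simp only [sub_self, abs_zero]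
    positivity
  obtain ⟨g, hg, hmin⟩ := (kantMin_isCompact (n := n) L).exists_isMinOn hne
    (kantMin_continuousOn hR.le hK hL0 hb)
  refine ⟨g, kantMin_cont_of_lip hg.1, fun h hh => ?_⟩
  set k : E n → ℝ := leg L (leg R h) with hk
  have hkc : Continuous k := kantMin_cont_leg hL0 (kantMin_cont_leg hR.le hh)
  have hkm : (fun ξ => k ξ + -(k 0)) ∈ kantMinClass n L := by
    refine ⟨fun x y => ?_, by ring⟩
    have := leg_lip hL0 (kantMin_cont_leg hR.le hh) x y
    have e : k x + -(k 0) - (k y + -(k 0)) = k x - k y := by ring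
    show |k x + -(k 0) - (k y + -(k 0))| ≤ _
    rw [e]
    exact this
  calc FF R K Ω g ≤ FF R K Ω (fun ξ => k ξ + -(k 0)) := hmin hkm
    _ = FF R K Ω k := kantMin_FF_add_const hR.le hK hb hv' hkc _
    _ ≤ FF R K Ω h := kantMin_FF_reg hR.le hK hΩ hρ hL0 le_rfl hh

end Pool.Agent.RG
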