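import Pool.Agent.H.MP_1b807b_an.G.Defs

/-! MP_1b807b_an, module Leg: the Legendre transform over the ball -/

set_option autoImplicit false

namespace Pool.Agent.RG

open MeasureTheory Metric Set Filter Topology
open scoped RealInnerProductSpace

variable {n : ℕ} {R : ℝ} {g h χ : E n → ℝ}

theorem leg_aux_cont (hg : Continuous g) (y : E n) :
    Continuous (fun ξ : E n => ⟪ξ, y⟫ - g ξ) :=
  (continuous_id.inner continuous_const).sub hg

theorem leg_attained (hR : 0 ≤ R) (hg : Continuous g) (y : E n) :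
    ∃ ξ ∈ closedBall (0 : E n) R, leg R g y = ⟪ξ, y⟫ - g ξ := by
  have hc : IsCompact (closedBall (0 : E n) R) := isCompact_closedBall _ _
  have hne : (closedBall (0 : E n) R).Nonempty := ⟨0, mem_closedBall_self hR⟩
  obtain ⟨ξ, hξ, hmax⟩ := hc.exists_isMaxOn hne (leg_aux_cont hg y).continuousOn
  refine ⟨ξ, hξ, ?_⟩
  unfold leg
  apply IsGreatest.csSup_eq
  refine ⟨⟨ξ, hξ, rfl⟩, ?_⟩
  rintro _ ⟨ζ, hζ, rfl⟩
  exact hmax hζ

theorem le_leg (hg : Continuous g) (y : E n) {ξ : E n} (hξ : ξ ∈ closedBall (0 : E n) R) :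
    ⟪ξ, y⟫ - g ξ ≤ leg R g y := by
  have hc : IsCompact (closedBall (0 : E n) R) := isCompact_closedBall _ _
  unfold leg
  exact le_csSup (hc.bddAbove_image (leg_aux_cont hg y).continuousOn) ⟨ξ, hξ, rfl⟩

theorem leg_convex (hR : 0 ≤ R) (hg : Continuous g) : ConvexOn ℝ univ (leg R g) := by
  refine ⟨convex_univ, ?_⟩
  intro y _ z _ a b ha hb hab
  obtain ⟨ξ, hξ, h1⟩ := leg_attained hR hg (a • y + b • z)
  rw [h1, inner_add_right, real_inner_smul_right, real_inner_smul_right, smul_eq_mul, smul_eq_mul]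
  have h2 := mul_le_mul_of_nonneg_left (le_leg hg y hξ) ha
  have h3 := mul_le_mul_of_nonneg_left (le_leg hg z hξ) hb
  have h4 : g ξ = a * g ξ + b * g ξ := by rw [← add_mul, hab, one_mul]
  linarith

theorem leg_aux_lip (hR : 0 ≤ R) (hg : Continuous g) (y z : E n) :
    leg R g y - leg R g z ≤ R * ‖y - z‖ := by
  obtain ⟨ξ, hξ, h1⟩ := leg_attained hR hg y
  have h2 := le_leg hg z hξ
  have h3 : ⟪ξ, y - z⟫ = ⟪ξ, y⟫ - ⟪ξ, z⟫ := inner_sub_right _ _ _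
  have h4 : ⟪ξ, y - z⟫ ≤ ‖ξ‖ * ‖y - z‖ := real_inner_le_norm _ _
  have h5 : ‖ξ‖ ≤ R := mem_closedBall_zero_iff.1 hξ
  have h6 : ‖ξ‖ * ‖y - z‖ ≤ R * ‖y - z‖ := mul_le_mul_of_nonneg_right h5 (norm_nonneg _)
  linarith

theorem leg_lip (hR : 0 ≤ R) (hg : Continuous g) (y z : E n) :
    |leg R g y - leg R g z| ≤ R * ‖y - z‖ := by
  rw [abs_le]
  have h1 := leg_aux_lip hR hg y z
  have h2 := leg_aux_lip hR hg z y
  rw [norm_sub_rev] at h2
  constructor <;> linarith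

theorem leg_anti (hR : 0 ≤ R) (hg : Continuous g) (hh : Continuous h)
    (hle : ∀ ξ ∈ closedBall (0 : E n) R, g ξ ≤ h ξ) (y : E n) : leg R h y ≤ leg R g y := by
  obtain ⟨ξ, hξ, h1⟩ := leg_attained hR hh y
  have h2 := le_leg hg y hξ
  have h3 := hle ξ hξ
  linarith

theorem leg_aux_sub_le (hR : 0 ≤ R) (hg : Continuous g) (hh : Continuous h) {C : ℝ}
    (hC : ∀ ξ ∈ closedBall (0 : E n) R, |g ξ - h ξ| ≤ C) (y : E n) :
    leg R g y - leg R h y ≤ C := by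
  obtain ⟨ξ, hξ, h1⟩ := leg_attained hR hg y
  have h2 := le_leg hh y hξ
  have h3 := abs_le.1 (hC ξ hξ)
  linarith [h3.1]

theorem leg_sub_le (hR : 0 ≤ R) (hg : Continuous g) (hh : Continuous h) {C : ℝ}
    (hC : ∀ ξ ∈ closedBall (0 : E n) R, |g ξ - h ξ| ≤ C) (y : E n) :
    |leg R g y - leg R h y| ≤ C := by
  rw [abs_le]
  have h1 := leg_aux_sub_le hR hg hh hC y
  have h2 := leg_aux_sub_le hR hh hg (C := C) (fun ξ hξ => by
    rw [abs_sub_comm]; exact hC ξ hξ) y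
  constructor <;> linarith

theorem leg_add_const (hR : 0 ≤ R) (hg : Continuous g) (c : ℝ) (y : E n) :
    leg R (fun ξ => g ξ + c) y = leg R g y - c := by
  have hgc : Continuous (fun ξ => g ξ + c) := hg.add continuous_const
  apply le_antisymm
  · obtain ⟨ξ, hξ, h1⟩ := leg_attained hR hgc y
    have h2 := le_leg hg y hξ
    linarith
  · obtain ⟨ξ, hξ, h1⟩ := leg_attained hR hg y
    have h2 := le_leg hgc y hξ
    linarith

/-- a subgradient at a point of differentiability is the derivative -/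
theorem leg_aux_fderiv {u : E n → ℝ} {y p : E n} (hd : DifferentiableAt ℝ u y)
    (hp : ∀ z, u y + ⟪p, z - y⟫ ≤ u z) : fderiv ℝ u y = innerSL ℝ p := by
  have h1 : IsLocalMin (fun z => u z - innerSL ℝ p z) y := by
    refine Filter.Eventually.of_forall fun z => ?_
    have h2 := hp z
    have h3 : ⟪p, z - y⟫ = ⟪p, z⟫ - ⟪p, y⟫ := inner_sub_right _ _ _
    change u y - ⟪p, y⟫ ≤ u z - ⟪p, z⟫
    linarith
  have h2 := h1.fderiv_eq_zero
  have h3 : HasFDerivAt (fun z => u z - innerSL ℝ p z) (fderiv ℝ u y - innerSL ℝ p) y :=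
    hd.hasFDerivAt.sub (innerSL ℝ p).hasFDerivAt
  rw [h3.fderiv] at h2
  exact sub_eq_zero.1 h2

theorem leg_aux_max (hg : Continuous g) {y ξ : E n} (hξ : ξ ∈ closedBall (0 : E n) R)
    (h1 : leg R g y = ⟪ξ, y⟫ - g ξ) (z : E n) : leg R g y + ⟪ξ, z - y⟫ ≤ leg R g z := by
  have h2 := le_leg hg z hξ
  have h3 : ⟪ξ, z - y⟫ = ⟪ξ, z⟫ - ⟪ξ, y⟫ := inner_sub_right _ _ _
  linarith

theorem leg_aux_innerSL {p q : E n} (h : innerSL ℝ p = innerSL ℝ q) : p = q := by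
  apply ext_inner_right ℝ
  intro v
  have := congrArg (fun L => L v) h
  simpa using this

/-- differentiability gives uniqueness of the maximiser -/
theorem leg_unique (hR : 0 ≤ R) (hg : Continuous g) {y : E n}
    (hd : DifferentiableAt ℝ (leg R g) y) {ξ ζ : E n} (hξ : ξ ∈ closedBall (0 : E n) R)
    (hζ : ζ ∈ closedBall (0 : E n) R) (h1 : leg R g y = ⟪ξ, y⟫ - g ξ)
    (h2 : leg R g y = ⟪ζ, y⟫ - g ζ) : ξ = ζ := by
  have e1 := leg_aux_fderiv hd (leg_aux_max hg hξ h1)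
  have e2 := leg_aux_fderiv hd (leg_aux_max hg hζ h2)
  exact leg_aux_innerSL (e1.symm.trans e2)

/-- a subgradient at a point of differentiability is the maximiser -/
theorem leg_subgrad (hR : 0 ≤ R) (hg : Continuous g) {y p ξ : E n}
    (hd : DifferentiableAt ℝ (leg R g) y) (hξ : ξ ∈ closedBall (0 : E n) R)
    (h1 : leg R g y = ⟪ξ, y⟫ - g ξ)
    (hp : ∀ z, leg R g y + ⟪p, z - y⟫ ≤ leg R g z) : p = ξ := by
  have e1 := leg_aux_fderiv hd (leg_aux_max hg hξ h1)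
  have e2 := leg_aux_fderiv hd hp
  exact leg_aux_innerSL (e2.symm.trans e1)

/-- Danskin's theorem -/
theorem leg_danskin (hR : 0 ≤ R) (hg : Continuous g) (hχ : Continuous χ) {y ξ : E n}
    (hd : DifferentiableAt ℝ (leg R g) y) (hξ : ξ ∈ closedBall (0 : E n) R)
    (h1 : leg R g y = ⟪ξ, y⟫ - g ξ) {η : ℝ} (hη : 0 < η) :
    ∀ᶠ ε in 𝓝[>] (0 : ℝ),
      ε * (χ ξ - η) ≤ leg R g y - leg R (fun ζ => g ζ + ε * χ ζ) y := by
  have hc : IsCompact (closedBall (0 : E n) R) := isCompact_closedBall _ _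
  have hm : ∃ m : ℝ, 0 < m ∧ ∀ ζ ∈ closedBall (0 : E n) R, χ ζ ≤ χ ξ - η →
      ⟪ζ, y⟫ - g ζ ≤ leg R g y - m := by
    have hC : IsCompact (closedBall (0 : E n) R ∩ {ζ | χ ζ ≤ χ ξ - η}) :=
      hc.inter_right (isClosed_le hχ continuous_const)
    rcases (closedBall (0 : E n) R ∩ {ζ | χ ζ ≤ χ ξ - η}).eq_empty_or_nonempty with he | hne
    · refine ⟨1, one_pos, fun ζ hζ hζ2 => ?_⟩
      have : ζ ∈ closedBall (0 : E n) R ∩ {ζ | χ ζ ≤ χ ξ - η} := ⟨hζ, hζ2⟩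
      rw [he] at this
      exact absurd this (notMem_empty _)
    · obtain ⟨ζ0, hζ0, hmax⟩ := hC.exists_isMaxOn hne (leg_aux_cont hg y).continuousOn
      have h2 : ⟪ζ0, y⟫ - g ζ0 ≤ leg R g y := le_leg hg y hζ0.1
      have h3 : ⟪ζ0, y⟫ - g ζ0 ≠ leg R g y := by
        intro h4
        have h5 := leg_unique hR hg hd hξ hζ0.1 h1 h4.symm
        have h6 : χ ζ0 ≤ χ ξ - η := hζ0.2
        rw [← h5] at h6
        linarith
      have h4 : ⟪ζ0, y⟫ - g ζ0 < leg R g y := lt_of_le_of_ne h2 h3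
      refine ⟨leg R g y - (⟪ζ0, y⟫ - g ζ0), by linarith, fun ζ hζ hζ2 => ?_⟩
      have h5 : ⟪ζ, y⟫ - g ζ ≤ ⟪ζ0, y⟫ - g ζ0 := hmax ⟨hζ, hζ2⟩
      linarith
  obtain ⟨m, hmpos, hm⟩ := hm
  obtain ⟨B, hB⟩ := hc.exists_bound_of_continuousOn hχ.continuousOn
  have hB0 : 0 ≤ B := (norm_nonneg _).trans (hB ξ hξ)
  have hpos : (0 : ℝ) < m / (2 * B + 1) := by positivity
  filter_upwards [Ioo_mem_nhdsGT hpos] with ε hε
  obtain ⟨hε0, hε1⟩ := hε
  have hε2 : ε * (2 * B + 1) < m := (lt_div_iff₀ (by positivity)).1 hε1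
  have hgε : Continuous (fun ζ => g ζ + ε * χ ζ) := hg.add (continuous_const.mul hχ)
  obtain ⟨ζ, hζ, h2⟩ := leg_attained hR hgε y
  have h3 := le_leg hgε y hξ
  have h4 := le_leg hg y hζ
  have hχξ := abs_le.1 (hB ξ hξ)
  have hχζ := abs_le.1 (hB ζ hζ)
  have h5 : χ ξ - η < χ ζ := by
    by_contra hcon
    have h6 := hm ζ hζ (not_lt.1 hcon)
    have h7 : ε * χ ξ ≤ ε * B := mul_le_mul_of_nonneg_left hχξ.2 hε0.le
    have h8 : ε * (-B) ≤ ε * χ ζ := mul_le_mul_of_nonneg_left hχζ.1 hε0.le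
    nlinarith
  have h6 : ε * (χ ξ - η) ≤ ε * χ ζ := mul_le_mul_of_nonneg_left h5.le hε0.le
  linarith

end Pool.Agent.RG
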