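import Pool.Agent.H.MP_1b807b_an.G.Defs

/-! MP_1b807b_an, module MatIneq: the matrix inequality -/

set_option autoImplicit false

namespace Pool.Agent.RG

open scoped RealInnerProductSpace

variable {n : ℕ}

theorem tr_eq_trace (A : E n →L[ℝ] E n) : tr A = LinearMap.trace ℝ (E n) (A : E n →ₗ[ℝ] E n) := by
  rw [LinearMap.trace_eq_sum_inner (A : E n →ₗ[ℝ] E n) (EuclideanSpace.basisFun (Fin n) ℝ)]
  unfold tr
  refine Finset.sum_congr rfl (fun i _ => ?_)
  rw [EuclideanSpace.basisFun_apply, EuclideanSpace.inner_single_left]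
  simp

/-- eigenvalues lie in `[0, 2n]`, the trace is their sum -/
private theorem matIneq_data {A : E n →L[ℝ] E n} (hs : (A : E n →ₗ[ℝ] E n).IsSymmetric)
    (hf : ∀ v, ‖A v‖ ^ 2 ≤ (2 * n : ℝ) * ⟪A v, v⟫) :
    ∃ μ : Fin n → ℝ, (∀ i, 0 ≤ μ i) ∧ (∀ i, μ i ≤ 2 * n) ∧ tr A = ∑ i, μ i ∧
      A.det = ∏ i, μ i ∧
      (∀ c : ℝ, 0 ≤ c → (∀ i, (μ i - 1) ^ 2 ≤ c) →
        ‖A - ContinuousLinearMap.id ℝ (E n)‖ ^ 2 ≤ c) ∧
      (∀ (v : E n) (m : ℝ), v ≠ 0 → A v = m • v → ∃ i, μ i = m) := by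
  have hfr : Module.finrank ℝ (E n) = n := finrank_euclideanSpace_fin
  set b := hs.eigenvectorBasis hfr with hb
  set μ := hs.eigenvalues hfr with hμ
  have hAb : ∀ i, A (b i) = μ i • b i := fun i => hs.apply_eigenvectorBasis hfr i
  have hbn : ∀ i, ‖b i‖ = 1 := fun i => b.orthonormal.1 i
  have hbi : ∀ i, ⟪b i, b i⟫ = (1 : ℝ) := fun i => by
    rw [real_inner_self_eq_norm_sq, hbn i, one_pow]
  have hkey : ∀ i, μ i ^ 2 ≤ 2 * n * μ i := by
    intro i
    have h := hf (b i)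
    rw [hAb i, norm_smul, hbn i, real_inner_smul_left, hbi i, mul_one, mul_one,
      Real.norm_eq_abs, sq_abs] at h
    exact h
  have h0 : ∀ i, 0 ≤ μ i := by
    intro i
    by_contra hc
    push Not at hc
    have h := hkey i
    have hne := hc.ne
    have h1 : 0 < μ i ^ 2 := by positivity
    have h2 : 2 * (n : ℝ) * μ i ≤ 0 :=
      mul_nonpos_of_nonneg_of_nonpos (by positivity) hc.le
    linarith
  refine ⟨μ, h0, ?_, ?_, ?_, ?_, ?_⟩
  · intro i
    have h := hkey i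
    rcases (h0 i).eq_or_lt with h1 | h1
    · rw [← h1]; positivity
    · nlinarith
  · rw [tr_eq_trace, hs.trace_eq_sum_eigenvalues hfr]
    simp [hμ]
  · have := hs.det_eq_prod_eigenvalues hfr
    simpa [hμ, ContinuousLinearMap.det] using this
  · intro c hc hi
    have hb' : ∀ v : E n, ‖(A - ContinuousLinearMap.id ℝ (E n)) v‖ ≤ Real.sqrt c * ‖v‖ := by
      intro v
      have hinner : ∀ i, ⟪b i, (A - ContinuousLinearMap.id ℝ (E n)) v⟫ = (μ i - 1) * ⟪b i, v⟫ := by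
        intro i
        have h1 : ⟪b i, A v⟫ = μ i * ⟪b i, v⟫ := by
          have h2 : ⟪A (b i), v⟫ = ⟪b i, A v⟫ := hs (b i) v
          rw [← h2, hAb i, real_inner_smul_left]
        have h3 : (A - ContinuousLinearMap.id ℝ (E n)) v = A v - v := by simp
        rw [h3, inner_sub_right, h1]
        ring
      have e1 : ‖(A - ContinuousLinearMap.id ℝ (E n)) v‖ ^ 2
          = ∑ i, ((μ i - 1) * ⟪b i, v⟫) ^ 2 := by
        rw [← b.sum_sq_norm_inner_right ((A - ContinuousLinearMap.id ℝ (E n)) v)]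
        refine Finset.sum_congr rfl (fun i _ => ?_)
        rw [hinner i, Real.norm_eq_abs, sq_abs]
      have e2 : ‖v‖ ^ 2 = ∑ i, ⟪b i, v⟫ ^ 2 := by
        rw [← b.sum_sq_norm_inner_right v]
        refine Finset.sum_congr rfl (fun i _ => ?_)
        rw [Real.norm_eq_abs, sq_abs]
      have e3 : ‖(A - ContinuousLinearMap.id ℝ (E n)) v‖ ^ 2 ≤ c * ‖v‖ ^ 2 := by
        rw [e1, e2, Finset.mul_sum]
        refine Finset.sum_le_sum (fun i _ => ?_)
        rw [mul_pow]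
        exact mul_le_mul_of_nonneg_right (hi i) (sq_nonneg _)
      have e4 : ‖(A - ContinuousLinearMap.id ℝ (E n)) v‖ ^ 2 ≤ (Real.sqrt c * ‖v‖) ^ 2 := by
        rw [mul_pow, Real.sq_sqrt hc]
        exact e3
      exact (sq_le_sq₀ (norm_nonneg _) (by positivity)).mp e4
    have h1 := ContinuousLinearMap.opNorm_le_bound _ (Real.sqrt_nonneg c) hb'
    calc ‖A - ContinuousLinearMap.id ℝ (E n)‖ ^ 2 ≤ (Real.sqrt c) ^ 2 :=
          pow_le_pow_left₀ (norm_nonneg _) h1 2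
      _ = c := Real.sq_sqrt hc
  · intro v m hv hAv
    have : Module.End.HasEigenvalue (A : E n →ₗ[ℝ] E n) m := by
      refine Module.End.hasEigenvalue_of_hasEigenvector (x := v) ?_
      refine ⟨?_, hv⟩
      rw [Module.End.mem_eigenspace_iff]
      exact hAv
    obtain ⟨i, hi⟩ := hs.exists_eigenvalues_eq hfr this
    exact ⟨i, by simpa using hi⟩

/-- the scalar inequality `(μ-1)² ≤ 4 n (μ - 1 - log μ)` for `0 < μ ≤ 2 n` -/
private theorem matIneq_scalar {N μ : ℝ} (hN : 1 ≤ N) (h0 : 0 < μ) (h1 : μ ≤ 2 * N) :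
    (μ - 1) ^ 2 ≤ 4 * N * (μ - 1 - Real.log μ) := by
  have hlog : 0 ≤ μ - 1 - Real.log μ := by
    have := Real.log_le_sub_one_of_pos h0
    linarith
  rcases le_total 1 μ with h | h
  · have h2 : Real.log μ ≤ (μ - μ⁻¹) / 2 := by
      have h3 : Real.log μ ≤ Real.sinh (Real.log μ) :=
        Real.self_le_sinh_iff.mpr (Real.log_nonneg h)
      rwa [Real.sinh_log h0] at h3
    have h3 : (μ - 1) ^ 2 ≤ 2 * μ * (μ - 1 - Real.log μ) := by
      have h4 : (μ - 1) ^ 2 = 2 * μ * (μ - 1 - (μ - μ⁻¹) / 2) := by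
        field_simp
        ring
      rw [h4]
      exact mul_le_mul_of_nonneg_left (by linarith) (by positivity)
    calc (μ - 1) ^ 2 ≤ 2 * μ * (μ - 1 - Real.log μ) := h3
      _ ≤ 4 * N * (μ - 1 - Real.log μ) := mul_le_mul_of_nonneg_right (by linarith) hlog
  · have h2 : 2 * (1 - μ) / (1 + μ) ≤ -Real.log μ := by
      have h3 : 0 ≤ μ⁻¹ - 1 := by
        have : 1 ≤ μ⁻¹ := (one_le_inv₀ h0).mpr h
        linarith
      have h4 := Real.le_log_one_add_of_nonneg h3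
      have h5 : 1 + (μ⁻¹ - 1) = μ⁻¹ := by ring
      rw [h5, Real.log_inv] at h4
      have h6 : 2 * (μ⁻¹ - 1) / (μ⁻¹ - 1 + 2) = 2 * (1 - μ) / (1 + μ) := by
        have : μ⁻¹ - 1 + 2 ≠ 0 := by positivity
        field_simp
        ring
      rwa [h6] at h4
    have h3 : (1 - μ) + (1 - μ) ^ 2 / 2 ≤ 2 * (1 - μ) / (1 + μ) := by
      rw [le_div_iff₀ (by linarith)]
      have : 0 ≤ (1 - μ) ^ 3 := pow_nonneg (by linarith) 3
      nlinarith
    have h4 : (μ - 1) ^ 2 ≤ 2 * (μ - 1 - Real.log μ) := by nlinarith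
    calc (μ - 1) ^ 2 ≤ 2 * (μ - 1 - Real.log μ) := h4
      _ ≤ 4 * N * (μ - 1 - Real.log μ) := mul_le_mul_of_nonneg_right (by linarith) hlog

/-- the case of determinant at least one -/
theorem mat_good (hn : 1 ≤ n) {A : E n →L[ℝ] E n} (hs : (A : E n →ₗ[ℝ] E n).IsSymmetric)
    (hf : ∀ v, ‖A v‖ ^ 2 ≤ (2 * n : ℝ) * ⟪A v, v⟫) (hd : 1 ≤ |A.det|) :
    (n : ℝ) ≤ tr A ∧ ‖A - ContinuousLinearMap.id ℝ (E n)‖ ^ 2 ≤ 4 * n * (tr A - n) := by
  obtain ⟨μ, h0, h1, htr, hdet, hnorm, -⟩ := matIneq_data hs hf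
  have hN : (1 : ℝ) ≤ n := by exact_mod_cast hn
  have hprod : 1 ≤ ∏ i, μ i := by
    rw [hdet, abs_of_nonneg (Finset.prod_nonneg fun i _ => h0 i)] at hd
    exact hd
  have hpos : ∀ i, 0 < μ i := by
    intro i
    rcases (h0 i).eq_or_lt with h | h
    · exfalso
      have : ∏ i, μ i = 0 := Finset.prod_eq_zero (Finset.mem_univ i) h.symm
      rw [this] at hprod
      linarith
    · exact h
  have hlog : 0 ≤ ∑ i, Real.log (μ i) := by
    rw [← Real.log_prod (fun i _ => (hpos i).ne')]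
    exact Real.log_nonneg hprod
  have hterm : ∀ i, 0 ≤ μ i - 1 - Real.log (μ i) := by
    intro i
    have := Real.log_le_sub_one_of_pos (hpos i)
    linarith
  have hsum : ∑ i, (μ i - 1 - Real.log (μ i)) ≤ tr A - n := by
    rw [Finset.sum_sub_distrib, Finset.sum_sub_distrib, htr]
    simp only [Finset.sum_const, Finset.card_univ, Fintype.card_fin, nsmul_eq_mul, mul_one]
    linarith
  have hge : 0 ≤ tr A - n := le_trans (Finset.sum_nonneg fun i _ => hterm i) hsum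
  refine ⟨by linarith, hnorm _ (by positivity) (fun i => ?_)⟩
  have h2 := matIneq_scalar hN (hpos i) (h1 i)
  have h3 : μ i - 1 - Real.log (μ i) ≤ tr A - n :=
    le_trans (Finset.single_le_sum (f := fun i => μ i - 1 - Real.log (μ i))
      (fun i _ => hterm i) (Finset.mem_univ i)) hsum
  calc (μ i - 1) ^ 2 ≤ 4 * n * (μ i - 1 - Real.log (μ i)) := h2
    _ ≤ 4 * n * (tr A - n) := mul_le_mul_of_nonneg_left h3 (by positivity)

/-- the case of an eigenvalue `2n` -/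
theorem mat_bad (hn : 1 ≤ n) {A : E n →L[ℝ] E n} (hs : (A : E n →ₗ[ℝ] E n).IsSymmetric)
    (hf : ∀ v, ‖A v‖ ^ 2 ≤ (2 * n : ℝ) * ⟪A v, v⟫)
    (hd : (ContinuousLinearMap.id ℝ (E n) - (2 * n : ℝ)⁻¹ • A).det = 0) :
    (2 * n : ℝ) ≤ tr A ∧ ‖A - ContinuousLinearMap.id ℝ (E n)‖ ^ 2 ≤ 4 * n * (tr A - n) := by
  obtain ⟨μ, h0, h1, htr, -, hnorm, heig⟩ := matIneq_data hs hf
  have hN : (1 : ℝ) ≤ n := by exact_mod_cast hn
  have hne : (2 * n : ℝ) ≠ 0 := by positivity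
  obtain ⟨v, hv, hv0⟩ : ∃ v : E n, v ≠ 0 ∧
      (ContinuousLinearMap.id ℝ (E n) - (2 * n : ℝ)⁻¹ • A) v = 0 := by
    have hd' : LinearMap.det ((ContinuousLinearMap.id ℝ (E n) - (2 * n : ℝ)⁻¹ • A :
        E n →L[ℝ] E n) : E n →ₗ[ℝ] E n) = 0 := hd
    have hker := LinearMap.bot_lt_ker_of_det_eq_zero hd'
    obtain ⟨v, hv1, hv2⟩ := (Submodule.ne_bot_iff _).mp hker.ne'
    exact ⟨v, hv2, hv1⟩
  have hAv : A v = (2 * n : ℝ) • v := by
    have h2 : v - (2 * n : ℝ)⁻¹ • A v = 0 := by simpa using hv0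
    have h3 : v = (2 * n : ℝ)⁻¹ • A v := sub_eq_zero.mp h2
    have h4 := congrArg (fun z : E n => (2 * n : ℝ) • z) h3
    simp only [smul_smul, mul_inv_cancel₀ hne, one_smul] at h4
    exact h4.symm
  obtain ⟨j, hj⟩ := heig v _ hv hAv
  have htr2 : (2 * n : ℝ) ≤ tr A := by
    rw [htr, ← hj]
    exact Finset.single_le_sum (f := μ) (fun i _ => h0 i) (Finset.mem_univ j)
  refine ⟨htr2, hnorm _ (by nlinarith) (fun i => ?_)⟩
  have h2 := h0 i
  have h3 := h1 i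
  nlinarith

end Pool.Agent.RG
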