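import Pool.Agent.H.MP_1b807b_an.G.Defs

/-! MP_1b807b_an, module Push: a map that does not increase measure has determinant at least one -/

set_option autoImplicit false

namespace Pool.Agent.RG

open MeasureTheory Metric Set
open scoped RealInnerProductSpace

variable {n : ℕ}

private theorem push_lintegral {μ : Measure (E n)} [IsFiniteMeasure μ]
    (f : BoundedContinuousFunction (E n) NNReal) (hf1 : ∀ x, f x ≤ 1) :
    ∫⁻ x, (f x : ENNReal) ∂μ = ENNReal.ofReal (∫ x, (f x : ℝ) ∂μ) := by
  rw [ofReal_integral_eq_lintegral_ofReal]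
  · refine lintegral_congr fun x => ?_
    rw [ENNReal.ofReal_coe_nnreal]
  · refine Integrable.of_bound (C := 1) ?_ ?_
    · exact (NNReal.continuous_coe.comp f.continuous).aestronglyMeasurable
    · refine Filter.Eventually.of_forall fun x => ?_
      rw [Real.norm_eq_abs, abs_of_nonneg (NNReal.coe_nonneg _)]
      exact_mod_cast hf1 x
  · exact Filter.Eventually.of_forall fun x => NNReal.coe_nonneg _

private theorem push_closed {μ ν : Measure (E n)} [IsFiniteMeasure μ] [IsFiniteMeasure ν]
    (h : ∀ χ : E n → ℝ, Continuous χ → (∀ ξ, 0 ≤ χ ξ) → ∫ x, χ x ∂μ ≤ ∫ x, χ x ∂ν)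
    {F : Set (E n)} (hF : IsClosed F) : μ F ≤ ν F := by
  have hδ : ∀ j : ℕ, (0 : ℝ) < 1 / ((j : ℝ) + 1) := fun j => by positivity
  have hlim : Filter.Tendsto (fun j : ℕ => (1 : ℝ) / ((j : ℝ) + 1)) Filter.atTop (nhds 0) :=
    tendsto_one_div_add_atTop_nhds_zero_nat
  have h1 := tendsto_lintegral_thickenedIndicator_of_isClosed μ hF hδ hlim
  have h2 := tendsto_lintegral_thickenedIndicator_of_isClosed ν hF hδ hlim
  refine le_of_tendsto_of_tendsto' h1 h2 fun j => ?_
  have hle : ∀ x, thickenedIndicator (hδ j) F x ≤ 1 := fun x => thickenedIndicator_le_one (hδ j) F x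
  have e1 := push_lintegral (μ := μ) (thickenedIndicator (hδ j) F) hle
  have e2 := push_lintegral (μ := ν) (thickenedIndicator (hδ j) F) hle
  calc (∫⁻ x, (thickenedIndicator (hδ j) F x : ENNReal) ∂μ)
      = ENNReal.ofReal (∫ x, (thickenedIndicator (hδ j) F x : ℝ) ∂μ) := e1
    _ ≤ ENNReal.ofReal (∫ x, (thickenedIndicator (hδ j) F x : ℝ) ∂ν) := by
        refine ENNReal.ofReal_le_ofReal (h _ ?_ ?_)
        · exact NNReal.continuous_coe.comp (thickenedIndicator (hδ j) F).continuous
        · exact fun x => NNReal.coe_nonneg _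
    _ = ∫⁻ x, (thickenedIndicator (hδ j) F x : ENNReal) ∂ν := e2.symm

private theorem push_meas {μ ν : Measure (E n)} [IsFiniteMeasure μ] [IsFiniteMeasure ν]
    (h : ∀ χ : E n → ℝ, Continuous χ → (∀ ξ, 0 ≤ χ ξ) → ∫ x, χ x ∂μ ≤ ∫ x, χ x ∂ν)
    {C : Set (E n)} (hC : MeasurableSet C) : μ C ≤ ν C := by
  rw [hC.measure_eq_iSup_isClosed_of_ne_top (measure_ne_top μ C)]
  refine iSup_le fun F => iSup_le fun hFC => iSup_le fun hF => ?_
  exact (push_closed h hF).trans (measure_mono hFC)

theorem one_le_det {R : ℝ} {A : Set (E n)} (hA : MeasurableSet A) (hfin : volume A ≠ ⊤)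
    {T : E n → E n} (hT : Continuous T) (hTR : ∀ x, ‖T x‖ ≤ R)
    (h : ∀ χ : E n → ℝ, Continuous χ → (∀ ξ, 0 ≤ χ ξ) →
      ∫ x in A, χ (T x) ≤ ∫ ξ in ball (0 : E n) R, χ ξ) :
    ∀ᵐ x ∂(volume.restrict A), DifferentiableAt ℝ T x → 1 ≤ |(fderiv ℝ T x).det| := by
  haveI hf1 : IsFiniteMeasure (volume.restrict A) :=
    ⟨by rw [Measure.restrict_apply_univ]; exact lt_top_iff_ne_top.2 hfin⟩
  haveI hf2 : IsFiniteMeasure ((volume : Measure (E n)).restrict (ball (0 : E n) R)) :=
    ⟨by rw [Measure.restrict_apply_univ]; exact measure_ball_lt_top⟩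
  have hmeas : ∀ C : Set (E n), MeasurableSet C → volume (A ∩ T ⁻¹' C) ≤ volume C := by
    intro C hC
    have h1 : ((volume.restrict A).map T) C ≤ (volume.restrict (ball (0 : E n) R)) C := by
      refine push_meas ?_ hC
      intro χ hχ hχ0
      rw [integral_map hT.aemeasurable hχ.aestronglyMeasurable]
      exact h χ hχ hχ0
    rw [Measure.map_apply hT.measurable hC, Measure.restrict_apply (hT.measurable hC)] at h1
    rw [inter_comm]
    exact h1.trans (Measure.restrict_apply_le _ _)
  let q : ℕ → ℝ := fun j => 1 - 1 / ((j : ℝ) + 1)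
  have hq0 : ∀ j, 0 ≤ q j := by
    intro j
    have : 1 / ((j : ℝ) + 1) ≤ 1 := by
      rw [div_le_one (by positivity)]
      linarith [(Nat.cast_nonneg j : (0 : ℝ) ≤ j)]
    simp only [q]
    linarith
  have hq1 : ∀ j, q j < 1 := by
    intro j
    have : 0 < 1 / ((j : ℝ) + 1) := by positivity
    simp only [q]
    linarith
  let X : ℕ → Set (E n) := fun j =>
    A ∩ ({x | DifferentiableAt ℝ T x} ∩ {x | |(fderiv ℝ T x).det| ≤ q j})
  have hXm : ∀ j, MeasurableSet (X j) := by
    intro j
    refine hA.inter ((measurableSet_of_differentiableAt ℝ T).inter ?_)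
    have h1 : Measurable fun x => |(fderiv ℝ T x).det| :=
      (continuous_abs.comp ContinuousLinearMap.continuous_det).measurable.comp (measurable_fderiv ℝ T)
    exact measurableSet_le h1 measurable_const
  have hX0 : ∀ j, volume (X j) = 0 := by
    intro j
    have hXfin : volume (X j) ≠ ⊤ :=
      ne_top_of_le_ne_top hfin (measure_mono inter_subset_left)
    have h1 : volume (X j) ≤ ENNReal.ofReal (q j) * volume (X j) := by
      calc volume (X j) ≤ volume (A ∩ T ⁻¹' (toMeasurable volume (T '' X j))) := by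
            refine measure_mono fun x hx => ⟨hx.1, ?_⟩
            exact subset_toMeasurable _ _ (mem_image_of_mem T hx)
        _ ≤ volume (toMeasurable volume (T '' X j)) := hmeas _ (measurableSet_toMeasurable _ _)
        _ = volume (T '' X j) := measure_toMeasurable _
        _ ≤ ∫⁻ x in X j, ENNReal.ofReal |(fderiv ℝ T x).det| := by
            refine addHaar_image_le_lintegral_abs_det_fderiv volume (hXm j) fun x hx => ?_
            exact (hx.2.1 : DifferentiableAt ℝ T x).hasFDerivAt.hasFDerivWithinAt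
        _ ≤ ∫⁻ _ in X j, ENNReal.ofReal (q j) := by
            refine setLIntegral_mono measurable_const fun x hx => ?_
            exact ENNReal.ofReal_le_ofReal hx.2.2
        _ = ENNReal.ofReal (q j) * volume (X j) := by
            rw [setLIntegral_const]
    by_contra hne
    have hpos : 0 < volume (X j) := pos_iff_ne_zero.2 hne
    have h2 : ENNReal.ofReal (q j) < 1 := by
      rw [← ENNReal.ofReal_one]
      exact (ENNReal.ofReal_lt_ofReal_iff one_pos).2 (hq1 j)
    have h3 : ENNReal.ofReal (q j) * volume (X j) < 1 * volume (X j) :=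
      ENNReal.mul_lt_mul_left hne hXfin h2
    rw [one_mul] at h3
    exact absurd h1 (not_le.2 h3)
  have hall : ∀ᵐ x ∂(volume : Measure (E n)), ∀ j, x ∉ X j :=
    ae_all_iff.2 fun j => measure_eq_zero_iff_ae_notMem.1 (hX0 j)
  rw [ae_restrict_iff' hA]
  filter_upwards [hall] with x hx hxA hd
  by_contra hlt
  rw [not_le] at hlt
  obtain ⟨j, hj⟩ := exists_nat_one_div_lt (sub_pos.2 hlt)
  refine hx j ⟨hxA, hd, ?_⟩
  show |(fderiv ℝ T x).det| ≤ 1 - 1 / ((j : ℝ) + 1)
  linarith

end Pool.Agent.RG
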