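import Pool.Agent.H.MP_1b807b_an.G.Defs
import Pool.Agent.H.MP_1b807b_an.Bes

/-! MP_1b807b_an, module RadF: the radial eigenfunction `φ(|x|²)` of the ball -/

set_option autoImplicit false

namespace Pool.Agent.RG

/-- `φ(|x|²)` is the first Robin eigenfunction of the ball of radius `R` with parameter `-a`, with
eigenvalue `-k²`; its gradient is `w(|x|²) x`. -/
structure RadFun (n : ℕ) (R a k : ℝ) (φ w w1 : ℝ → ℝ) : Prop where
  hk : 0 < k
  dφ : ∀ t, HasDerivAt φ (w t / 2) t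
  dw : ∀ t, HasDerivAt w (w1 t) t
  cw1 : Continuous w1
  ode : ∀ t, 2 * t * w1 t + n * w t = k ^ 2 * φ t
  φ0 : φ 0 = 1
  one_le : ∀ t, 0 ≤ t → 1 ≤ φ t
  le_w : ∀ t, 0 ≤ t → k ^ 2 / n ≤ w t
  w_le : ∀ t, 0 ≤ t → w t ≤ k ^ 2 / n * φ t
  mono_w : ∀ s t, 0 ≤ s → s ≤ t → w s ≤ w t
  bc : R * w (R ^ 2) = a * φ (R ^ 2)

open Pool.Agent.H.MP_1b807b_an

private lemma RadF_shc_le (m j : ℕ) : 2 * shc (cc m) j ≤ cc m j / ((m : ℝ) + 1) := by
  unfold shc
  rw [cc_succ]
  have hc := cc_pos m j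
  have hj : (0 : ℝ) ≤ j := by positivity
  have hm : (0 : ℝ) ≤ m := by positivity
  have e : 2 * (((j : ℝ) + 1) * (cc m j / ((2 * j + 2) * (2 * j + m + 1)))) =
      cc m j / (2 * j + m + 1) := by
    field_simp
  rw [e]
  apply div_le_div_of_nonneg_left hc.le (by positivity)
  linarith

private lemma RadF_exists_k (m : ℕ) {R a : ℝ} (hR : 0 < R) (ha : 0 < a) :
    ∃ k : ℝ, 0 < k ∧ k * F m (k * R) = a := by
  obtain ⟨t0, ht0, hF⟩ := exists_F_gt m (c := 1 / 2) (by norm_num)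
  set K : ℝ := max (2 * a) (t0 / R) with hK
  have hK0 : 0 < K := lt_of_lt_of_le (by positivity) (le_max_left _ _)
  have h1 : t0 ≤ K * R := by
    have : t0 / R ≤ K := le_max_right _ _
    rwa [div_le_iff₀ hR] at this
  have h2 : 1 / 2 < F m (K * R) := lt_of_lt_of_le hF ((strictMono_F m).monotone h1)
  have h3 : a ≤ K * F m (K * R) := by
    have h4 : 2 * a ≤ K := le_max_left _ _
    nlinarith
  have hcont : ContinuousOn (fun k : ℝ => k * F m (k * R)) (Set.Icc 0 K) := by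
    have := continuous_F m
    fun_prop
  have hmem : a ∈ Set.Icc ((fun k : ℝ => k * F m (k * R)) 0) ((fun k : ℝ => k * F m (k * R)) K) := by
    constructor
    · simp; exact ha.le
    · exact h3
  obtain ⟨k, hk, hka⟩ := intermediate_value_Icc hK0.le hcont hmem
  refine ⟨k, ?_, hka⟩
  rcases hk.1.lt_or_eq with h | h
  · exact h
  · exfalso
    rw [← h] at hka
    simp at hka
    linarith

theorem exists_radFun {n : ℕ} (hn : 1 ≤ n) {R a : ℝ} (hR : 0 < R) (ha : 0 < a) :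
    ∃ (k : ℝ) (φ w w1 : ℝ → ℝ), RadFun n R a k φ w w1 := by
  obtain ⟨m, rfl⟩ : ∃ m, n = m + 1 := ⟨n - 1, by omega⟩
  obtain ⟨k, hk, hka⟩ := RadF_exists_k m hR ha
  have hm : (0 : ℝ) ≤ m := by positivity
  have hcast : ((m + 1 : ℕ) : ℝ) = (m : ℝ) + 1 := by push_cast; ring
  have E0 := ent_cc m
  have E1 := (ent_cc m).shc
  have E2 := (ent_cc m).shc.shc
  have dinner : ∀ t : ℝ, HasDerivAt (fun t : ℝ => k ^ 2 * t) (k ^ 2) t := by
    intro t
    simpa using (hasDerivAt_id t).const_mul (k ^ 2)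
  have n0 : ∀ j, 0 ≤ cc m j := fun j => (cc_pos m j).le
  have n1 : ∀ j, 0 ≤ shc (cc m) j := fun j => shc_nonneg n0 j
  refine ⟨k, fun t => ser (cc m) (k ^ 2 * t), fun t => 2 * k ^ 2 * ser (shc (cc m)) (k ^ 2 * t),
    fun t => 2 * k ^ 4 * ser (shc (shc (cc m))) (k ^ 2 * t), ?_⟩
  refine ⟨hk, ?_, ?_, ?_, ?_, ?_, ?_, ?_, ?_, ?_, ?_⟩
  · intro t
    have h := HasDerivAt.comp (h₂ := ser (cc m)) (h := fun t : ℝ => k ^ 2 * t) t
      (hasDerivAt_ser E0 (k ^ 2 * t)) (dinner t)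
    refine h.congr_deriv ?_
    ring
  · intro t
    have h := (HasDerivAt.comp (h₂ := ser (shc (cc m))) (h := fun t : ℝ => k ^ 2 * t) t
      (hasDerivAt_ser E1 (k ^ 2 * t)) (dinner t)).const_mul (2 * k ^ 2)
    refine h.congr_deriv ?_
    ring
  · have := continuous_ser E2
    fun_prop
  · intro t
    have h := ser_ode m (k ^ 2 * t)
    rw [hcast, ← h]
    ring
  · simp only [mul_zero]
    rw [ser_zero, cc_zero]
  · intro t ht
    have := ser_ge E0 n0 (z := k ^ 2 * t) (by positivity)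
    rwa [cc_zero] at this
  · intro t ht
    have := ser_ge E1 n1 (z := k ^ 2 * t) (by positivity)
    have e : shc (cc m) 0 = 1 / (2 * ((m : ℝ) + 1)) := by
      unfold shc
      rw [cc_succ, cc_zero]
      push_cast
      ring_nf
    rw [e] at this
    rw [hcast]
    calc k ^ 2 / ((m : ℝ) + 1) = 2 * k ^ 2 * (1 / (2 * ((m : ℝ) + 1))) := by field_simp
      _ ≤ 2 * k ^ 2 * ser (shc (cc m)) (k ^ 2 * t) := by gcongr
  · intro t ht
    have hz : 0 ≤ k ^ 2 * t := by positivity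
    have h1 : 2 * ser (shc (cc m)) (k ^ 2 * t) ≤ ser (cc m) (k ^ 2 * t) / ((m : ℝ) + 1) := by
      unfold ser
      rw [← tsum_mul_left, ← tsum_div_const]
      refine ((E1.summable _).mul_left 2).tsum_le_tsum (fun j => ?_) ((E0.summable _).div_const _)
      have h2 := RadF_shc_le m j
      have h3 : 0 ≤ (k ^ 2 * t) ^ j := pow_nonneg hz j
      calc 2 * (shc (cc m) j * (k ^ 2 * t) ^ j) = (2 * shc (cc m) j) * (k ^ 2 * t) ^ j := by ring
        _ ≤ (cc m j / ((m : ℝ) + 1)) * (k ^ 2 * t) ^ j := by gcongr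
        _ = cc m j * (k ^ 2 * t) ^ j / ((m : ℝ) + 1) := by ring
    rw [hcast]
    calc 2 * k ^ 2 * ser (shc (cc m)) (k ^ 2 * t)
        = k ^ 2 * (2 * ser (shc (cc m)) (k ^ 2 * t)) := by ring
      _ ≤ k ^ 2 * (ser (cc m) (k ^ 2 * t) / ((m : ℝ) + 1)) := by gcongr
      _ = k ^ 2 / ((m : ℝ) + 1) * ser (cc m) (k ^ 2 * t) := by ring
  · intro s t hs hst
    have h1 : ser (shc (cc m)) (k ^ 2 * s) ≤ ser (shc (cc m)) (k ^ 2 * t) := by
      unfold ser
      refine (E1.summable _).tsum_le_tsum (fun j => ?_) (E1.summable _)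
      have := n1 j
      gcongr
    gcongr
  · have hV := (V_pos m (k * R)).ne'
    have h1 : k * W m (k * R) = a * V m (k * R) := by
      rw [← hka]
      unfold F
      field_simp
    unfold W V at h1
    have e : (k * R) ^ 2 = k ^ 2 * R ^ 2 := by ring
    rw [e] at h1
    linarith

end Pool.Agent.RG
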