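import Pool.Agent.H.MP_1b807b_an.G.KantMin
import Pool.Agent.H.MP_1b807b_an.G.Perturb
import Pool.Agent.H.MP_1b807b_an.G.Push
import Pool.Agent.H.MP_1b807b_an.G.Degen
import Pool.Agent.H.MP_1b807b_an.G.Hess
import Pool.Agent.H.MP_1b807b_an.G.MatIneq

/-! MP_1b807b_an, module Transport: the transport map with bounded derivative -/

set_option autoImplicit false

namespace Pool.Agent.RG

open MeasureTheory Metric Set
open scoped RealInnerProductSpace NNReal

variable {n : ℕ}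

/-- the properties of the transport map `T` and of the good set `A` -/
structure IsTransport (n : ℕ) (R : ℝ) (Ω A : Set (E n)) (T : E n → E n) : Prop where
  lip : LipschitzWith (2 * n : ℝ≥0) T
  norm_le : ∀ x, ‖T x‖ ≤ R
  meas : MeasurableSet A
  sub : A ⊆ Ω
  push : ∀ χ : E n → ℝ, Continuous χ → (∀ ξ ∈ closedBall (0 : E n) R, 0 ≤ χ ξ) →
    ∫ x in A, χ (T x) ≤ ∫ ξ in ball (0 : E n) R, χ ξ
  tr_ge : ∀ᵐ x ∂(volume.restrict Ω), (n : ℝ) ≤ tr (fderiv ℝ T x)
  dist_le : ∀ᵐ x ∂(volume.restrict Ω),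
    ‖fderiv ℝ T x - ContinuousLinearMap.id ℝ (E n)‖ ^ 2 ≤ 4 * n * (tr (fderiv ℝ T x) - n)
  bad : ∀ᵐ x ∂(volume.restrict Ω), x ∉ A → (2 * n : ℝ) ≤ tr (fderiv ℝ T x)

theorem exists_transport (hn : 1 ≤ n) {R : ℝ} (hR : 0 < R) {Ω : Set (E n)} (ho : IsOpen Ω)
    (hb : Bornology.IsBounded Ω) (hv : volume Ω = volume (ball (0 : E n) R)) :
    ∃ (A : Set (E n)) (T : E n → E n), IsTransport n R Ω A T := by
  set K : ℝ := 2 * n with hKdef
  have hn0 : (0 : ℝ) < n := by exact_mod_cast hn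
  have hK : 0 < K := by positivity
  obtain ⟨g, hg, hmin⟩ := exists_min_FF hR hK ho.measurableSet hb hv
  set u : E n → ℝ := leg R g with hu_def
  have hc : ConvexOn ℝ univ u := leg_convex hR.le hg
  have hu : ∀ y z, |u y - u z| ≤ R * ‖y - z‖ := leg_lip hR.le hg
  choose Y hY using fun x => exists_prox hR.le hK hu x
  set T : E n → E n := fun x => K • (x - Y x) with hT_def
  have hTY : ∀ x, x - K⁻¹ • T x = Y x := by
    intro x
    simp only [hT_def, smul_smul, inv_mul_cancel₀ hK.ne', one_smul]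
    abel
  have hprox : ∀ x, IsProx K u x (x - K⁻¹ • T x) := by
    intro x; rw [hTY]; exact hY x
  have hlip0 := T_lip hK hc hprox
  have hKN : K.toNNReal = (2 * n : ℝ≥0) := by
    rw [hKdef]
    apply NNReal.coe_injective
    rw [Real.coe_toNNReal _ (by positivity)]
    push_cast
    ring
  have hlip : LipschitzWith (2 * n : ℝ≥0) T := by rw [← hKN]; exact hlip0
  have hTc : Continuous T := hlip.continuous
  have hTR : ∀ x, ‖T x‖ ≤ R := fun x => (hY x).norm_le hR.le hK hc hu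
  set A : Set (E n) := Ω ∩ {x | DifferentiableAt ℝ u (x - K⁻¹ • T x)} with hA_def
  have hYc : Continuous fun x => x - K⁻¹ • T x := by
    have h1 : Continuous fun x => K⁻¹ • T x := (continuous_const_smul K⁻¹).comp hTc
    exact continuous_id.sub h1
  have hAm : MeasurableSet A :=
    ho.measurableSet.inter (hYc.measurable (measurableSet_of_differentiableAt ℝ u))
  have hpush : ∀ χ : E n → ℝ, Continuous χ → (∀ ξ ∈ closedBall (0 : E n) R, 0 ≤ χ ξ) →
      ∫ x in A, χ (T x) ≤ ∫ ξ in ball (0 : E n) R, χ ξ := fun χ hχ h0 =>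
    push_le hR hK ho.measurableSet hb hg hmin hTc hprox hχ h0
  have hAfin : volume A ≠ ⊤ :=
    ((measure_mono inter_subset_left).trans_lt (hv ▸ measure_ball_lt_top)).ne
  have hdet := one_le_det hAm hAfin hTc hTR (fun χ hχ h0 => hpush χ hχ fun ξ _ => h0 ξ)
  rw [ae_restrict_iff' hAm] at hdet
  have hdeg := det_eq_zero hR hK hc hu hTc hprox
  have hdiff : ∀ᵐ x : E n, DifferentiableAt ℝ T x := hlip.ae_differentiableAt
  have key : ∀ᵐ x ∂(volume.restrict Ω), ((n : ℝ) ≤ tr (fderiv ℝ T x) ∧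
      ‖fderiv ℝ T x - ContinuousLinearMap.id ℝ (E n)‖ ^ 2 ≤ 4 * n * (tr (fderiv ℝ T x) - n)) ∧
      (x ∉ A → (2 * n : ℝ) ≤ tr (fderiv ℝ T x)) := by
    rw [ae_restrict_iff' ho.measurableSet]
    filter_upwards [hdet, hdeg, hdiff] with x h1 h2 h3 hx
    have hs := T_symm hR hK hc hu hprox h3
    have hf : ∀ v, ‖fderiv ℝ T x v‖ ^ 2 ≤ (2 * n : ℝ) * ⟪fderiv ℝ T x v, v⟫ :=
      T_firm hK hc hprox h3
    by_cases hxA : x ∈ A
    · exact ⟨mat_good hn hs hf (h1 hxA h3), fun h => absurd hxA h⟩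
    · have hnd : ¬ DifferentiableAt ℝ u (x - K⁻¹ • T x) := fun h => hxA ⟨hx, h⟩
      have h4 := mat_bad hn hs hf (h2 h3 hnd)
      refine ⟨⟨?_, h4.2⟩, fun _ => h4.1⟩
      linarith [h4.1]
  refine ⟨A, T, ⟨hlip, hTR, hAm, inter_subset_left, hpush, ?_, ?_, ?_⟩⟩
  · exact key.mono fun x hx => hx.1.1
  · exact key.mono fun x hx => hx.1.2
  · exact key.mono fun x hx => hx.2

end Pool.Agent.RG
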